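import Pool.Agent.Helper20.EX.Dig

/-!
# The axioms of digit arithmetic

Block EX-D.  `dax_std`: as `AxA.std` in `Pool/Agent/Helper20/Spectra/Arith.lean`: `dzero`, `dmax`, `dsuc` mean
`x = 0`, `x + 1 = m`, `y = x + 1`; then by induction on `y` the sum (`x + (y + 1) = z + m t` is `z = z' + 1`
with `x + y = z' + m t`, or `z = 0` and `x + y = (m - 1) + m t'`, `t = t' + 1`) and the product
(`x (y + 1) = z' + m t' + x`, `z' + x = z + m e`, `t = t' + e`; the number `x (y + 1) < m * m`, so all digits exist).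
`exists_std`: a finite strict linear order is isomorphic to `Fin (Nat.card M)`; transport the axioms
(`dax_FD` in `TupFD.lean` and `FD.transport`, or directly).
-/

set_option autoImplicit false

namespace Pool.Agent.Helper20.EX

open FirstOrder FirstOrder.Language Pool.Agent.Helper20.Spectra TupSys

variable {w : ℕ}

section Std68

variable {m : ℕ} {I : Interp DSym (dar w) (Fin m)}

private lemma dzero68 (hlt : ∀ x y, dlt I x y ↔ x < y) (x : Fin m) : dzero I x ↔ (x : ℕ) = 0 := by
  have hm : 0 < m := lt_of_le_of_lt (Nat.zero_le _) x.is_lt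
  unfold dzero
  simp only [hlt, Fin.lt_def]
  constructor
  · intro h
    have h1 := h ⟨0, hm⟩
    simp only at h1
    omega
  · intro h b
    omega

private lemma dmax68 (hlt : ∀ x y, dlt I x y ↔ x < y) (x : Fin m) :
    dmax I x ↔ (x : ℕ) + 1 = m := by
  unfold dmax
  simp only [hlt, Fin.lt_def]
  constructor
  · intro h
    by_contra hne
    have hz := x.is_lt
    exact h ⟨x + 1, by omega⟩ (by simp)
  · intro h b
    omega

private lemma dsuc68 (hlt : ∀ x y, dlt I x y ↔ x < y) (x y : Fin m) :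
    dsuc I x y ↔ (y : ℕ) = x + 1 := by
  unfold dsuc
  simp only [hlt, Fin.lt_def]
  constructor
  · rintro ⟨h1, h2⟩
    by_contra hne
    have hy := y.is_lt
    exact h2 ⟨x + 1, by omega⟩ ⟨by simp, by simp; omega⟩
  · intro h
    exact ⟨by omega, fun c hc => by omega⟩

private lemma a0_68 (x z t : Fin m) : (x : ℕ) + 0 = z + m * t ↔ z = x ∧ (t : ℕ) = 0 := by
  constructor
  · intro h
    have h1 : (t : ℕ) = 0 := by
      by_contra hne
      have h2 : m * 1 ≤ m * t := Nat.mul_le_mul_left m (by omega)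
      have := x.is_lt
      omega
    rw [h1] at h
    exact ⟨Fin.ext (by omega), h1⟩
  · rintro ⟨h1, h2⟩
    rw [h1, h2]
    omega

private lemma a1_68 (x y y' z t : Fin m) (hy : (y' : ℕ) = y + 1) :
    ((∃ z' : Fin m, (x : ℕ) + y = z' + m * t ∧ (z : ℕ) = z' + 1) ∨
      ((z : ℕ) = 0 ∧ ∃ z' t' : Fin m, (x : ℕ) + y = z' + m * t' ∧ (z' : ℕ) + 1 = m ∧
        (t : ℕ) = t' + 1)) ↔ (x : ℕ) + y' = z + m * t := by
  have hm : 0 < m := lt_of_le_of_lt (Nat.zero_le _) x.is_lt
  constructor
  · rintro (⟨z', h1, h2⟩ | ⟨h0, z', t', h1, h2, h3⟩)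
    · omega
    · have h4 : m * (t : ℕ) = m * t' + m := by rw [h3]; ring
      omega
  · intro h
    rcases Nat.eq_zero_or_pos (z : ℕ) with hz | hz
    · right
      refine ⟨hz, ?_⟩
      have ht : 0 < (t : ℕ) := by
        rcases Nat.eq_zero_or_pos (t : ℕ) with h0 | h0
        · rw [h0] at h
          omega
        · exact h0
      obtain ⟨s, hs⟩ : ∃ s : ℕ, (t : ℕ) = s + 1 := ⟨(t : ℕ) - 1, by omega⟩
      have hst : s < m := by have := t.is_lt; omega
      refine ⟨⟨m - 1, by omega⟩, ⟨s, hst⟩, ?_, ?_, hs⟩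
      · have h4 : m * (t : ℕ) = m * s + m := by rw [hs]; ring
        show (x : ℕ) + y = (m - 1) + m * s
        omega
      · show (m - 1) + 1 = m
        omega
    · left
      refine ⟨⟨(z : ℕ) - 1, by have := z.is_lt; omega⟩, ?_, ?_⟩
      · show (x : ℕ) + y = ((z : ℕ) - 1) + m * t
        omega
      · show (z : ℕ) = ((z : ℕ) - 1) + 1
        omega

private lemma m0_68 (x z t : Fin m) : (x : ℕ) * 0 = z + m * t ↔ (z : ℕ) = 0 ∧ (t : ℕ) = 0 := by
  have hm : 0 < m := lt_of_le_of_lt (Nat.zero_le _) x.is_lt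
  rw [mul_zero]
  constructor
  · intro h
    refine ⟨by omega, ?_⟩
    have h1 : m * (t : ℕ) = 0 := by omega
    rcases Nat.mul_eq_zero.1 h1 with h2 | h2
    · omega
    · exact h2
  · rintro ⟨h1, h2⟩
    rw [h1, h2]
    rfl

private lemma m1_68 (x y y' z t : Fin m) (hy : (y' : ℕ) = y + 1) :
    (∃ z' t' e o : Fin m, (x : ℕ) * y = z' + m * t' ∧ (z' : ℕ) + x = z + m * e ∧ (o : ℕ) = 0 ∧
      (t' : ℕ) + e = t + m * o) ↔ (x : ℕ) * y' = z + m * t := by
  have hm : 0 < m := lt_of_le_of_lt (Nat.zero_le _) x.is_lt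
  constructor
  · rintro ⟨z', t', e, o, h1, h2, h3, h4⟩
    have h5 : (t : ℕ) = t' + e := by
      rw [h3] at h4
      omega
    rw [hy, mul_add, mul_one, h1, h5, mul_add]
    omega
  · intro h
    have hxy : (x : ℕ) * y < m * m := Nat.mul_lt_mul_of_lt_of_lt x.is_lt y.is_lt
    have hx := x.is_lt
    have hz := z.is_lt
    have h1 : ((x : ℕ) * y) % m < m := Nat.mod_lt _ hm
    have h2 : ((x : ℕ) * y) / m < m := (Nat.div_lt_iff_lt_mul hm).2 hxy
    have h3 := Nat.mod_add_div ((x : ℕ) * y) m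
    have h4 := Nat.mod_add_div ((((x : ℕ) * y) % m) + x) m
    have h5 : ((((x : ℕ) * y) % m) + x) % m < m := Nat.mod_lt _ hm
    have h6 : ((((x : ℕ) * y) % m) + x) / m < m := by
      rw [Nat.div_lt_iff_lt_mul hm]
      rcases Nat.lt_or_ge 1 m with h7 | h7
      · have h8 : 2 * m ≤ m * m := Nat.mul_le_mul_right m h7
        omega
      · have h9 : (x : ℕ) = 0 := by omega
        rw [h9, zero_mul, Nat.zero_mod]
        exact Nat.mul_pos hm hm
    set a := ((x : ℕ) * y) % m with ha
    set b := ((x : ℕ) * y) / m with hb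
    set c := (a + x) % m with hc
    set e := (a + x) / m with he
    -- uniqueness of division
    have h7 : (z : ℕ) + m * t = c + m * (b + e) := by
      rw [← h, hy, mul_add, mul_one, mul_add]
      omega
    have h8 : (z : ℕ) = c := by
      have e1 : ((z : ℕ) + m * t) % m = z := by
        rw [Nat.add_mul_mod_self_left, Nat.mod_eq_of_lt hz]
      have e2 : (c + m * (b + e)) % m = c := by
        rw [Nat.add_mul_mod_self_left, Nat.mod_eq_of_lt h5]
      rw [← e1, ← e2, h7]
    have h9 : (t : ℕ) = b + e := by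
      have e1 : m * (t : ℕ) = m * (b + e) := by omega
      exact Nat.eq_of_mul_eq_mul_left hm e1
    refine ⟨⟨a, h1⟩, ⟨b, h2⟩, ⟨e, h6⟩, ⟨0, hm⟩, ?_, ?_, rfl, ?_⟩
    · show (x : ℕ) * y = a + m * b
      exact h3.symm
    · show a + (x : ℕ) = z + m * e
      rw [h8]
      exact h4.symm
    · show b + e = t + m * 0
      rw [h9, mul_zero, add_zero]

end Std68

theorem dax_std {m : ℕ} {I : Interp DSym (dar w) (Fin m)} (h : DAx I)
    (hlt : ∀ x y, dlt I x y ↔ x < y) : DStd I := by
  have hadd : ∀ (N : ℕ) (x y z t : Fin m), (y : ℕ) = N →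
      (dadd I x y z t ↔ (x : ℕ) + y = z + m * t) := by
    intro N
    induction N with
    | zero =>
      intro x y z t hy
      rw [h.add0 x y z t ((dzero68 hlt y).2 hy), dzero68 hlt, hy, a0_68]
    | succ N ih =>
      intro x y z t hy
      have hN : N < m := by have := y.is_lt; omega
      have hy' : (y : ℕ) = ((⟨N, hN⟩ : Fin m) : ℕ) + 1 := hy
      rw [h.add1 x ⟨N, hN⟩ y z t ((dsuc68 hlt _ _).2 hy'), ← a1_68 x ⟨N, hN⟩ y z t hy']
      simp only [ih x ⟨N, hN⟩ _ _ rfl, dsuc68 hlt, dzero68 hlt, dmax68 hlt]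
  have hadd' : ∀ x y z t : Fin m, dadd I x y z t ↔ (x : ℕ) + y = z + m * t :=
    fun x y z t => hadd _ x y z t rfl
  have hmul : ∀ (N : ℕ) (x y z t : Fin m), (y : ℕ) = N →
      (dmul I x y z t ↔ (x : ℕ) * y = z + m * t) := by
    intro N
    induction N with
    | zero =>
      intro x y z t hy
      rw [h.mul0 x y z t ((dzero68 hlt y).2 hy), dzero68 hlt, dzero68 hlt, hy, m0_68]
    | succ N ih =>
      intro x y z t hy
      have hN : N < m := by have := y.is_lt; omega
      have hy' : (y : ℕ) = ((⟨N, hN⟩ : Fin m) : ℕ) + 1 := hy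
      rw [h.mul1 x ⟨N, hN⟩ y z t ((dsuc68 hlt _ _).2 hy'), ← m1_68 x ⟨N, hN⟩ y z t hy']
      simp only [ih x ⟨N, hN⟩ _ _ rfl, hadd', dzero68 hlt]
  exact ⟨hlt, hadd', fun x y z t => hmul _ x y z t rfl⟩

theorem std_dax {m : ℕ} {I : Interp DSym (dar w) (Fin m)} (h : DStd I) : DAx I := by
  refine ⟨?_, ?_, ?_, ?_, ?_, ?_, ?_⟩
  · intro x
    rw [h.lt]
    exact lt_irrefl x
  · intro x y z h1 h2
    rw [h.lt] at *
    exact h1.trans h2
  · intro x y
    rw [h.lt, h.lt]
    exact lt_trichotomy x y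
  · intro x y z t hy
    rw [dzero68 h.lt] at hy
    rw [h.add, dzero68 h.lt, hy, a0_68]
  · intro x y y' z t hy
    rw [dsuc68 h.lt] at hy
    rw [h.add, ← a1_68 x y y' z t hy]
    simp only [h.add, dsuc68 h.lt, dzero68 h.lt, dmax68 h.lt]
  · intro x y z t hy
    rw [dzero68 h.lt] at hy
    rw [h.mul, dzero68 h.lt, dzero68 h.lt, hy, m0_68]
  · intro x y y' z t hy
    rw [dsuc68 h.lt] at hy
    rw [h.mul, ← m1_68 x y y' z t hy]
    simp only [h.add, h.mul, dzero68 h.lt]

section Trans68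

variable {M N : Type} (I : Interp DSym (dar w) M) (f : N ≃ M)

private lemma comp2_68 (x y : N) : f ∘ ![x, y] = ![f x, f y] := by
  funext i
  fin_cases i <;> rfl

private lemma comp4_68 (x y z t : N) : f ∘ ![x, y, z, t] = ![f x, f y, f z, f t] := by
  funext i
  fin_cases i <;> rfl

private lemma dltT68 (x y : N) :
    dlt (w := w) (fun s v => I s (f ∘ v)) x y ↔ dlt I (f x) (f y) := by
  have e : f ∘ ![x, y] = ![f x, f y] := comp2_68 f x y
  show I .lt (f ∘ ![x, y]) ↔ I .lt ![f x, f y]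
  exact Iff.of_eq (congrArg (I .lt) e)

private lemma daddT68 (x y z t : N) :
    dadd (w := w) (fun s v => I s (f ∘ v)) x y z t ↔ dadd I (f x) (f y) (f z) (f t) := by
  have e : f ∘ ![x, y, z, t] = ![f x, f y, f z, f t] := comp4_68 f x y z t
  show I .add (f ∘ ![x, y, z, t]) ↔ I .add ![f x, f y, f z, f t]
  exact Iff.of_eq (congrArg (I .add) e)

private lemma dmulT68 (x y z t : N) :
    dmul (w := w) (fun s v => I s (f ∘ v)) x y z t ↔ dmul I (f x) (f y) (f z) (f t) := by
  have e : f ∘ ![x, y, z, t] = ![f x, f y, f z, f t] := comp4_68 f x y z t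
  show I .mul (f ∘ ![x, y, z, t]) ↔ I .mul ![f x, f y, f z, f t]
  exact Iff.of_eq (congrArg (I .mul) e)

private lemma dzeroT68 (x : N) :
    dzero (w := w) (fun s v => I s (f ∘ v)) x ↔ dzero I (f x) := by
  unfold dzero
  simp only [dltT68]
  exact f.forall_congr_left.trans (by simp)

private lemma dmaxT68 (x : N) :
    dmax (w := w) (fun s v => I s (f ∘ v)) x ↔ dmax I (f x) := by
  unfold dmax
  simp only [dltT68]
  exact f.forall_congr_left.trans (by simp)

private lemma dsucT68 (x y : N) :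
    dsuc (w := w) (fun s v => I s (f ∘ v)) x y ↔ dsuc I (f x) (f y) := by
  unfold dsuc
  simp only [dltT68]
  exact and_congr Iff.rfl (f.forall_congr_left.trans (by simp))

private lemma daxT68 (h : DAx I) : DAx (w := w) (fun s v => I s (f ∘ v)) := by
  refine ⟨?_, ?_, ?_, ?_, ?_, ?_, ?_⟩
  · intro x
    rw [dltT68]
    exact h.irrefl _
  · intro x y z h1 h2
    rw [dltT68] at *
    exact h.trans _ _ _ h1 h2
  · intro x y
    rw [dltT68, dltT68]
    rcases h.total (f x) (f y) with h1 | h1 | h1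
    · exact Or.inl h1
    · exact Or.inr (Or.inl (f.injective h1))
    · exact Or.inr (Or.inr h1)
  · intro x y z t hy
    rw [dzeroT68] at hy
    rw [daddT68, dzeroT68, h.add0 _ _ _ _ hy, f.injective.eq_iff]
  · intro x y y' z t hy
    rw [dsucT68] at hy
    simp only [daddT68, dsucT68, dzeroT68, dmaxT68]
    rw [h.add1 _ _ _ _ _ hy]
    refine or_congr ?_ (and_congr Iff.rfl ?_)
    · constructor
      · rintro ⟨z', h1, h2⟩
        refine ⟨f.symm z', ?_, ?_⟩
        · rwa [f.apply_symm_apply]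
        · rwa [f.apply_symm_apply]
      · rintro ⟨z', h1, h2⟩
        exact ⟨f z', h1, h2⟩
    · constructor
      · rintro ⟨z', t', h1, h2, h3⟩
        refine ⟨f.symm z', f.symm t', ?_, ?_, ?_⟩
        · rwa [f.apply_symm_apply, f.apply_symm_apply]
        · rwa [f.apply_symm_apply]
        · rwa [f.apply_symm_apply]
      · rintro ⟨z', t', h1, h2, h3⟩
        exact ⟨f z', f t', h1, h2, h3⟩
  · intro x y z t hy
    rw [dzeroT68] at hy
    rw [dmulT68, dzeroT68, dzeroT68, h.mul0 _ _ _ _ hy]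
  · intro x y y' z t hy
    rw [dsucT68] at hy
    simp only [daddT68, dmulT68, dzeroT68]
    rw [h.mul1 _ _ _ _ _ hy]
    constructor
    · rintro ⟨z', t', e, o, h1, h2, h3, h4⟩
      refine ⟨f.symm z', f.symm t', f.symm e, f.symm o, ?_, ?_, ?_, ?_⟩
      · rwa [f.apply_symm_apply, f.apply_symm_apply]
      · rwa [f.apply_symm_apply, f.apply_symm_apply]
      · rwa [f.apply_symm_apply]
      · rwa [f.apply_symm_apply, f.apply_symm_apply, f.apply_symm_apply]
    · rintro ⟨z', t', e, o, h1, h2, h3, h4⟩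
      exact ⟨f z', f t', f e, f o, h1, h2, h3, h4⟩

end Trans68

theorem exists_std {M : Type} [Finite M] {I : Interp DSym (dar w) M} (h : DAx I) :
    ∃ e : M ≃ Fin (Nat.card M), DStd (fun s v => I s (e.symm ∘ v)) := by
  classical
  have : Fintype M := Fintype.ofFinite M
  have hst : IsStrictTotalOrder M (dlt I) :=
    { trichotomous := fun x y h1 h2 => by
        rcases h.total x y with h3 | h3 | h3
        · exact absurd h3 h1
        · exact h3
        · exact absurd h3 h2
      irrefl := h.irrefl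
      trans := h.trans }
  let _ : LinearOrder M := linearOrderOfSTO (dlt I)
  have hcard : Fintype.card M = Nat.card M := (Nat.card_eq_fintype_card).symm
  let f : Fin (Nat.card M) ≃o M := Fintype.orderIsoFinOfCardEq M hcard
  refine ⟨f.toEquiv.symm, ?_⟩
  refine dax_std (daxT68 I f.toEquiv h) fun x y => ?_
  rw [Equiv.symm_symm, dltT68]
  exact f.lt_iff_lt

end Pool.Agent.Helper20.EX
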