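import Pool.Agent.Helper20.EX.Dig

/-!
# The arithmetic of tuples is definable

Block EX-B.  Use `FD.rel`, `FD.ex`, `FD.ex1`, `FD.and`, `FD.or`, `FD.all_fin`, `FD.const`, `FD.eq`
(see `Pool/Agent/Helper20/Spectra/Arith.lean` for the style: `ltR_FD`, `addR_FD`, `zeroT_FD`, `AxA_FD`).
It is best to prove first, for element selectors `El` and tuple selectors `Pj`, that `dlt`, `dadd`,
`dmul`, `dnm`, `dzero`, `tadd`, `tsmul`, `tshift`, `tmul`, `tname` of selectors are `FD`.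
-/

set_option autoImplicit false

namespace Pool.Agent.Helper20.EX

open FirstOrder FirstOrder.Language Pool.Agent.Helper20.Spectra TupSys

variable {w : ℕ}

section

variable {α : Type} {K : ℕ}

private lemma el_inl57 {β : Type} {e : ∀ (M : Type), (α → M) → M} (h : El α e) :
    El (α ⊕ β) (fun M v => e M (v ∘ Sum.inl)) := by
  obtain ⟨x, hx⟩ := h
  exact ⟨Sum.inl x, fun M v => by beta_reduce; rw [hx]; rfl⟩

private lemma dlt_FD57 {e e' : ∀ (M : Type), (α → M) → M} (h : El α e) (h' : El α e') :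
    FD DSym (dar w) α (fun M R v => dlt R (e M v) (e' M v)) := by
  obtain ⟨x, hx⟩ := h
  obtain ⟨y, hy⟩ := h'
  refine FD.rel (ar := dar w) DSym.lt ⟨![x, y], fun M v => ?_⟩
  beta_reduce
  rw [hx, hy]
  funext i
  change Fin 2 at i
  fin_cases i <;> rfl

private lemma dadd_FD57 {e₁ e₂ e₃ e₄ : ∀ (M : Type), (α → M) → M} (h₁ : El α e₁) (h₂ : El α e₂)
    (h₃ : El α e₃) (h₄ : El α e₄) :
    FD DSym (dar w) α (fun M R v => dadd R (e₁ M v) (e₂ M v) (e₃ M v) (e₄ M v)) := by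
  obtain ⟨x, hx⟩ := h₁
  obtain ⟨y, hy⟩ := h₂
  obtain ⟨z, hz⟩ := h₃
  obtain ⟨t, ht⟩ := h₄
  refine FD.rel (ar := dar w) DSym.add ⟨![x, y, z, t], fun M v => ?_⟩
  beta_reduce
  rw [hx, hy, hz, ht]
  funext i
  change Fin 4 at i
  fin_cases i <;> rfl

private lemma dmul_FD57 {e₁ e₂ e₃ e₄ : ∀ (M : Type), (α → M) → M} (h₁ : El α e₁) (h₂ : El α e₂)
    (h₃ : El α e₃) (h₄ : El α e₄) :
    FD DSym (dar w) α (fun M R v => dmul R (e₁ M v) (e₂ M v) (e₃ M v) (e₄ M v)) := by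
  obtain ⟨x, hx⟩ := h₁
  obtain ⟨y, hy⟩ := h₂
  obtain ⟨z, hz⟩ := h₃
  obtain ⟨t, ht⟩ := h₄
  refine FD.rel (ar := dar w) DSym.mul ⟨![x, y, z, t], fun M v => ?_⟩
  beta_reduce
  rw [hx, hy, hz, ht]
  funext i
  change Fin 4 at i
  fin_cases i <;> rfl

private lemma dnm_FD57 {f : ∀ (M : Type), (α → M) → (Fin w → M)} (h : Pj α _ f) :
    FD DSym (dar w) α (fun M R v => dnm R (f M v)) :=
  FD.rel (ar := dar w) DSym.nm h

private lemma dzero_FD57 {e : ∀ (M : Type), (α → M) → M} (h : El α e) :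
    FD DSym (dar w) α (fun M R v => dzero R (e M v)) :=
  FD.all1 (FD.not (dlt_FD57 (El.var _) (el_inl57 h)))

private lemma dmax_FD57 {e : ∀ (M : Type), (α → M) → M} (h : El α e) :
    FD DSym (dar w) α (fun M R v => dmax R (e M v)) :=
  FD.all1 (FD.not (dlt_FD57 (el_inl57 h) (El.var _)))

private lemma dsuc_FD57 {e e' : ∀ (M : Type), (α → M) → M} (h : El α e) (h' : El α e') :
    FD DSym (dar w) α (fun M R v => dsuc R (e M v) (e' M v)) :=
  FD.and (dlt_FD57 h h')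
    (FD.all1 (FD.not (FD.and (dlt_FD57 (el_inl57 h) (El.var _)) (dlt_FD57 (El.var _) (el_inl57 h')))))

private lemma tzero_FD57 {f : ∀ (M : Type), (α → M) → (Fin (K + 1) → M)} (h : Pj α _ f) :
    FD DSym (dar w) α (fun M R v => tzero R (f M v)) :=
  FD.all_fin (fun i => dzero_FD57 (h.app i))

private lemma eqT_FD57 {f g : ∀ (M : Type), (α → M) → (Fin (K + 1) → M)} (h : Pj α _ f) (h' : Pj α _ g) :
    FD DSym (dar w) α (fun M _ v => f M v = g M v) := by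
  have h1 : FD DSym (dar w) α (fun M _ v => ∀ i, f M v i = g M v i) :=
    FD.all_fin (fun i => FD.eq (h.app i) (h'.app i))
  exact h1.congr (fun M R v => funext_iff)

private lemma ex2_57 {β γ : Type} [Finite β] [Finite γ]
    {P : ∀ (M : Type), Interp DSym (dar w) M → (α → M) → (β → γ → M) → Prop}
    (h : FD DSym (dar w) (α ⊕ (β × γ)) (fun M R v => P M R (v ∘ Sum.inl) (fun b c => v (Sum.inr (b, c))))) :
    FD DSym (dar w) α (fun M R v => ∃ x : β → γ → M, P M R v x) := by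
  have h1 : FD DSym (dar w) α (fun M R v => ∃ x : β × γ → M, P M R v (fun b c => x (b, c))) :=
    FD.ex (β := β × γ) h
  refine h1.congr (fun M R v => ?_)
  constructor
  · rintro ⟨x, hx⟩
    exact ⟨fun p => x p.1 p.2, hx⟩
  · rintro ⟨x, hx⟩
    exact ⟨fun b c => x (b, c), hx⟩

private lemma tadd_FD57 {x y z : ∀ (M : Type), (α → M) → (Fin (K + 1) → M)} (hx : Pj α _ x)
    (hy : Pj α _ y) (hz : Pj α _ z) :
    FD DSym (dar w) α (fun M R v => tadd R (x M v) (y M v) (z M v)) := by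
  unfold tadd
  exact FD.ex (FD.ex (FD.ex (FD.ex (FD.ex1 (FD.and (dzero_FD57 (El.var _))
    (FD.and (FD.eq (Pj.app (Pj.inl (Pj.inl (Pj.inl (Pj.inl Pj.inr)))) 0) (El.var _))
    (FD.and (FD.eq (Pj.app (Pj.inl (Pj.inl (Pj.inl (Pj.inl Pj.inr)))) (Fin.last (K + 1))) (El.var _))
    (FD.all_fin (fun i => FD.and
      (dadd_FD57 (Pj.app (Pj.inl (Pj.inl (Pj.inl (Pj.inl (Pj.inl hx))))) i)
        (Pj.app (Pj.inl (Pj.inl (Pj.inl (Pj.inl (Pj.inl hy))))) i)
        (Pj.app (Pj.inl (Pj.inl (Pj.inl Pj.inr))) i) (Pj.app (Pj.inl (Pj.inl Pj.inr)) i))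
      (FD.and
        (dadd_FD57 (Pj.app (Pj.inl (Pj.inl (Pj.inl Pj.inr))) i)
          (Pj.app (Pj.inl (Pj.inl (Pj.inl (Pj.inl Pj.inr)))) i.castSucc)
          (Pj.app (Pj.inl (Pj.inl (Pj.inl (Pj.inl (Pj.inl hz))))) i)
          (Pj.app (Pj.inl Pj.inr) i))
        (dadd_FD57 (Pj.app (Pj.inl (Pj.inl Pj.inr)) i) (Pj.app (Pj.inl Pj.inr) i)
          (Pj.app (Pj.inl (Pj.inl (Pj.inl (Pj.inl Pj.inr)))) i.succ) (El.var _))))))))))))

private lemma tsmul_FD57 {d : ∀ (M : Type), (α → M) → M} {x z : ∀ (M : Type), (α → M) → (Fin (K + 1) → M)}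
    (hd : El α d) (hx : Pj α _ x) (hz : Pj α _ z) :
    FD DSym (dar w) α (fun M R v => tsmul R (d M v) (x M v) (z M v)) := by
  unfold tsmul
  exact FD.ex (FD.ex (FD.ex (FD.ex (FD.ex1 (FD.and (dzero_FD57 (El.var _))
    (FD.and (FD.eq (Pj.app (Pj.inl (Pj.inl (Pj.inl (Pj.inl Pj.inr)))) 0) (El.var _))
    (FD.and (FD.eq (Pj.app (Pj.inl (Pj.inl (Pj.inl (Pj.inl Pj.inr)))) (Fin.last (K + 1))) (El.var _))
    (FD.all_fin (fun i => FD.and
      (dmul_FD57 (el_inl57 (el_inl57 (el_inl57 (el_inl57 (el_inl57 hd)))))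
        (Pj.app (Pj.inl (Pj.inl (Pj.inl (Pj.inl (Pj.inl hx))))) i)
        (Pj.app (Pj.inl (Pj.inl (Pj.inl Pj.inr))) i) (Pj.app (Pj.inl (Pj.inl Pj.inr)) i))
      (FD.and
        (dadd_FD57 (Pj.app (Pj.inl (Pj.inl (Pj.inl Pj.inr))) i)
          (Pj.app (Pj.inl (Pj.inl (Pj.inl (Pj.inl Pj.inr)))) i.castSucc)
          (Pj.app (Pj.inl (Pj.inl (Pj.inl (Pj.inl (Pj.inl hz))))) i)
          (Pj.app (Pj.inl Pj.inr) i))
        (dadd_FD57 (Pj.app (Pj.inl (Pj.inl Pj.inr)) i) (Pj.app (Pj.inl Pj.inr) i)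
          (Pj.app (Pj.inl (Pj.inl (Pj.inl (Pj.inl Pj.inr)))) i.succ) (El.var _))))))))))))

private lemma cons_57 {e : ∀ (M : Type), (α → M) → M} {x : ∀ (M : Type), (α → M) → (Fin (K + 1) → M)}
    (he : El α e) (hx : Pj α _ x) :
    Pj α (Fin (K + 1)) (fun M v => (Fin.cons (e M v) (fun i : Fin K => x M v i.castSucc) : Fin (K + 1) → M)) := by
  obtain ⟨a, ha⟩ := he
  obtain ⟨g, hg⟩ := hx
  refine ⟨Fin.cons a (fun i : Fin K => g i.castSucc), fun M v => ?_⟩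
  beta_reduce
  rw [ha, hg]
  funext i
  refine Fin.cases ?_ (fun j => ?_) i
  · rfl
  · rfl

private lemma tshift_FD57 {x z : ∀ (M : Type), (α → M) → (Fin (K + 1) → M)} (hx : Pj α _ x) (hz : Pj α _ z) :
    FD DSym (dar w) α (fun M R v => tshift R (x M v) (z M v)) := by
  unfold tshift
  exact FD.ex1 (FD.and (dzero_FD57 (El.var _)) (FD.and (FD.eq (Pj.app (Pj.inl hx) (Fin.last K)) (El.var _))
    (eqT_FD57 (Pj.inl hz) (cons_57 (El.var _) (Pj.inl hx)))))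

private lemma pair_57 {β γ : Type} (b : β) :
    Pj (α ⊕ (β × γ)) γ (fun _ v => (fun c => v (Sum.inr (b, c)))) := ⟨fun c => Sum.inr (b, c), fun _ _ => rfl⟩

private lemma tmul_FD57 {x y z : ∀ (M : Type), (α → M) → (Fin (K + 1) → M)} (hx : Pj α _ x)
    (hy : Pj α _ y) (hz : Pj α _ z) :
    FD DSym (dar w) α (fun M R v => tmul R (x M v) (y M v) (z M v)) := by
  unfold tmul
  refine ex2_57 (ex2_57 (ex2_57 (FD.and (tzero_FD57 ?_) (FD.and (eqT_FD57 ?_ ?_) (FD.all_fin (fun i => FD.and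
    (tshift_FD57 ?_ ?_) (FD.and (tsmul_FD57 ?_ ?_ ?_) (tadd_FD57 ?_ ?_ ?_))))))))
  · exact Pj.inl (Pj.inl (pair_57 _))
  · exact Pj.inl (Pj.inl (pair_57 _))
  · exact Pj.inl (Pj.inl (Pj.inl hz))
  · exact Pj.inl (Pj.inl (pair_57 _))
  · exact Pj.inl (pair_57 _)
  · exact Pj.app (Pj.inl (Pj.inl (Pj.inl hy))) i
  · exact Pj.inl (Pj.inl (Pj.inl hx))
  · exact pair_57 _
  · exact Pj.inl (pair_57 _)
  · exact pair_57 _
  · exact Pj.inl (Pj.inl (pair_57 _))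

private lemma tname_FD57 {x : ∀ (M : Type), (α → M) → (Fin (K + 1) → M)} (hx : Pj α _ x) :
    FD DSym (dar w) α (fun M R v => tname R (x M v)) := by
  unfold tname
  refine FD.ex (FD.and (dnm_FD57 Pj.inr) (FD.all_fin (fun i => FD.or ?_ (FD.and (FD.const _)
    (dzero_FD57 (Pj.app (Pj.inl hx) i))))))
  by_cases h : (i : ℕ) < w
  · refine FD.congr (FD.eq (Pj.app (Pj.inl hx) i) (Pj.app Pj.inr ⟨i, h⟩)) (fun M R v => ?_)
    exact ⟨fun h1 => h1.2, fun h1 => ⟨h, h1⟩⟩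
  · refine FD.congr (FD.const False) (fun M R v => ?_)
    exact ⟨fun h1 => h h1.1, fun h1 => h1.elim⟩

end

theorem tupI_FD (K : ℕ) (s : ASym Unit) :
    FD DSym (dar w) (Fin (aar (fun _ : Unit => 1) K s)) (fun _ I v => tupI K I s v) := by
  cases s with
  | lt => exact dlt_FD57 (El.var _) (El.var _)
  | add => exact tadd_FD57 ⟨_, fun _ _ => rfl⟩ ⟨_, fun _ _ => rfl⟩ ⟨_, fun _ _ => rfl⟩
  | mul => exact tmul_FD57 ⟨_, fun _ _ => rfl⟩ ⟨_, fun _ _ => rfl⟩ ⟨_, fun _ _ => rfl⟩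
  | so i => exact tname_FD57 ⟨_, fun _ _ => rfl⟩

theorem dax_FD : FD DSym (dar w) Empty (fun _ I _ => DAx I) := by
  have h1 : FD DSym (dar w) Empty (fun M R _ => ∀ x : M, ¬ dlt R x x) :=
    FD.all1 (FD.not (dlt_FD57 (El.var _) (El.var _)))
  have h2 : FD DSym (dar w) Empty (fun M R _ => ∀ x y z : M, dlt R x y → dlt R y z → dlt R x z) :=
    FD.all1 (FD.all1 (FD.all1 (FD.imp (dlt_FD57 (El.var _) (El.var _))
      (FD.imp (dlt_FD57 (El.var _) (El.var _)) (dlt_FD57 (El.var _) (El.var _))))))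
  have h3 : FD DSym (dar w) Empty (fun M R _ => ∀ x y : M, dlt R x y ∨ x = y ∨ dlt R y x) :=
    FD.all1 (FD.all1 (FD.or (dlt_FD57 (El.var _) (El.var _))
      (FD.or (FD.eq (El.var _) (El.var _)) (dlt_FD57 (El.var _) (El.var _)))))
  have h4 : FD DSym (dar w) Empty (fun M R _ => ∀ x y z t : M, dzero R y →
      (dadd R x y z t ↔ z = x ∧ dzero R t)) :=
    FD.all1 (FD.all1 (FD.all1 (FD.all1 (FD.imp (dzero_FD57 (El.var _))
      (FD.iff (dadd_FD57 (El.var _) (El.var _) (El.var _) (El.var _))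
        (FD.and (FD.eq (El.var _) (El.var _)) (dzero_FD57 (El.var _))))))))
  have h5 : FD DSym (dar w) Empty (fun M R _ => ∀ x y y' z t : M, dsuc R y y' → (dadd R x y' z t ↔
      (∃ z', dadd R x y z' t ∧ dsuc R z' z) ∨
        (dzero R z ∧ ∃ z' t', dadd R x y z' t' ∧ dmax R z' ∧ dsuc R t' t))) :=
    FD.all1 (FD.all1 (FD.all1 (FD.all1 (FD.all1 (FD.imp (dsuc_FD57 (El.var _) (El.var _))
      (FD.iff (dadd_FD57 (El.var _) (El.var _) (El.var _) (El.var _))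
        (FD.or (FD.ex1 (FD.and (dadd_FD57 (El.var _) (El.var _) (El.var _) (El.var _))
          (dsuc_FD57 (El.var _) (El.var _))))
        (FD.and (dzero_FD57 (El.var _)) (FD.ex1 (FD.ex1
          (FD.and (dadd_FD57 (El.var _) (El.var _) (El.var _) (El.var _))
            (FD.and (dmax_FD57 (El.var _)) (dsuc_FD57 (El.var _) (El.var _))))))))))))))
  have h6 : FD DSym (dar w) Empty (fun M R _ => ∀ x y z t : M, dzero R y →
      (dmul R x y z t ↔ dzero R z ∧ dzero R t)) :=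
    FD.all1 (FD.all1 (FD.all1 (FD.all1 (FD.imp (dzero_FD57 (El.var _))
      (FD.iff (dmul_FD57 (El.var _) (El.var _) (El.var _) (El.var _))
        (FD.and (dzero_FD57 (El.var _)) (dzero_FD57 (El.var _))))))))
  have h7 : FD DSym (dar w) Empty (fun M R _ => ∀ x y y' z t : M, dsuc R y y' → (dmul R x y' z t ↔
      ∃ z' t' e o, dmul R x y z' t' ∧ dadd R z' x z e ∧ dzero R o ∧ dadd R t' e t o)) :=
    FD.all1 (FD.all1 (FD.all1 (FD.all1 (FD.all1 (FD.imp (dsuc_FD57 (El.var _) (El.var _))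
      (FD.iff (dmul_FD57 (El.var _) (El.var _) (El.var _) (El.var _))
        (FD.ex1 (FD.ex1 (FD.ex1 (FD.ex1 (FD.and (dmul_FD57 (El.var _) (El.var _) (El.var _) (El.var _))
          (FD.and (dadd_FD57 (El.var _) (El.var _) (El.var _) (El.var _))
            (FD.and (dzero_FD57 (El.var _))
              (dadd_FD57 (El.var _) (El.var _) (El.var _) (El.var _)))))))))))))))
  refine (h1.and (h2.and (h3.and (h4.and (h5.and (h6.and h7)))))).congr (fun M R v => ?_)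
  constructor
  · rintro ⟨a1, a2, a3, a4, a5, a6, a7⟩
    exact ⟨a1, a2, a3, a4, a5, a6, a7⟩
  · rintro ⟨a1, a2, a3, a4, a5, a6, a7⟩
    exact ⟨a1, a2, a3, a4, a5, a6, a7⟩

end Pool.Agent.Helper20.EX
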