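import Pool.Agent.Helper20.EX.TupAdd

/-!
# Products of tuples

Block EX-C2.  `tshift`: `m * col x = col z`.  `tmul`: with `Y j = ∑_{i ≥ j} y i m ^ (i - j)` the
tuples satisfy `col (v j) = Y j * col x`; for right to left `Y j * col x ≤ col y * col x = col z < m ^ (K + 1)`,
so the tuples exist (`exists_col`); also `y j * col x ≤ col z` if `y j` is not `0`.  `tname`: the
tuple of the number of the name.
-/

set_option autoImplicit false

namespace Pool.Agent.Helper20.EX

open FirstOrder FirstOrder.Language Pool.Agent.Helper20.Spectra TupSys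

variable {w K m : ℕ} {I : Interp DSym (dar w) (Fin m)}

/-- the number of a name -/
def nval (u : Fin w → Fin m) : ℕ := (finFunctionFinEquiv u : Fin (m ^ w))

private theorem tzero_iff63 (h : DStd I) (x : Fin (K + 1) → Fin m) : tzero I x ↔ col x = 0 := by
  constructor
  · intro hx
    rw [col_eq_sum]
    refine Finset.sum_eq_zero fun i _ => ?_
    rw [(dzero_iff h (x i)).1 (hx i), zero_mul]
  · intro hx i
    rw [dzero_iff h, ← dig_col x i, hx, dig_zero]

private theorem col_cons63 (o : Fin m) (ho : (o : ℕ) = 0) (x : Fin (K + 1) → Fin m)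
    (hx : x (Fin.last K) = o) :
    col (Fin.cons o (fun i : Fin K => x i.castSucc) : Fin (K + 1) → Fin m) = m * col x := by
  rw [col_eq_sum, col_eq_sum, Fin.sum_univ_succ, Fin.sum_univ_castSucc, hx, ho]
  simp only [Fin.cons_zero, Fin.cons_succ, ho, zero_mul, zero_add, add_zero, Fin.val_succ,
    Fin.val_castSucc]
  rw [Finset.mul_sum]
  refine Finset.sum_congr rfl fun i _ => ?_
  rw [pow_succ]
  ring

theorem tshift_iff (h : DStd I) (x z : Fin (K + 1) → Fin m) :
    tshift I x z ↔ m * col x = col z := by
  constructor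
  · rintro ⟨o, ho, hx, rfl⟩
    exact (col_cons63 o ((dzero_iff h o).1 ho) x hx).symm
  · intro hxz
    have hm : 0 < m := dig_lt_of_col x
    have h1 : (x (Fin.last K) : ℕ) = 0 := by
      have h2 := col_lt z
      have h3 : (x (Fin.last K) : ℕ) * m ^ K ≤ col x := by
        rw [col_eq_sum, Fin.sum_univ_castSucc]
        exact Nat.le_add_left _ _
      by_contra hne
      have h4 : 1 * m ^ K ≤ (x (Fin.last K) : ℕ) * m ^ K :=
        Nat.mul_le_mul_right _ (Nat.pos_of_ne_zero hne)
      have h5 : m * m ^ K ≤ m * col x := Nat.mul_le_mul_left m (by omega)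
      rw [hxz, ← pow_succ'] at h5
      omega
    refine ⟨x (Fin.last K), (dzero_iff h _).2 h1, rfl, ?_⟩
    apply col_inj
    rw [col_cons63 _ h1 x rfl, hxz]

theorem tmul_iff (h : DStd I) (x y z : Fin (K + 1) → Fin m) :
    tmul I x y z ↔ col x * col y = col z := by
  have hm : 0 < m := dig_lt_of_col x
  constructor
  · rintro ⟨v, s, r, hv, rfl, hi⟩
    have key : ∀ j : ℕ, ∀ hj : j ≤ K + 1,
        col x * (∑ i ∈ (Finset.univ : Finset (Fin (K + 1))).filter (fun i : Fin (K + 1) => (i : ℕ) < j),
          (y i : ℕ) * m ^ (i : ℕ)) + m ^ j * col (v ⟨j, by omega⟩) = col (v 0) := by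
      intro j
      induction j with
      | zero =>
        intro _
        have e : (Finset.univ : Finset (Fin (K + 1))).filter (fun i : Fin (K + 1) => (i : ℕ) < 0) = ∅ := by
          rw [Finset.filter_eq_empty_iff]
          intro i _
          omega
        rw [e, Finset.sum_empty, mul_zero, zero_add, pow_zero, one_mul]
        rfl
      | succ j ih =>
        intro hj
        have ih' := ih (by omega)
        obtain ⟨h1, h2, h3⟩ := hi ⟨j, by omega⟩
        rw [tshift_iff h] at h1
        rw [tsmul_iff h] at h2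
        rw [tadd_iff h] at h3
        have e : (Finset.univ : Finset (Fin (K + 1))).filter (fun i : Fin (K + 1) => (i : ℕ) < j + 1) =
            insert ⟨j, by omega⟩ ((Finset.univ : Finset (Fin (K + 1))).filter (fun i : Fin (K + 1) => (i : ℕ) < j)) := by
          ext i
          simp only [Finset.mem_filter, Finset.mem_univ, true_and, Finset.mem_insert, Fin.ext_iff]
          omega
        rw [e, Finset.sum_insert (by simp)]
        have h4 : col (v ⟨j, by omega⟩) = m * col (v ⟨j + 1, by omega⟩) + (y ⟨j, by omega⟩ : ℕ) * col x := by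
          have : col (v (Fin.castSucc ⟨j, by omega⟩)) =
              m * col (v (Fin.succ ⟨j, by omega⟩)) + (y ⟨j, by omega⟩ : ℕ) * col x := by
            rw [h1, h2, h3]
          exact this
        rw [h4] at ih'
        rw [← ih', pow_succ]
        ring
    have h1 := key (K + 1) le_rfl
    have e : (Finset.univ : Finset (Fin (K + 1))).filter (fun i : Fin (K + 1) => (i : ℕ) < K + 1) = Finset.univ := by
      rw [Finset.filter_eq_self]
      intro i _
      exact i.is_lt
    rw [e, ← col_eq_sum] at h1
    have h2 : col (v ⟨K + 1, by omega⟩) = 0 := (tzero_iff63 h _).1 hv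
    rw [h2, mul_zero, add_zero] at h1
    exact h1
  · intro hxy
    have hz := col_lt z
    have hb : ∀ N, N ≤ col y → N * col x < m ^ (K + 1) := by
      intro N hN
      refine lt_of_le_of_lt ?_ hz
      rw [← hxy, mul_comm (col x)]
      exact Nat.mul_le_mul_right _ hN
    have hq : ∀ j : ℕ, col y / m ^ j ≤ col y := fun j => Nat.div_le_self _ _
    have hrec : ∀ j : Fin (K + 1), col y / m ^ (j : ℕ) = m * (col y / m ^ ((j : ℕ) + 1)) + (y j : ℕ) := by
      intro j
      have h1 : (y j : ℕ) = col y / m ^ (j : ℕ) % m := (dig_col y j).symm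
      rw [h1, pow_succ, ← Nat.div_div_eq_div_mul, Nat.div_add_mod]
    have hs : ∀ j : Fin (K + 1), m * (col y / m ^ ((j : ℕ) + 1)) ≤ col y := by
      intro j
      have h1 := hrec j
      have h2 := hq j
      omega
    have hr : ∀ j : Fin (K + 1), (y j : ℕ) ≤ col y := by
      intro j
      have h1 := hrec j
      have h2 := hq j
      omega
    refine ⟨fun j => tup (col y / m ^ (j : ℕ) * col x) (hb _ (hq _)),
      fun j => tup (m * (col y / m ^ ((j : ℕ) + 1)) * col x) (hb _ (hs j)),
      fun j => tup ((y j : ℕ) * col x) (hb _ (hr j)), ?_, ?_, ?_⟩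
    · rw [tzero_iff63 h, col_tup, Fin.val_last, Nat.div_eq_of_lt (col_lt y), zero_mul]
    · apply col_inj
      rw [col_tup, ← hxy]
      simp only [Fin.val_zero, pow_zero, Nat.div_one]
      exact mul_comm _ _
    · intro j
      refine ⟨?_, ?_, ?_⟩
      · rw [tshift_iff h, col_tup, col_tup, Fin.val_succ]
        ring
      · rw [tsmul_iff h, col_tup]
      · rw [tadd_iff h, col_tup, col_tup, col_tup, Fin.val_castSucc, hrec j]
        ring

private theorem nval_digit63 (u : Fin w → Fin m) (i : Fin w) : nval u / m ^ (i : ℕ) % m = u i := by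
  have h1 := congrFun (finFunctionFinEquiv.symm_apply_apply u) i
  exact congrArg Fin.val h1

theorem tname_iff (h : DStd I) (hw : w ≤ K + 1) (x : Fin (K + 1) → Fin m) :
    tname I x ↔ ∃ u : Fin w → Fin m, dnm I u ∧ nval u = col x := by
  have hm : 0 < m := dig_lt_of_col x
  constructor
  · rintro ⟨u, hu, hx⟩
    refine ⟨u, hu, ?_⟩
    have hlt : nval u < m ^ (K + 1) :=
      lt_of_lt_of_le (Fin.is_lt _) (Nat.pow_le_pow_right hm hw)
    have h1 : tup (nval u) hlt = x := by
      funext i
      apply Fin.ext
      rw [tup_apply]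
      change nval u / m ^ (i : ℕ) % m = _
      rcases hx i with ⟨hi, hxi⟩ | ⟨hi, hxi⟩
      · rw [hxi]
        exact nval_digit63 u ⟨i, hi⟩
      · rw [(dzero_iff h _).1 hxi]
        have h2 : nval u < m ^ (i : ℕ) := lt_of_lt_of_le (Fin.is_lt _) (Nat.pow_le_pow_right hm hi)
        rw [Nat.div_eq_of_lt h2, Nat.zero_mod]
    rw [← h1, col_tup]
  · rintro ⟨u, hu, hx⟩
    refine ⟨u, hu, fun i => ?_⟩
    have h1 : (x i : ℕ) = nval u / m ^ (i : ℕ) % m := by
      rw [hx]
      exact (dig_col x i).symm
    rcases Nat.lt_or_ge (i : ℕ) w with hi | hi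
    · left
      refine ⟨hi, Fin.ext ?_⟩
      rw [h1]
      exact nval_digit63 u ⟨i, hi⟩
    · right
      refine ⟨hi, (dzero_iff h _).2 ?_⟩
      have h2 : nval u < m ^ (i : ℕ) := lt_of_lt_of_le (Fin.is_lt _) (Nat.pow_le_pow_right hm hi)
      rw [h1, Nat.div_eq_of_lt h2, Nat.zero_mod]

/-- the arithmetic of tuples is standard -/
theorem tupI_std (h : DStd I) : Std (tupI K I) := by
  have hf : ∀ (t : Fin 3 → Fin (K + 1) → Fin m) (i : Fin 3) (j : Fin (K + 1)),
      flat t (finProdFinEquiv (i, j)) = t i j := by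
    intro t i j
    unfold flat
    rw [Equiv.symm_apply_apply]
  refine ⟨fun x y => h.lt x y, fun x y z => ?_, fun x y z => ?_⟩
  · have e : addR (tupI K I) x y z ↔ tadd I x y z := by
      unfold addR tupI
      simp only [hf]
      exact Iff.rfl
    rw [e, tadd_iff h]
  · have e : mulR (tupI K I) x y z ↔ tmul I x y z := by
      unfold mulR tupI
      simp only [hf]
      exact Iff.rfl
    rw [e, tmul_iff h]

end Pool.Agent.Helper20.EX
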