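import Pool.Agent.Helper20.EX.Subst
import Pool.Agent.Helper20.EX.TupFD
import Pool.Agent.Helper20.EX.TupMul

/-!
# The condition on the digits and the names

Block EX-E.  `SizeOk A w m W`: for some `s ≤ m ^ w` the set `W` is `{0, …, s - 1}` (up to `m ^ w`) and
`m + m ^ 4 + s ∈ A`.  It is a bounded formula (`RudX`) in `m` with one second-order variable of
arity `1` (`RudX.mem`, `RudX.bex`, …, the tools of `Pool/Agent/Helper20/Spectra/RudTools.lean`).  By `RudX.main`
(with `c = 2`) there are `K ≥ max K0 (w, 2)` and a definable `Q`, applied to the tuple `(0, 1, 0, …, 0)` of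
the number `m` (definable: `dzero`, `dsuc`; `m ≥ 2`); `fd_subst` with `tupI_FD`, `tupI_std`, `tname_iff`.
-/

set_option autoImplicit false

namespace Pool.Agent.Helper20.EX

open FirstOrder FirstOrder.Language Pool.Agent.Helper20.Spectra TupSys

/-- the condition on the number `m` of digits and the set `W` of the numbers of the names -/
def SizeOk (A : Set ℕ) (w m : ℕ) (W : ℕ → Prop) : Prop :=
  ∃ s, s ≤ m ^ w ∧ (∀ t, t ≤ m ^ w → (W t ↔ t < s)) ∧ m + m ^ 4 + s ∈ A

/-- the condition as a bounded arithmetical condition in the number `m` -/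
private def sizeP (A : Set ℕ) (w : ℕ) (X : SOA (fun _ : Unit => 1)) (v : Fin 1 → ℕ) : Prop :=
  ∃ s, s ≤ v 0 ^ w ∧ ((∀ t, t ≤ v 0 ^ w → (X () (fun _ => t) ↔ t < s)) ∧ v 0 + v 0 ^ 4 + s ∈ A)

private lemma sizeP_rud {A : Set ℕ} (hA : IsRudimentary A) (w : ℕ) :
    RudX (fun _ : Unit => 1) 1 (sizeP A w) := by
  refine RudX.ex (t := fun v => v 0 ^ w) (P := fun X v s =>
    (∀ t, t ≤ v 0 ^ w → (X () (fun _ => t) ↔ t < s)) ∧ v 0 + v 0 ^ 4 + s ∈ A)
    ((IsPoly.var 0).pow w) (RudX.and' ?_ ?_)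
  · refine RudX.all (t := fun u => u 1 ^ w) (P := fun X u t => (X () (fun _ => t) ↔ t < u 0))
      ((IsPoly.var 1).pow w) (RudX.iff ?_ ?_)
    · exact RudX.so' (a := fun _ : Unit => 1) () (t := fun _ u => u 0) (fun _ => IsPoly.var 0)
    · exact RudX.lt (IsPoly.var 0) (IsPoly.var 1)
  · exact RudX.mem hA (((IsPoly.var 1).add ((IsPoly.var 1).pow 4)).add (IsPoly.var 0))

theorem exists_sizeOk {A : Set ℕ} (hA : IsRudimentary A) (w : ℕ) :
    ∃ P : ∀ (M : Type), Interp DSym (dar w) M → (Empty → M) → Prop, FD DSym (dar w) Empty P ∧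
      ∀ m, 2 ≤ m → ∀ I : Interp DSym (dar w) (Fin m), DStd I → ∀ v : Empty → Fin m,
        (P (Fin m) I v ↔ SizeOk A w m (fun t => ∃ u : Fin w → Fin m, dnm I u ∧ nval u = t)) := by
  obtain ⟨K0, h0⟩ := (sizeP_rud hA w).main 2
  obtain ⟨K, hK0, hK1, hKw⟩ : ∃ K, K0 ≤ K ∧ 1 ≤ K ∧ w ≤ K :=
    ⟨max K0 (max 1 w), le_max_left _ _, (le_max_left _ _).trans (le_max_right _ _),
      (le_max_right _ _).trans (le_max_right _ _)⟩
  obtain ⟨Q, hQ, hQ'⟩ := h0 K hK0
  let S : ∀ (M : Type), Interp (ASym Unit) (aar (fun _ : Unit => 1) K) M → (Empty → M) → Prop :=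
    fun M R _ => ∃ x : Fin (K + 1) → M, sizeT R x ∧ Q M R (fun _ => x)
  have hS : FD (ASym Unit) (aar (fun _ : Unit => 1) K) Empty S := by
    refine FD.ex (FD.and (sizeT_FD Pj.inr) (hQ.app ?_))
    intro i
    exact Pj.inr
  refine ⟨fun M I v => S M (fun s => tupI K I s) v, fd_subst hS (ρ := fun s _ I v => tupI K I s v)
    (tupI_FD K), ?_⟩
  intro m hm I hI v
  have hR : Std (tupI K I) := tupI_std hI
  let X : SOA (fun _ : Unit => 1) := fun _ y => ∃ u : Fin w → Fin m, dnm I u ∧ nval u = y 0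
  have hX : ∀ (i : Unit) (y : Fin 1 → Fin (K + 1) → Fin m),
      soR (tupI K I) i y ↔ X i (fun j => col (y j)) := by
    intro i y
    have h1 := tname_iff (K := K) hI (by omega) (y 0)
    have h2 : (fun j => flat y (finProdFinEquiv ((0 : Fin 1), j))) = y 0 := by
      funext j
      unfold flat
      rw [Equiv.symm_apply_apply]
    have h3 : soR (tupI K I) i y ↔
        tname I (K := K) (fun j => flat y (finProdFinEquiv ((0 : Fin 1), j))) := Iff.rfl
    rw [h3, h2, h1]
  have hmm : m < m ^ 2 := by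
    calc m = m ^ 1 := (pow_one m).symm
      _ < m ^ 2 := Nat.pow_lt_pow_right (by omega) (by omega)
  have hmK : m < m ^ (K + 1) := by
    calc m = m ^ 1 := (pow_one m).symm
      _ < m ^ (K + 1) := Nat.pow_lt_pow_right (by omega) (by omega)
  have key : ∀ x : Fin (K + 1) → Fin m, col x = m → (Q (Fin m) (tupI K I) (fun _ => x) ↔
      SizeOk A w m (fun t => ∃ u : Fin w → Fin m, dnm I u ∧ nval u = t)) := by
    intro x hx
    rw [hQ' m hm (tupI K I) hR X hX (fun _ => x) (fun _ => by rw [hx]; exact hmm)]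
    simp only [hx]
    exact Iff.rfl
  constructor
  · rintro ⟨x, h1, h2⟩
    have hx : col x = m := (sizeT_iff hK1 hm hR x).1 h1
    exact (key x hx).1 h2
  · intro h
    obtain ⟨x, hx⟩ := exists_col (K := K) (m := m) hmK
    exact ⟨x, (sizeT_iff hK1 hm hR x).2 hx, (key x hx).2 h⟩

end Pool.Agent.Helper20.EX
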