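import Pool.Agent.Helper20.EX.Un
import Pool.Agent.Helper20.EX.DigAx
import Pool.Agent.Helper20.EX.Sent

/-!
# Completeness

Block EX-G2.  For `m ≥ 2` and `s ≤ m ^ 7` let `V = Fin m ⊕ (Fin 4 → Fin m) ⊕ Fin s`.  On digits all
functions are the identity.  On `t : Fin 4 → Fin m`: the coordinates `0, …, 3` are the digits `t 0, …, t 3`,
the coordinates `4, 5, 6` the digit `t 0`; function `7` is `t`; function `8` is `t` if `t 0 < t 1`, else the
digit `t 0`; `9`: `t` if `t 0 + t 1 = t 2 + m t 3`, `10`: `t` if `t 0 * t 1 = t 2 + m t 3`, else the digit `t 0`.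
On `j < s`: coordinates `0, …, 6` are the digits of `j` (`finFunctionFinEquiv.symm`), the functions `7, …, 10`
the digit `0`.  Then `dgX` is isomorphic to the standard digit arithmetic with the names `j < s`
(`nval u = j`), and `std_dax`, `hPA`, `FD.transport` give the conditions.
-/

set_option autoImplicit false

namespace Pool.Agent.Helper20.EX

open FirstOrder FirstOrder.Language Pool.Agent.Helper20.Spectra Pool.Agent.Helper20.OP TupSys

section Comp62

variable {m s : ℕ}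

private abbrev V62 (m s : ℕ) : Type := Fin m ⊕ ((Fin 4 → Fin m) ⊕ Fin s)

private def dg62 (hs : s ≤ m ^ 7) (j : Fin s) : Fin 7 → Fin m :=
  finFunctionFinEquiv.symm ⟨j, lt_of_lt_of_le j.isLt hs⟩

private lemma nval_dg62 (hs : s ≤ m ^ 7) (j : Fin s) : nval (dg62 hs j) = j := by
  unfold nval dg62
  rw [Equiv.apply_symm_apply]

private lemma dg_inj62 (hs : s ≤ m ^ 7) {j j' : Fin s} (h : dg62 hs j = dg62 hs j') : j = j' := by
  apply Fin.ext
  rw [← nval_dg62 hs j, ← nval_dg62 hs j', h]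

private def cT62 (t : Fin 4 → Fin m) (r : Fin 11) : V62 m s :=
  if h : (r : ℕ) < 4 then Sum.inl (t ⟨r, h⟩)
  else if (r : ℕ) < 7 then Sum.inl (t 0)
  else if (r : ℕ) = 7 then Sum.inr (Sum.inl t)
  else if (r : ℕ) = 8 then (if t 0 < t 1 then Sum.inr (Sum.inl t) else Sum.inl (t 0))
  else if (r : ℕ) = 9 then
    (if (t 0 : ℕ) + t 1 = t 2 + m * t 3 then Sum.inr (Sum.inl t) else Sum.inl (t 0))
  else (if (t 0 : ℕ) * t 1 = t 2 + m * t 3 then Sum.inr (Sum.inl t) else Sum.inl (t 0))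

private def cU62 (hm : 0 < m) (hs : s ≤ m ^ 7) (j : Fin s) (r : Fin 11) : V62 m s :=
  if h : (r : ℕ) < 7 then Sum.inl (dg62 hs j ⟨r, h⟩) else Sum.inl ⟨0, hm⟩

private def f62 (hm : 0 < m) (hs : s ≤ m ^ 7) (r : Fin 11) : V62 m s → V62 m s := fun x =>
  match x with
  | Sum.inl d => Sum.inl d
  | Sum.inr (Sum.inl t) => cT62 t r
  | Sum.inr (Sum.inr j) => cU62 hm hs j r

variable (hm : 0 < m) (hs : s ≤ m ^ 7)

private lemma isX62 (x : V62 m s) : isX _ (funStr (f62 hm hs)) x ↔ ∃ d, x = Sum.inl d := by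
  unfold isX funStr
  rcases x with d | t | j
  · exact ⟨fun _ => ⟨d, rfl⟩, fun _ => rfl⟩
  · constructor
    · intro h
      have h1 : cT62 (s := s) t 0 = Sum.inr (Sum.inl t) := h
      unfold cT62 at h1
      rw [dif_pos (by decide)] at h1
      cases h1
    · rintro ⟨d, h⟩
      cases h
  · constructor
    · intro h
      have h1 : cU62 hm hs j 0 = Sum.inr (Sum.inr j) := h
      unfold cU62 at h1
      rw [dif_pos (by decide)] at h1
      cases h1
    · rintro ⟨d, h⟩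
      cases h

private lemma isT62 (x : V62 m s) : isT _ (funStr (f62 hm hs)) x ↔ ∃ t, x = Sum.inr (Sum.inl t) := by
  unfold isT
  have hX := isX62 hm hs x
  unfold isX at hX
  rw [hX]
  unfold funStr
  rcases x with d | t | j
  · constructor
    · rintro ⟨h, _⟩
      exact absurd ⟨d, rfl⟩ h
    · rintro ⟨t, h⟩
      cases h
  · constructor
    · intro _
      exact ⟨t, rfl⟩
    · intro _
      refine ⟨?_, ?_⟩
      · rintro ⟨d, h⟩
        cases h
      · show cT62 (s := s) t 7 = Sum.inr (Sum.inl t)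
        unfold cT62
        rw [dif_neg (by decide), if_neg (by decide), if_pos (by decide)]
  · constructor
    · rintro ⟨_, h⟩
      have h1 : cU62 hm hs j 7 = Sum.inr (Sum.inr j) := h
      unfold cU62 at h1
      rw [dif_neg (by decide)] at h1
      cases h1
    · rintro ⟨t, h⟩
      cases h

private lemma isU62 (x : V62 m s) : isU _ (funStr (f62 hm hs)) x ↔ ∃ j, x = Sum.inr (Sum.inr j) := by
  have hX := isX62 hm hs x
  have hT := isT62 hm hs x
  unfold isX at hX
  unfold isT at hT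
  unfold isU
  rcases x with d | t | j
  · constructor
    · rintro ⟨h, _⟩
      exact absurd (hX.2 ⟨d, rfl⟩) h
    · rintro ⟨j, h⟩
      cases h
  · constructor
    · rintro ⟨_, h⟩
      exact absurd (hT.2 ⟨t, rfl⟩).2 h
    · rintro ⟨j, h⟩
      cases h
  · constructor
    · intro _
      exact ⟨j, rfl⟩
    · intro _
      have h1 : ¬ funStr (f62 hm hs) 0 (Sum.inr (Sum.inr j)) (Sum.inr (Sum.inr j)) := by
        intro h
        obtain ⟨d, hd⟩ := hX.1 h
        cases hd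
      refine ⟨h1, fun h => ?_⟩
      obtain ⟨t, ht⟩ := hT.1 ⟨h1, h⟩
      cases ht

private lemma co4_62 (t : Fin 4 → Fin m) (v : Fin 4 → V62 m s) :
    Co4 _ (funStr (f62 hm hs)) (Sum.inr (Sum.inl t)) v ↔ ∀ i, v i = Sum.inl (t i) := by
  unfold Co4 funStr
  apply forall_congr'
  intro i
  have h1 : f62 hm hs (Fin.castLE (by omega) i) (Sum.inr (Sum.inl t)) = Sum.inl (t i) := by
    show cT62 (s := s) t (Fin.castLE (by omega) i) = Sum.inl (t i)
    unfold cT62
    rw [dif_pos (show ((Fin.castLE (by omega) i : Fin 11) : ℕ) < 4 from i.isLt)]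
    rfl
  rw [h1]
  exact eq_comm

private lemma coU_62 (j : Fin s) (i : Fin 7) :
    f62 hm hs (Fin.castLE (by omega) i) (Sum.inr (Sum.inr j)) = Sum.inl (dg62 hs j i) := by
  show cU62 hm hs j (Fin.castLE (by omega) i) = Sum.inl (dg62 hs j i)
  unfold cU62
  rw [dif_pos (show ((Fin.castLE (by omega) i : Fin 11) : ℕ) < 7 from i.isLt)]
  rfl

private lemma f8_62 (t : Fin 4 → Fin m) :
    funStr (f62 hm hs) 8 (Sum.inr (Sum.inl t)) (Sum.inr (Sum.inl t)) ↔ t 0 < t 1 := by
  show cT62 (s := s) t 8 = Sum.inr (Sum.inl t) ↔ _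
  unfold cT62
  rw [dif_neg (by decide), if_neg (by decide), if_neg (by decide), if_pos (by decide)]
  split_ifs with h
  · exact ⟨fun _ => h, fun _ => rfl⟩
  · exact ⟨fun h1 => (by cases h1), fun h1 => absurd h1 h⟩

private lemma f9_62 (t : Fin 4 → Fin m) :
    funStr (f62 hm hs) 9 (Sum.inr (Sum.inl t)) (Sum.inr (Sum.inl t)) ↔ (t 0 : ℕ) + t 1 = t 2 + m * t 3 := by
  show cT62 (s := s) t 9 = Sum.inr (Sum.inl t) ↔ _
  unfold cT62
  rw [dif_neg (by decide), if_neg (by decide), if_neg (by decide), if_neg (by decide), if_pos (by decide)]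
  split_ifs with h
  · exact ⟨fun _ => h, fun _ => rfl⟩
  · exact ⟨fun h1 => (by cases h1), fun h1 => absurd h1 h⟩

private lemma f10_62 (t : Fin 4 → Fin m) :
    funStr (f62 hm hs) 10 (Sum.inr (Sum.inl t)) (Sum.inr (Sum.inl t)) ↔ (t 0 : ℕ) * t 1 = t 2 + m * t 3 := by
  show cT62 (s := s) t 10 = Sum.inr (Sum.inl t) ↔ _
  unfold cT62
  rw [dif_neg (by decide), if_neg (by decide), if_neg (by decide), if_neg (by decide), if_neg (by decide)]
  split_ifs with h
  · exact ⟨fun _ => h, fun _ => rfl⟩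
  · exact ⟨fun h1 => (by cases h1), fun h1 => absurd h1 h⟩

/-- the digits -/
private def e62 : {x // isX _ (funStr (f62 hm hs)) x} ≃ Fin m where
  toFun x := match x with
    | ⟨Sum.inl d, _⟩ => d
    | ⟨Sum.inr y, h⟩ => absurd ((isX62 hm hs _).1 h) (by rintro ⟨d, hd⟩; cases hd)
  invFun d := ⟨Sum.inl d, (isX62 hm hs _).2 ⟨d, rfl⟩⟩
  left_inv x := by
    obtain ⟨x, hx⟩ := x
    obtain ⟨d, rfl⟩ := (isX62 hm hs x).1 hx
    rfl
  right_inv d := rfl

private lemma e62_symm (d : Fin m) : ((e62 hm hs).symm d).1 = Sum.inl d := rfl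

private lemma std62 : DStd (fun sy v => dgX _ (funStr (f62 hm hs)) sy ((e62 hm hs).symm ∘ v)) := by
  have key : ∀ (a b c d : Fin m) (Q : Prop) (k : Fin 11)
      (hQ : ∀ t : Fin 4 → Fin m, t 0 = a → t 1 = b → t 2 = c → t 3 = d →
        (funStr (f62 hm hs) k (Sum.inr (Sum.inl t)) (Sum.inr (Sum.inl t)) ↔ Q)) (v : Fin 4 → V62 m s)
      (hv : v 0 = Sum.inl a ∧ v 1 = Sum.inl b ∧ v 2 = Sum.inl c ∧ v 3 = Sum.inl d),
      (∃ o, isT _ (funStr (f62 hm hs)) o ∧ Co4 _ (funStr (f62 hm hs)) o v ∧ funStr (f62 hm hs) k o o) ↔ Q := by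
    intro a b c d Q k hQ v hv
    constructor
    · rintro ⟨o, ho, hco, hk⟩
      obtain ⟨t, rfl⟩ := (isT62 hm hs o).1 ho
      rw [co4_62] at hco
      refine (hQ t ?_ ?_ ?_ ?_).1 hk
      · have := (hco 0).symm.trans hv.1
        exact Sum.inl_injective this
      · have := (hco 1).symm.trans hv.2.1
        exact Sum.inl_injective this
      · have := (hco 2).symm.trans hv.2.2.1
        exact Sum.inl_injective this
      · have := (hco 3).symm.trans hv.2.2.2
        exact Sum.inl_injective this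
    · intro hq
      refine ⟨Sum.inr (Sum.inl ![a, b, c, d]), (isT62 hm hs _).2 ⟨_, rfl⟩, ?_, ?_⟩
      · rw [co4_62]
        intro i
        fin_cases i
        · exact hv.1
        · exact hv.2.1
        · exact hv.2.2.1
        · exact hv.2.2.2
      · exact (hQ _ rfl rfl rfl rfl).2 hq
  constructor
  · intro x y
    refine key x y x x (x < y) 8 (fun t h0 h1 _ _ => ?_) _ ⟨rfl, rfl, rfl, rfl⟩
    rw [f8_62, h0, h1]
  · intro x y z t
    refine key x y z t ((x : ℕ) + y = z + m * t) 9 (fun t' h0 h1 h2 h3 => ?_) _ ⟨rfl, rfl, rfl, rfl⟩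
    rw [f9_62, h0, h1, h2, h3]
  · intro x y z t
    refine key x y z t ((x : ℕ) * y = z + m * t) 10 (fun t' h0 h1 h2 h3 => ?_) _ ⟨rfl, rfl, rfl, rfl⟩
    rw [f10_62, h0, h1, h2, h3]

private lemma nm62 (u : Fin 7 → Fin m) :
    dnm (fun sy v => dgX _ (funStr (f62 hm hs)) sy ((e62 hm hs).symm ∘ v)) u ↔ ∃ j, dg62 hs j = u := by
  constructor
  · rintro ⟨o, ho, hc⟩
    obtain ⟨j, rfl⟩ := (isU62 hm hs o).1 ho
    refine ⟨j, ?_⟩
    funext i
    have h1 : f62 hm hs (Fin.castLE (by omega) i) (Sum.inr (Sum.inr j)) = Sum.inl (u i) := hc i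
    rw [coU_62] at h1
    exact Sum.inl_injective h1
  · rintro ⟨j, rfl⟩
    refine ⟨Sum.inr (Sum.inr j), (isU62 hm hs _).2 ⟨j, rfl⟩, fun i => ?_⟩
    exact coU_62 hm hs j i

private lemma ax62 (hm2 : 2 ≤ m) : UnAx _ (funStr (f62 hm hs)) := by
  constructor
  · intro i o x h
    rw [isX62]
    have h1 : f62 hm hs (Fin.castLE (by omega) i) o = x := h
    rcases o with d | t | j
    · exact ⟨d, h1.symm⟩
    · have h2 : cT62 (s := s) t (Fin.castLE (by omega) i) = x := h1
      unfold cT62 at h2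
      split_ifs at h2 with h3 h4 h5 h6 h7 h8 h9 h10
      · exact ⟨_, h2.symm⟩
      · exact ⟨_, h2.symm⟩
      all_goals
        exfalso
        exact h4 i.isLt
    · rw [coU_62] at h1
      exact ⟨_, h1.symm⟩
  · intro v hv
    choose t ht using fun i => (isX62 hm hs (v i)).1 (hv i)
    refine ⟨Sum.inr (Sum.inl t), ⟨(isT62 hm hs _).2 ⟨t, rfl⟩, (co4_62 hm hs t v).2 ht⟩, ?_⟩
    rintro o' ⟨h1, h2⟩
    obtain ⟨t', rfl⟩ := (isT62 hm hs o').1 h1
    rw [co4_62] at h2
    have : t' = t := by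
      funext i
      exact Sum.inl_injective ((h2 i).symm.trans (ht i))
    rw [this]
  · intro o o' ho ho' h
    obtain ⟨j, rfl⟩ := (isU62 hm hs o).1 ho
    obtain ⟨j', rfl⟩ := (isU62 hm hs o').1 ho'
    have : dg62 hs j = dg62 hs j' := by
      funext i
      have h1 := h i (Sum.inl (dg62 hs j i)) (coU_62 hm hs j i)
      have h2 : f62 hm hs (Fin.castLE (by omega) i) (Sum.inr (Sum.inr j')) = Sum.inl (dg62 hs j i) := h1
      rw [coU_62] at h2
      exact (Sum.inl_injective h2).symm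
    rw [dg_inj62 hs this]
  · refine ⟨Sum.inl ⟨0, hm⟩, Sum.inl ⟨1, hm2⟩, (isX62 hm hs _).2 ⟨_, rfl⟩, (isX62 hm hs _).2 ⟨_, rfl⟩, ?_⟩
    intro h
    have := Sum.inl_injective h
    simp at this

end Comp62

theorem un_comp {A : Set ℕ} {P : ∀ (M : Type), Interp DSym (dar 7) M → (Empty → M) → Prop}
    (hP : FD DSym (dar 7) Empty P)
    (hPA : ∀ m, 2 ≤ m → ∀ I : Interp DSym (dar 7) (Fin m), DStd I → ∀ v : Empty → Fin m,
      (P (Fin m) I v ↔ SizeOk A 7 m (fun t => ∃ u : Fin 7 → Fin m, dnm I u ∧ nval u = t)))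
    {m s : ℕ} (hm : 2 ≤ m) (hs : s ≤ m ^ 7) (hA : m + m ^ 4 + s ∈ A) :
    ∃ (V : Type) (_ : Finite V) (f : Fin 11 → V → V), Nat.card V = m + m ^ 4 + s ∧
      UnOk P V (funStr f) := by
  have hm0 : 0 < m := by omega
  have hstd := std62 hm0 hs
  refine ⟨V62 m s, inferInstance, f62 hm0 hs, ?_, ax62 hm0 hs hm, ?_, ?_⟩
  · rw [Nat.card_sum, Nat.card_sum, Nat.card_fun, Nat.card_eq_fintype_card, Nat.card_eq_fintype_card,
      Nat.card_eq_fintype_card, Fintype.card_fin, Fintype.card_fin, Fintype.card_fin]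
    ring
  · exact ((dax_FD (w := 7)).transport (e62 hm0 hs) _ Empty.elim).2 (std_dax hstd)
  · refine (hP.transport (e62 hm0 hs) _ _).2 ((hPA m hm _ hstd _).2 ⟨s, hs, fun t ht => ?_, hA⟩)
    constructor
    · rintro ⟨u, hu, rfl⟩
      obtain ⟨j, rfl⟩ := (nm62 hm0 hs u).1 hu
      rw [nval_dg62]
      exact j.isLt
    · intro h
      exact ⟨dg62 hs ⟨t, h⟩, (nm62 hm0 hs _).2 ⟨_, rfl⟩, nval_dg62 hs _⟩

end Pool.Agent.Helper20.EX
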