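import Pool.Agent.Helper20.EX.Un
import Pool.Agent.Helper20.EX.DigAx
import Pool.Agent.Helper20.EX.Sent

/-!
# Soundness

Block EX-G1.  Let `m` be the number of digits (`m ≥ 2` by `two`), `e` the isomorphism of `exists_std`.
The set of names `W = {nval u : dnm u}`; the map from the `U`-objects to `Fin 7 → {x // isX x}` (the
coordinates) is injective (`name`), so the number of `U`-objects is the number of names, that is `s`
(`nval` is injective with values `< m ^ 7`, and `W t ↔ t < s`).  The number of `T`-objects is `m ^ 4`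
(`tup`, `co`).  Every object is a digit, a `T`-object or a `U`-object.  The condition `P` is invariant
under isomorphism (`FD.transport`).
-/

set_option autoImplicit false

namespace Pool.Agent.Helper20.EX

open FirstOrder FirstOrder.Language Pool.Agent.Helper20.Spectra Pool.Agent.Helper20.OP TupSys

private theorem nval_inj30 {w m : ℕ} : Function.Injective (nval (w := w) (m := m)) := by
  intro u v h
  have h1 : finFunctionFinEquiv u = finFunctionFinEquiv v := Fin.ext h
  exact finFunctionFinEquiv.injective h1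

private theorem nval_lt30 {w m : ℕ} (u : Fin w → Fin m) : nval u < m ^ w :=
  (finFunctionFinEquiv u : Fin (m ^ w)).isLt

private theorem card_split30 {V : Type} [Finite V] (R : Str 11 V) :
    Nat.card V = Nat.card {x // isX V R x} + (Nat.card {x // isT V R x} + Nat.card {x // isU V R x}) := by
  have h1 : (Set.univ : Set V) = {x | isX V R x} ∪ ({x | isT V R x} ∪ {x | isU V R x}) := by
    ext x
    simp only [Set.mem_univ, Set.mem_union, Set.mem_ofPred_eq, true_iff]
    by_cases h0 : R 0 x x
    · exact Or.inl h0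
    · by_cases h7 : R 7 x x
      · exact Or.inr (Or.inl ⟨h0, h7⟩)
      · exact Or.inr (Or.inr ⟨h0, h7⟩)
  have h2 : Disjoint {x | isX V R x} ({x | isT V R x} ∪ {x | isU V R x}) := by
    rw [Set.disjoint_left]
    intro x hx hx'
    rcases hx' with hx' | hx'
    · exact hx'.1 hx
    · exact hx'.1 hx
  have h3 : Disjoint {x | isT V R x} {x | isU V R x} := by
    rw [Set.disjoint_left]
    intro x hx hx'
    exact hx'.2 hx.2
  rw [← Set.ncard_univ, h1, Set.ncard_union_eq h2 (Set.toFinite _) (Set.toFinite _),
    Set.ncard_union_eq h3 (Set.toFinite _) (Set.toFinite _)]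
  rfl

theorem un_sound {A : Set ℕ} {P : ∀ (M : Type), Interp DSym (dar 7) M → (Empty → M) → Prop}
    (hP : FD DSym (dar 7) Empty P)
    (hPA : ∀ m, 2 ≤ m → ∀ I : Interp DSym (dar 7) (Fin m), DStd I → ∀ v : Empty → Fin m,
      (P (Fin m) I v ↔ SizeOk A 7 m (fun t => ∃ u : Fin 7 → Fin m, dnm I u ∧ nval u = t)))
    {V : Type} [Finite V] (f : Fin 11 → V → V) (h : UnOk P V (funStr f)) : Nat.card V ∈ A := by
  obtain ⟨ax, dax, hp⟩ := h
  obtain ⟨m, hmdef, e, he⟩ : ∃ m, Nat.card {x // isX V (funStr f) x} = m ∧
      ∃ e : {x // isX V (funStr f) x} ≃ Fin m,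
        DStd (fun s v => dgX V (funStr f) s (e.symm ∘ v)) := ⟨_, rfl, exists_std dax⟩
  have hm : 2 ≤ m := by
    obtain ⟨x, y, hx, hy, hxy⟩ := ax.two
    have : Nontrivial {x // isX V (funStr f) x} :=
      ⟨⟨x, hx⟩, ⟨y, hy⟩, fun h => hxy (congrArg Subtype.val h)⟩
    rw [← hmdef]
    exact Finite.one_lt_card
  have hp' := (hP.transport e (dgX V (funStr f)) (fun e => e.elim)).1 hp
  obtain ⟨s, hs, hW, hA⟩ := (hPA m hm _ he _).1 hp'
  -- tuples
  have hT : Nat.card {x // isT V (funStr f) x} = m ^ 4 := by
    let g : {x // isT V (funStr f) x} → (Fin 4 → {x // isX V (funStr f) x}) := fun o i =>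
      ⟨f (Fin.castLE (by omega) i) o.1,
        ax.co (Fin.castLE (by omega) i) o.1 _ rfl⟩
    have hg : Function.Bijective g := by
      constructor
      · intro o o' hoo
        obtain ⟨o'', -, hu⟩ := ax.tup (fun i => (g o i).1) (fun i => (g o i).2)
        have h1 : o.1 = o'' := hu o.1 ⟨o.2, fun i => rfl⟩
        have h2 : o'.1 = o'' := by
          refine hu o'.1 ⟨o'.2, fun i => ?_⟩
          have := congrArg Subtype.val (congrFun hoo i)
          exact this.symm
        exact Subtype.ext (h1.trans h2.symm)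
      · intro v
        obtain ⟨o, ⟨ho, hc⟩, -⟩ := ax.tup (fun i => (v i).1) (fun i => (v i).2)
        refine ⟨⟨o, ho⟩, ?_⟩
        funext i
        exact Subtype.ext (hc i)
    rw [Nat.card_eq_of_bijective g hg, Nat.card_fun, Nat.card_eq_fintype_card (α := Fin 4),
      Fintype.card_fin, hmdef]
  -- names
  let c : {x // isU V (funStr f) x} → (Fin 7 → Fin m) := fun o i =>
    e ⟨f (Fin.castLE (by omega) i) o.1, ax.co i o.1 _ rfl⟩
  have hcval : ∀ o i, (e.symm (c o i)).1 = f (Fin.castLE (by omega) i) o.1 := by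
    intro o i
    simp only [c, Equiv.symm_apply_apply]
  have hcinj : Function.Injective c := by
    intro o o' hoo
    apply Subtype.ext
    refine ax.name o.1 o'.1 o.2 o'.2 (fun i x hx => ?_)
    have h1 : f (Fin.castLE (by omega) i) o.1 = x := hx
    show f (Fin.castLE (by omega) i) o'.1 = x
    rw [← h1, ← hcval o i, ← hcval o' i, hoo]
  have hcnm : ∀ u : Fin 7 → Fin m,
      dnm (fun s v => dgX V (funStr f) s (e.symm ∘ v)) u ↔ ∃ o, c o = u := by
    intro u
    constructor
    · rintro ⟨o, ho, hc⟩
      refine ⟨⟨o, ho⟩, ?_⟩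
      funext i
      apply e.symm.injective
      apply Subtype.ext
      rw [hcval]
      exact hc i
    · rintro ⟨o, rfl⟩
      exact ⟨o.1, o.2, fun i => (hcval o i).symm⟩
  have hU : Nat.card {x // isU V (funStr f) x} = s := by
    have hlt : ∀ o, nval (c o) < s := by
      intro o
      exact (hW _ (nval_lt30 _).le).1 ⟨c o, (hcnm _).2 ⟨o, rfl⟩, rfl⟩
    let g : {x // isU V (funStr f) x} → Fin s := fun o => ⟨nval (c o), hlt o⟩
    have hg : Function.Bijective g := by
      constructor
      · intro o o' hoo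
        have h1 : (g o).val = (g o').val := by rw [hoo]
        exact hcinj (nval_inj30 h1)
      · intro t
        obtain ⟨u, hu, hut⟩ := (hW t (t.isLt.le.trans hs)).2 t.isLt
        obtain ⟨o, rfl⟩ := (hcnm u).1 hu
        exact ⟨o, Fin.ext hut⟩
    rw [Nat.card_eq_of_bijective g hg, Nat.card_eq_fintype_card, Fintype.card_fin]
  have hcard : Nat.card V = m + m ^ 4 + s := by
    rw [card_split30 (funStr f), hT, hU, hmdef]
    ring
  rw [hcard]
  exact hA

end Pool.Agent.Helper20.EX
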