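import Pool.Agent.Helper20.EX.UnDef
import Pool.Agent.Helper20.EX.UnSound
import Pool.Agent.Helper20.EX.UnComp
import Pool.Agent.Helper20.OP.Interp

/-!
# Rudimentary sets are spectra with unary functions

Block EX-G3.  Every `n ≥ 18` is `m + m ^ 4 + s` with `m ≥ 2` and `s ≤ m ^ 7`: the greatest `m` with
`m + m ^ 4 ≤ n` has `n ≤ m + (m + 1) ^ 4 ≤ m + m ^ 4 + m ^ 7`.  The condition: for some `j < 18` in `A` there
are exactly `j` elements (`Def.exactly`), or there are at least `18` elements and `UnOk P`.  Invariance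
of `Def0` under isomorphism: `Def0.iso` in `Pool/Agent/Helper20/OP/Interp.lean`.
-/

set_option autoImplicit false

namespace Pool.Agent.Helper20.EX

open FirstOrder FirstOrder.Language Pool.Agent.Helper20.Spectra Pool.Agent.Helper20.OP TupSys

theorem exists_digits (n : ℕ) (hn : 18 ≤ n) : ∃ m s, 2 ≤ m ∧ s ≤ m ^ 7 ∧ n = m + m ^ 4 + s := by
  obtain ⟨m, hm⟩ : ∃ m, m = Nat.findGreatest (fun m => m + m ^ 4 ≤ n) n := ⟨_, rfl⟩
  have h20 : 2 + 2 ^ 4 ≤ n := by norm_num; omega
  have h1 : m + m ^ 4 ≤ n := by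
    rw [hm]
    exact Nat.findGreatest_spec (P := fun m => m + m ^ 4 ≤ n) (m := 2) (by omega) h20
  have h2 : 2 ≤ m := by
    rw [hm]
    exact Nat.le_findGreatest (P := fun m => m + m ^ 4 ≤ n) (by omega) h20
  have h3 : n < (m + 1) + (m + 1) ^ 4 := by
    by_contra h
    have h' : (m + 1) + (m + 1) ^ 4 ≤ n := not_lt.1 h
    have h4 : m + 1 ≤ n := (Nat.le_add_right _ _).trans h'
    have h5 := Nat.le_findGreatest (P := fun m => m + m ^ 4 ≤ n) h4 h'
    rw [← hm] at h5
    omega
  refine ⟨m, n - (m + m ^ 4), h2, ?_, by omega⟩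
  have h5 : (m + 1) ^ 4 ≤ m ^ 4 + m ^ 7 := by
    obtain ⟨k, rfl⟩ := Nat.exists_eq_add_of_le h2
    have e : (2 + k) ^ 4 + (2 + k) ^ 7 =
        (2 + k + 1) ^ 4 + (63 + 372 * k + 642 * k ^ 2 + 556 * k ^ 3 + 280 * k ^ 4 + 84 * k ^ 5 + 14 * k ^ 6 + k ^ 7) := by
      ring
    omega
  omega

/-- Every rudimentary set of positive integers is the spectrum of a first-order sentence whose only
symbols are 11 unary function symbols. -/
theorem rud_unary {A : Set ℕ} (hA : IsRudimentary A) (h0 : 0 ∉ A) :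
    ∃ P : ∀ V : Type, Str 11 V → Prop, Def0 11 P ∧ ∀ n : ℕ, 1 ≤ n →
      (n ∈ A ↔ ∃ f : Fin 11 → Fin n → Fin n, P (Fin n) (funStr f)) := by
  obtain ⟨P, hP, hPA⟩ := exists_sizeOk hA 7
  have hex : ∀ (V : Type) [Finite V] (j : ℕ), Exactly j (fun _ : V => True) ↔ Nat.card V = j := by
    intro V _ j
    rw [exactly_iff, Nat.card_congr (Equiv.subtypeUnivEquiv (fun _ : V => trivial))]
  have hcond : Def0 11 (fun V R => (∃ j : Fin 18, (j : ℕ) ∈ A ∧ Exactly (j : ℕ) (fun _ : V => True)) ∨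
      ((¬ ∃ j : Fin 18, Exactly (j : ℕ) (fun _ : V => True)) ∧ UnOk P V R)) := by
    have h1 : ∀ j : Fin 18, Def 11 0 (fun V _ _ => Exactly (j : ℕ) (fun _ : V => True)) := fun j =>
      Def.exactly (j : ℕ) (P := fun V _ _ _ => True) (Def.const True)
    exact (Def.ex_fin fun j : Fin 18 => (Def.const ((j : ℕ) ∈ A)).and (h1 j)).or
      ((Def.ex_fin h1).not.and (unOk_def hP))
  refine ⟨_, hcond, fun n hn => ?_⟩
  have hcard : Nat.card (Fin n) = n := by simp
  constructor
  · intro hnA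
    rcases lt_or_ge n 18 with hlt | hge
    · exact ⟨fun _ x => x, Or.inl ⟨⟨n, hlt⟩, hnA, (hex (Fin n) n).2 hcard⟩⟩
    · obtain ⟨m, s, hm, hs, hms⟩ := exists_digits n hge
      obtain ⟨V, _, f, hV, hf⟩ := un_comp hP hPA hm hs (by rw [← hms]; exact hnA)
      have hV' : Nat.card V = n := by rw [hV, hms]
      let e : V ≃ Fin n := (Finite.equivFin V).trans (finCongr hV')
      refine ⟨fun r x => e (f r (e.symm x)), Or.inr ⟨?_, ?_⟩⟩
      · rintro ⟨j, hj⟩
        have h1 := (hex (Fin n) j).1 hj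
        rw [hcard] at h1
        have := j.isLt
        omega
      · have h1 := (Def0.iso (unOk_def hP) e (funStr f)).1 hf
        have h2 : (fun (r : Fin 11) (x y : Fin n) => funStr f r (e.symm x) (e.symm y)) =
            funStr (fun r x => e (f r (e.symm x))) := by
          funext r x y
          apply propext
          show f r (e.symm x) = e.symm y ↔ e (f r (e.symm x)) = y
          exact e.eq_symm_apply
        rw [h2] at h1
        exact h1
  · rintro ⟨f, hf | hf⟩
    · obtain ⟨j, hjA, hj⟩ := hf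
      have h1 := (hex (Fin n) j).1 hj
      rw [hcard] at h1
      rw [h1]
      exact hjA
    · have h1 := un_sound hP hPA f hf.2
      rwa [hcard] at h1

end Pool.Agent.Helper20.EX
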