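import Pool.Agent.Helper20.EX.Rank
import Pool.Agent.Helper29.EX.MonoNe

/-!
# Some spectrum is not the spectrum of a sentence of bounded quantifier rank and bounded arity
-/

set_option autoImplicit false

namespace Pool.Agent.Helper20.EX

open FirstOrder FirstOrder.Language Pool.Agent.Helper20.Spectra Pool.Agent.Helper38.EX
  Pool.Agent.Helper29.TD

theorem BR_of_rankSpectrum {r a : ℕ} {A : Set ℕ} (h : RankSpectrum r a A) : BR r a A := by
  obtain ⟨S, hS, ar, φ, ha, hq, hA⟩ := h
  have h3 : FD S ar Empty (fun M R v => @Formula.Realize _ M (mkS R) _ φ v) :=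
    ⟨φ, fun _ _ _ => Iff.rfl⟩
  refine ⟨S, hS, ar, fun M R v => @Formula.Realize _ M (mkS R) _ φ v, ha,
    ⟨φ, hq, fun _ _ _ => Iff.rfl⟩, ?_⟩
  ext n
  rw [hA n]
  constructor
  · rintro ⟨hn, I, hI⟩
    have hI' : @Formula.Realize _ (Fin n) (mkS I) _ φ (default : Empty → Fin n) := hI
    have e : (Empty.elim : Empty → Fin n) = default := funext (fun a => a.elim)
    exact ⟨hn, Fin n, inferInstance, I, Fintype.card_fin n, by rw [e]; exact hI'⟩
  · rintro ⟨hn, M, hM, R, hc, hP⟩
    let e : M ≃ Fin n := Fintype.equivFinOfCardEq hc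
    have h4 := (h3.transport e R Empty.elim).1 hP
    refine ⟨hn, fun s w => R s (e.symm ∘ w), ?_⟩
    have h5 : (default : Empty → Fin n) = e ∘ Empty.elim := funext (fun a => a.elim)
    show @Formula.Realize _ (Fin n) (mkS (fun s w => R s (e.symm ∘ w))) _ φ default
    rw [h5]
    exact h4

/-- For all `r` and `a`, some spectrum is not the spectrum of a sentence of quantifier rank at most `r` in
relation symbols of arity at most `a`. -/
theorem exists_not_rankSpectrum (r a : ℕ) : ∃ A : Set ℕ, IsSpectrum A ∧ ¬ RankSpectrum r a A := by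
  obtain ⟨A, hA, h⟩ := Pool.Agent.Helper29.EX.exists_not_BR r a
  exact ⟨A, hA, fun hR => h (BR_of_rankSpectrum hR)⟩

end Pool.Agent.Helper20.EX
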