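import Pool.Agent.Helper20.Spectra.RudTools

/-!
# Digit arithmetic

The vocabulary `DSym`: the order of the digits, sums and products of two digits written with two
digits, and a relation `nm` of arity `w` (names).  Sums and products of tuples of digits are
first-order definable.
-/

set_option autoImplicit false

namespace Pool.Agent.Helper20.EX

open FirstOrder FirstOrder.Language Pool.Agent.Helper20.Spectra TupSys

/-- symbols: order, sum, product of two digits, names -/
inductive DSym
  | lt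
  | add
  | mul
  | nm

instance : Finite DSym := by
  apply Finite.of_injective (fun s : DSym => (match s with
    | .lt => 0 | .add => 1 | .mul => 2 | .nm => 3 : Fin 4))
  intro s t h
  cases s <;> cases t <;> simp_all

/-- arities; names are tuples of `w` digits -/
def dar (w : ℕ) : DSym → ℕ
  | .lt => 2
  | .add => 4
  | .mul => 4
  | .nm => w

section Acc

variable {w : ℕ} {M : Type}

def dlt (I : Interp DSym (dar w) M) (x y : M) : Prop := I .lt ![x, y]
/-- `x + y = z + m t` -/
def dadd (I : Interp DSym (dar w) M) (x y z t : M) : Prop := I .add ![x, y, z, t]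
/-- `x y = z + m t` -/
def dmul (I : Interp DSym (dar w) M) (x y z t : M) : Prop := I .mul ![x, y, z, t]
def dnm (I : Interp DSym (dar w) M) (u : Fin w → M) : Prop := I .nm u

/-- the digit `0` -/
def dzero (I : Interp DSym (dar w) M) (x : M) : Prop := ∀ y, ¬ dlt I y x
/-- the greatest digit -/
def dmax (I : Interp DSym (dar w) M) (x : M) : Prop := ∀ y, ¬ dlt I x y
/-- the next digit -/
def dsuc (I : Interp DSym (dar w) M) (x y : M) : Prop :=
  dlt I x y ∧ ∀ z, ¬ (dlt I x z ∧ dlt I z y)

/-- axioms of digit arithmetic -/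
structure DAx (I : Interp DSym (dar w) M) : Prop where
  irrefl : ∀ x : M, ¬ dlt I x x
  trans : ∀ x y z : M, dlt I x y → dlt I y z → dlt I x z
  total : ∀ x y : M, dlt I x y ∨ x = y ∨ dlt I y x
  add0 : ∀ x y z t : M, dzero I y → (dadd I x y z t ↔ z = x ∧ dzero I t)
  add1 : ∀ x y y' z t : M, dsuc I y y' → (dadd I x y' z t ↔
    (∃ z', dadd I x y z' t ∧ dsuc I z' z) ∨
      (dzero I z ∧ ∃ z' t', dadd I x y z' t' ∧ dmax I z' ∧ dsuc I t' t))
  mul0 : ∀ x y z t : M, dzero I y → (dmul I x y z t ↔ dzero I z ∧ dzero I t)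
  mul1 : ∀ x y y' z t : M, dsuc I y y' → (dmul I x y' z t ↔
    ∃ z' t' e o, dmul I x y z' t' ∧ dadd I z' x z e ∧ dzero I o ∧ dadd I t' e t o)

/-- standard digit arithmetic on `Fin m` -/
structure DStd {m : ℕ} (I : Interp DSym (dar w) (Fin m)) : Prop where
  lt : ∀ x y, dlt I x y ↔ x < y
  add : ∀ x y z t, dadd I x y z t ↔ (x : ℕ) + y = z + m * t
  mul : ∀ x y z t, dmul I x y z t ↔ (x : ℕ) * y = z + m * t

variable {K : ℕ}

/-- the tuple of zeros -/
def tzero (I : Interp DSym (dar w) M) (x : Fin (K + 1) → M) : Prop := ∀ i, dzero I (x i)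

/-- `x + y = z` for tuples: carries `c`, `x i + y i = u i + m a i`, `u i + c i = z i + m b i`,
`c (i + 1) = a i + b i` -/
def tadd (I : Interp DSym (dar w) M) (x y z : Fin (K + 1) → M) : Prop :=
  ∃ c : Fin (K + 2) → M, ∃ u a b : Fin (K + 1) → M, ∃ o : M, dzero I o ∧ c 0 = o ∧
    c (Fin.last (K + 1)) = o ∧ ∀ i : Fin (K + 1), dadd I (x i) (y i) (u i) (a i) ∧
      dadd I (u i) (c i.castSucc) (z i) (b i) ∧ dadd I (a i) (b i) (c i.succ) o

/-- `d * x = z` for a digit `d` and tuples `x`, `z`: carries `c`, `d * x i = p i + m q i`,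
`p i + c i = z i + m e i`, `c (i + 1) = q i + e i` -/
def tsmul (I : Interp DSym (dar w) M) (d : M) (x z : Fin (K + 1) → M) : Prop :=
  ∃ c : Fin (K + 2) → M, ∃ p q e : Fin (K + 1) → M, ∃ o : M, dzero I o ∧ c 0 = o ∧
    c (Fin.last (K + 1)) = o ∧ ∀ i : Fin (K + 1), dmul I d (x i) (p i) (q i) ∧
      dadd I (p i) (c i.castSucc) (z i) (e i) ∧ dadd I (q i) (e i) (c i.succ) o

/-- `m * x = z` for tuples -/
def tshift (I : Interp DSym (dar w) M) (x z : Fin (K + 1) → M) : Prop :=
  ∃ o : M, dzero I o ∧ x (Fin.last K) = o ∧ z = Fin.cons o (fun i : Fin K => x i.castSucc)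

/-- `x * y = z` for tuples (Horner's scheme) -/
def tmul (I : Interp DSym (dar w) M) (x y z : Fin (K + 1) → M) : Prop :=
  ∃ v : Fin (K + 2) → Fin (K + 1) → M, ∃ s r : Fin (K + 1) → Fin (K + 1) → M,
    tzero I (v (Fin.last (K + 1))) ∧ v 0 = z ∧ ∀ i : Fin (K + 1),
      tshift I (v i.succ) (s i) ∧ tsmul I (y i) x (r i) ∧ tadd I (s i) (r i) (v i.castSucc)

/-- the number of the name `u` as a tuple with `K + 1` digits is `x` -/
def tname (I : Interp DSym (dar w) M) (x : Fin (K + 1) → M) : Prop :=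
  ∃ u : Fin w → M, dnm I u ∧ ∀ i : Fin (K + 1),
    (∃ h : (i : ℕ) < w, x i = u ⟨i, h⟩) ∨ (w ≤ (i : ℕ) ∧ dzero I (x i))

/-- the interpretation of the arithmetic of tuples with one second-order variable (names) -/
def tupI (K : ℕ) (I : Interp DSym (dar w) M) :
    Interp (ASym Unit) (aar (fun _ : Unit => 1) K) M := fun s => match s with
  | .lt => fun v => dlt I (v (0 : Fin 2)) (v (1 : Fin 2))
  | .add => fun v => tadd I (K := K) (fun j => v (finProdFinEquiv ((0 : Fin 3), j)))
      (fun j => v (finProdFinEquiv ((1 : Fin 3), j)))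
      (fun j => v (finProdFinEquiv ((2 : Fin 3), j)))
  | .mul => fun v => tmul I (K := K) (fun j => v (finProdFinEquiv ((0 : Fin 3), j)))
      (fun j => v (finProdFinEquiv ((1 : Fin 3), j)))
      (fun j => v (finProdFinEquiv ((2 : Fin 3), j)))
  | .so _ => fun v => tname I (K := K) (fun j => v (finProdFinEquiv ((0 : Fin 1), j)))

end Acc

end Pool.Agent.Helper20.EX
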