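import Pool.Agent.Helper20.FS.Defs

/-!
# Classes of graphs: definitions

Graphs are structures `Str 1 V` with an irreflexive symmetric relation (`FS.Kind.graph`).  Forests of
subdivided stars, subdivisions, spectra over a class of graphs.
-/

set_option autoImplicit false

namespace Pool.Agent.Helper20.EX

open FirstOrder FirstOrder.Language Pool.Agent.Helper20.Spectra Pool.Agent.Helper20.OP
  Pool.Agent.Helper20.FS

/-- the steps of the infinite star: a centre `none` and the rays `some (j, 0)`, `some (j, 1)`, ...,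
`j = 0, 1, ...`, starting at the neighbours of the centre -/
def starStep : Option (ℕ × ℕ) → Option (ℕ × ℕ) → Prop
  | none, some (_, t) => t = 0
  | some (j, t), some (j', t') => j = j' ∧ t' = t + 1
  | _, none => False

/-- The graph consisting of infinitely many disjoint copies of the infinite star.  Its finite
subgraphs are the forests of subdivided stars: forests in which every component has at most one
vertex with more than two neighbours. -/
def stars : Str 1 (ℕ × Option (ℕ × ℕ)) := fun _ x y =>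
  x.1 = y.1 ∧ (starStep x.2 y.2 ∨ starStep y.2 x.2)

/-- the edges of a graph on `Fin n`, each listed once -/
abbrev EdgeOf {n : ℕ} (R : Str 1 (Fin n)) : Type := {p : Fin n × Fin n // p.1 < p.2 ∧ R 0 p.1 p.2}

/-- the steps of the `r`-subdivision: an edge `p` becomes the path `p.1, (p, 0), ..., (p, r - 1), p.2` -/
def subStep (r : ℕ) {n : ℕ} (R : Str 1 (Fin n)) :
    Fin n ⊕ EdgeOf R × Fin r → Fin n ⊕ EdgeOf R × Fin r → Prop
  | .inl u, .inl v => r = 0 ∧ u < v ∧ R 0 u v
  | .inl u, .inr (p, k) => u = p.1.1 ∧ (k : ℕ) = 0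
  | .inr (p, k), .inr (p', k') => p = p' ∧ (k' : ℕ) = k + 1
  | .inr (p, k), .inl v => v = p.1.2 ∧ (k : ℕ) + 1 = r

/-- the `r`-subdivision of the graph `R` on `Fin n` -/
def subdiv (r : ℕ) {n : ℕ} (R : Str 1 (Fin n)) : Str 1 (Fin n ⊕ EdgeOf R × Fin r) :=
  fun _ x y => subStep r R x y ∨ subStep r R y x

/-- `G` is isomorphic to the `r`-subdivision of the graph `R` -/
def IsSubdiv (r : ℕ) {n N : ℕ} (R : Str 1 (Fin n)) (G : Str 1 (Fin N)) : Prop :=
  ∃ e : Fin N ≃ Fin n ⊕ EdgeOf R × Fin r, ∀ x y, G 0 x y ↔ subdiv r R 0 (e x) (e y)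

/-- `A` is a spectrum over the class `K`: for some first-order sentence `φ`, `A` is the set of the
numbers `n ≥ 1` such that some member of `K` with `n` elements satisfies `φ` -/
def SpectrumOver (K : ∀ n : ℕ, Str 1 (Fin n) → Prop) (A : Set ℕ) : Prop :=
  ∃ φ : (binLang 1).Sentence, ∀ n : ℕ, n ∈ A ↔ (1 ≤ n ∧ ∃ R : Str 1 (Fin n), K n R ∧ Models R φ)

/-- `K` contains all `r`-subdivisions of graphs -/
def HasSub (r : ℕ) (K : ∀ n : ℕ, Str 1 (Fin n) → Prop) : Prop :=
  ∀ (n N : ℕ) (R : Str 1 (Fin n)) (G : Str 1 (Fin N)), FS.Kind.graph.Is R → IsSubdiv r R G → K N G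

/-- the complement of a graph -/
def co {V : Type} (R : Str 1 V) : Str 1 V := fun r x y => x ≠ y ∧ ¬ R r x y

end Pool.Agent.Helper20.EX
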