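import Pool.Agent.Helper20.EX.SubStar
import Pool.Agent.Helper20.OP.Defs

/-!
# One forbidden induced subgraph

Block EX-S2.  `small_graph`: if a graph `P` on `Fin s` and its complement are both contained in `stars`,
then `s ≤ 4` and `P` is an induced subgraph of the path with four vertices: the parity of the depth is a
proper colouring of `stars` with two colours, which gives an injective map `c` from `Fin s` to the pairs of colours;
two vertices with the same first colour are not adjacent, two vertices with the same second colour are adjacent; as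
`stars` contains no cycle of length four, of the two remaining pairs one is adjacent and the other one is not.
`hasSub_induced`: if `P` is not contained in `stars`, no `r`-subdivision with `s < r` contains `P`, even less as
an induced subgraph; if the complement of `P` is not contained in `stars`, use complements.
-/

set_option autoImplicit false

namespace Pool.Agent.Helper20.EX

open FirstOrder FirstOrder.Language Pool.Agent.Helper20.Spectra Pool.Agent.Helper20.OP

/-- the distance from the centre -/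
private def dep67 : Option (ℕ × ℕ) → ℕ
  | none => 0
  | some (_, t) => t + 1

private lemma dep_step67 : ∀ {a b : Option (ℕ × ℕ)}, starStep a b → dep67 b = dep67 a + 1
  | none, none, h => absurd h (by simp [starStep])
  | none, some (_, t), h => by
    have h1 : t = 0 := h
    simp [dep67, h1]
  | some _, none, h => absurd h (by simp [starStep])
  | some (j, t), some (j', t'), h => by
    have h1 : j = j' ∧ t' = t + 1 := h
    simp [dep67, h1.2]

private lemma parent67 : ∀ {a b c : Option (ℕ × ℕ)}, starStep a c → starStep b c → a = b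
  | _, _, none, h, _ => by
    exfalso
    revert h
    simp [starStep]
  | none, none, some _, _, _ => rfl
  | none, some (j, t), some (j', t'), h, h' => by
    have h1 : t' = 0 := h
    have h2 : j = j' ∧ t' = t + 1 := h'
    omega
  | some (j, t), none, some (j', t'), h, h' => by
    have h1 : j = j' ∧ t' = t + 1 := h
    have h2 : t' = 0 := h'
    omega
  | some (i, u), some (j, t), some (j', t'), h, h' => by
    have h1 : i = j' ∧ t' = u + 1 := h
    have h2 : j = j' ∧ t' = t + 1 := h'
    have h3 : u = t := by omega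
    rw [h1.1, h2.1, h3]

private lemma ext67 {p q : ℕ × Option (ℕ × ℕ)} (h1 : p.1 = q.1) (h2 : p.2 = q.2) : p = q := Prod.ext h1 h2

/-- `stars` has no cycle of length four -/
private lemma no_c4_67 {p q r s : ℕ × Option (ℕ × ℕ)} (hpr : p ≠ r) (hqs : q ≠ s) (h1 : stars 0 p q)
    (h2 : stars 0 q r) (h3 : stars 0 r s) (h4 : stars 0 s p) : False := by
  obtain ⟨e1, h1⟩ := h1
  obtain ⟨e2, h2⟩ := h2
  obtain ⟨e3, h3⟩ := h3
  obtain ⟨e4, h4⟩ := h4
  rcases h1 with h1 | h1
  · rcases h2 with h2 | h2
    · rcases h3 with h3 | h3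
      · rcases h4 with h4 | h4
        · have := dep_step67 h1
          have := dep_step67 h2
          have := dep_step67 h3
          have := dep_step67 h4
          omega
        · exact hpr (ext67 (e1.trans e2) (parent67 h4 h3))
      · exact hqs (ext67 (e2.trans e3) (parent67 h2 h3))
    · exact hpr (ext67 (e1.trans e2) (parent67 h1 h2))
  · rcases h4 with h4 | h4
    · exact hqs (ext67 (e2.trans e3) (parent67 h1 h4))
    · rcases h3 with h3 | h3
      · exact hpr (ext67 (e1.trans e2) (parent67 h4 h3))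
      · rcases h2 with h2 | h2
        · exact hqs (ext67 (e2.trans e3) (parent67 h2 h3))
        · have := dep_step67 h1
          have := dep_step67 h2
          have := dep_step67 h3
          have := dep_step67 h4
          omega

/-- the colour -/
private def col67 (p : ℕ × Option (ℕ × ℕ)) : Bool := decide (dep67 p.2 % 2 = 1)

private lemma col_ne67 {p q : ℕ × Option (ℕ × ℕ)} (h : stars 0 p q) : col67 p ≠ col67 q := by
  unfold col67
  intro h1
  rw [decide_eq_decide] at h1
  rcases h.2 with h2 | h2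
  · have := dep_step67 h2
    omega
  · have := dep_step67 h2
    omega

theorem small_graph {s : ℕ} (P : Str 1 (Fin s)) (hP : OP.Kind.graph.Is P)
    (h1 : FS.Contains FS.Kind.graph P stars) (h2 : FS.Contains FS.Kind.graph (co P) stars)
    {Q : Str 1 (Fin 4)} (hQ : Critical OP.Kind.graph Q) : Emb P Q := by
  classical
  obtain ⟨f, hf, hfP⟩ := h1
  obtain ⟨g, hg, hgP⟩ := h2
  obtain ⟨hirr, hsym⟩ := hP
  -- the two colours
  set c1 : Fin s → Bool := fun x => col67 (f x) with hc1
  set c2 : Fin s → Bool := fun x => col67 (g x) with hc2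
  have F1 : ∀ x y, P 0 x y → c1 x ≠ c1 y := fun x y h => col_ne67 (hfP x y h)
  have F2 : ∀ x y, x ≠ y → ¬ P 0 x y → c2 x ≠ c2 y := fun x y h h' => col_ne67 (hgP x y ⟨h, h'⟩)
  have inj : ∀ x y, c1 x = c1 y → c2 x = c2 y → x = y := by
    intro x y e1 e2
    by_contra hne
    by_cases h : P 0 x y
    · exact F1 x y h e1
    · exact F2 x y hne h e2
  have N1 : ∀ x y, c1 x = c1 y → ¬ P 0 x y := fun x y e h => F1 x y h e
  have N2 : ∀ x y, c1 x ≠ c1 y → c2 x = c2 y → P 0 x y := by
    intro x y hne e
    by_contra h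
    exact F2 x y (fun h' => hne (by rw [h'])) h e
  have C4 : ∀ x y z w, x ≠ z → y ≠ w → P 0 x y → P 0 y z → P 0 z w → P 0 w x → False :=
    fun x y z w n1 n2 a b c d => no_c4_67 (fun h => n1 (hf h)) (fun h => n2 (hf h)) (hfP _ _ a) (hfP _ _ b)
      (hfP _ _ c) (hfP _ _ d)
  have C4' : ∀ x y z w, x ≠ z → y ≠ w → co P 0 x y → co P 0 y z → co P 0 z w → co P 0 w x → False :=
    fun x y z w n1 n2 a b c d => no_c4_67 (fun h => n1 (hg h)) (fun h => n2 (hg h)) (hgP _ _ a) (hgP _ _ b)
      (hgP _ _ c) (hgP _ _ d)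
  have nec : ∀ x y, c1 x ≠ c1 y → x ≠ y := fun x y h h' => h (by rw [h'])
  have nec' : ∀ x y, c2 x ≠ c2 y → x ≠ y := fun x y h h' => h (by rw [h'])
  -- the general form of the conclusion
  have key : ∀ φ : Bool → Bool → Fin 4, (∀ a b a' b', φ a b = φ a' b' → a = a' ∧ b = b') →
      (∀ x y, P 0 x y ↔ Q 0 (φ (c1 x) (c2 x)) (φ (c1 y) (c2 y))) → Emb P Q := by
    intro φ hφ h
    refine ⟨fun x => φ (c1 x) (c2 x), ?_, ?_⟩
    · intro x y hxy
      obtain ⟨e1, e2⟩ := hφ _ _ _ _ hxy
      exact inj x y e1 e2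
    · intro r x y
      obtain rfl : r = 0 := Fin.eq_zero r
      exact h x y
  by_cases hA : (∀ x y, c1 x = false → c2 x = false → c1 y = true → c2 y = true → P 0 x y) ∧
      ∀ x y, c1 x = false → c2 x = true → c1 y = true → c2 y = false → ¬ P 0 x y
  · -- the path (1,0), (0,0), (1,1), (0,1)
    refine key (fun a b => match a, b with
      | true, false => 0 | false, false => 1 | true, true => 2 | false, true => 3) ?_ ?_
    · decide
    · intro x y
      have hq : ∀ i j : Fin 4, Q 0 i j ↔ (i.1 + 1 = j.1 ∨ j.1 + 1 = i.1) := hQ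
      rw [hq]
      rcases hx1 : c1 x <;> rcases hx2 : c2 x <;> rcases hy1 : c1 y <;> rcases hy2 : c2 y
      · simpa using N1 x y (hx1.trans hy1.symm)
      · simpa using N1 x y (hx1.trans hy1.symm)
      · simpa using N2 x y (by rw [hx1, hy1]; simp) (hx2.trans hy2.symm)
      · simpa using hA.1 x y hx1 hx2 hy1 hy2
      · simpa using N1 x y (hx1.trans hy1.symm)
      · simpa using N1 x y (hx1.trans hy1.symm)
      · simpa using hA.2 x y hx1 hx2 hy1 hy2
      · simpa using N2 x y (by rw [hx1, hy1]; simp) (hx2.trans hy2.symm)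
      · simpa using N2 x y (by rw [hx1, hy1]; simp) (hx2.trans hy2.symm)
      · simpa using fun h => hA.2 y x hy1 hy2 hx1 hx2 (hsym _ _ h)
      · simpa using N1 x y (hx1.trans hy1.symm)
      · simpa using N1 x y (hx1.trans hy1.symm)
      · simpa using hsym _ _ (hA.1 y x hy1 hy2 hx1 hx2)
      · simpa using N2 x y (by rw [hx1, hy1]; simp) (hx2.trans hy2.symm)
      · simpa using N1 x y (hx1.trans hy1.symm)
      · simpa using N1 x y (hx1.trans hy1.symm)
  · have hB : (∀ x y, c1 x = false → c2 x = false → c1 y = true → c2 y = true → ¬ P 0 x y) ∧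
        ∀ x y, c1 x = false → c2 x = true → c1 y = true → c2 y = false → P 0 x y := by
      by_contra hB
      rw [not_and_or] at hA hB
      push Not at hA hB
      rcases hA with ⟨x, y, x1, x2, y1, y2, hxy⟩ | ⟨z, w, z1, z2, w1, w2, hzw⟩
      · rcases hB with ⟨x', y', x1', x2', y1', y2', hxy'⟩ | ⟨z, w, z1, z2, w1, w2, hzw⟩
        · rw [inj x' x (x1'.trans x1.symm) (x2'.trans x2.symm), inj y' y (y1'.trans y1.symm) (y2'.trans y2.symm)]
            at hxy'
          exact hxy hxy'
        · refine C4' x z w y (nec _ _ (by rw [x1, w1]; simp)) (nec _ _ (by rw [z1, y1]; simp)) ⟨nec' _ _ (by rw [x2, z2]; simp), N1 _ _ (x1.trans z1.symm)⟩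
            ⟨nec _ _ (by rw [z1, w1]; simp), hzw⟩ ⟨nec' _ _ (by rw [w2, y2]; simp), N1 _ _ (w1.trans y1.symm)⟩
            ⟨nec _ _ (by rw [y1, x1]; simp), fun h => hxy (hsym _ _ h)⟩
      · rcases hB with ⟨x, y, x1, x2, y1, y2, hxy⟩ | ⟨z', w', z1', z2', w1', w2', hzw'⟩
        · exact C4 x w z y (nec' _ _ (by rw [x2, z2]; simp)) (nec' _ _ (by rw [w2, y2]; simp))
            (N2 _ _ (by rw [x1, w1]; simp) (x2.trans w2.symm)) (hsym _ _ hzw)
            (N2 _ _ (by rw [z1, y1]; simp) (z2.trans y2.symm)) (hsym _ _ hxy)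
        · rw [inj z' z (z1'.trans z1.symm) (z2'.trans z2.symm), inj w' w (w1'.trans w1.symm) (w2'.trans w2.symm)]
            at hzw'
          exact hzw' hzw
    -- the path (0,0), (1,0), (0,1), (1,1)
    refine key (fun a b => match a, b with
      | false, false => 0 | true, false => 1 | false, true => 2 | true, true => 3) ?_ ?_
    · decide
    · intro x y
      have hq : ∀ i j : Fin 4, Q 0 i j ↔ (i.1 + 1 = j.1 ∨ j.1 + 1 = i.1) := hQ
      rw [hq]
      rcases hx1 : c1 x <;> rcases hx2 : c2 x <;> rcases hy1 : c1 y <;> rcases hy2 : c2 y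
      · simpa using N1 x y (hx1.trans hy1.symm)
      · simpa using N1 x y (hx1.trans hy1.symm)
      · simpa using N2 x y (by rw [hx1, hy1]; simp) (hx2.trans hy2.symm)
      · simpa using hB.1 x y hx1 hx2 hy1 hy2
      · simpa using N1 x y (hx1.trans hy1.symm)
      · simpa using N1 x y (hx1.trans hy1.symm)
      · simpa using hB.2 x y hx1 hx2 hy1 hy2
      · simpa using N2 x y (by rw [hx1, hy1]; simp) (hx2.trans hy2.symm)
      · simpa using N2 x y (by rw [hx1, hy1]; simp) (hx2.trans hy2.symm)
      · simpa using hsym _ _ (hB.2 y x hy1 hy2 hx1 hx2)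
      · simpa using N1 x y (hx1.trans hy1.symm)
      · simpa using N1 x y (hx1.trans hy1.symm)
      · simpa using fun h => hB.1 y x hy1 hy2 hx1 hx2 (hsym _ _ h)
      · simpa using N2 x y (by rw [hx1, hy1]; simp) (hx2.trans hy2.symm)
      · simpa using N1 x y (hx1.trans hy1.symm)
      · simpa using N1 x y (hx1.trans hy1.symm)

theorem hasSub_induced {s : ℕ} (P : Str 1 (Fin s)) (hP : OP.Kind.graph.Is P)
    (h : ∃ Q : Str 1 (Fin 4), Critical OP.Kind.graph Q ∧ ¬ Emb P Q) :
    HasSub (s + 1) (fun _ R => OP.Kind.graph.Is R ∧ ¬ Emb P R) ∨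
      HasSub (s + 1) (fun _ R => OP.Kind.graph.Is (co R) ∧ ¬ Emb P (co R)) := by
  obtain ⟨Q, hQ, hPQ⟩ := h
  by_cases h1 : FS.Contains FS.Kind.graph P stars
  · have h2 : ¬ FS.Contains FS.Kind.graph (co P) stars := fun h2 => hPQ (small_graph P hP h1 h2 hQ)
    right
    intro n N R G hR hG
    have h3 := hasSub_omit (m := 1) (s := fun _ => s) (fun _ => co P) (fun _ => h2) (r := s + 1)
      (fun _ => Nat.lt_succ_self s) n N R G hR hG
    obtain ⟨⟨h4, h5⟩, h6⟩ := h3
    refine ⟨⟨fun x hx => hx.1 rfl, fun x y hxy => ⟨hxy.1.symm, fun h7 => hxy.2 (h5 _ _ h7)⟩⟩, ?_⟩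
    rintro ⟨f, hf, hfP⟩
    refine h6 0 ⟨f, hf, fun x y hxy => ?_⟩
    by_contra h7
    exact hxy.2 ((hfP 0 x y).2 ⟨fun h8 => hxy.1 (hf h8), h7⟩)
  · left
    intro n N R G hR hG
    have h3 := hasSub_omit (m := 1) (s := fun _ => s) (fun _ => P) (fun _ => h1) (r := s + 1)
      (fun _ => Nat.lt_succ_self s) n N R G hR hG
    obtain ⟨h4, h6⟩ := h3
    refine ⟨h4, ?_⟩
    rintro ⟨f, hf, hfP⟩
    exact h6 0 ⟨f, hf, fun x y hxy => (hfP 0 x y).1 hxy⟩

end Pool.Agent.Helper20.EX
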