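import Pool.Agent.Helper20.EX.Graphs

/-!
# Classes of graphs closed under subgraphs

Block EX-S4.  A class of graphs which is closed under subgraphs and contains the `r`-subdivisions of all
complete graphs contains all `r`-subdivisions: the `r`-subdivision of a graph on `Fin n` is contained
in the `r`-subdivision of the complete graph on `Fin n`.
-/

set_option autoImplicit false

namespace Pool.Agent.Helper20.EX

open FirstOrder FirstOrder.Language Pool.Agent.Helper20.Spectra Pool.Agent.Helper20.OP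
  Pool.Agent.Helper20.FS

/-- `K` is closed under subgraphs -/
def Monotone (K : ∀ n : ℕ, Str 1 (Fin n) → Prop) : Prop :=
  ∀ (n N : ℕ) (R : Str 1 (Fin n)) (G : Str 1 (Fin N)), K N G → FS.Kind.graph.Is R →
    Contains FS.Kind.graph R G → K n R

/-- `K` is somewhere dense: for some `r` it contains the `r`-subdivisions of all complete graphs -/
def SomewhereDense (K : ∀ n : ℕ, Str 1 (Fin n) → Prop) : Prop :=
  ∃ r : ℕ, ∀ n : ℕ, ∃ (N : ℕ) (G : Str 1 (Fin N)), K N G ∧
    IsSubdiv r (fun _ x y => x ≠ y : Str 1 (Fin n)) G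

private lemma step_irrefl6 (r : ℕ) {n : ℕ} (R : Str 1 (Fin n)) (z : Fin n ⊕ EdgeOf R × Fin r) :
    ¬ subStep r R z z := by
  rcases z with u | ⟨p, k⟩
  · rintro ⟨-, h, -⟩
    exact lt_irrefl _ h
  · rintro ⟨-, h⟩
    omega

private lemma is_graph6 {r n N : ℕ} {R : Str 1 (Fin n)} {G : Str 1 (Fin N)} (h : IsSubdiv r R G) :
    FS.Kind.graph.Is G := by
  obtain ⟨e, he⟩ := h
  refine ⟨fun x hx => ?_, fun x y hxy => ?_⟩
  · rcases (he x x).1 hx with h1 | h1
    · exact step_irrefl6 r R _ h1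
    · exact step_irrefl6 r R _ h1
  · exact (he y x).2 ((he x y).1 hxy).symm

/-- the inclusion of the subdivision into the one of the complete graph -/
private def incl6 (r : ℕ) {n : ℕ} (R : Str 1 (Fin n)) :
    Fin n ⊕ EdgeOf R × Fin r → Fin n ⊕ EdgeOf (fun _ x y => x ≠ y : Str 1 (Fin n)) × Fin r
  | .inl u => .inl u
  | .inr (p, k) => .inr (⟨p.1, p.2.1, p.2.1.ne⟩, k)

private lemma incl_inj6 (r : ℕ) {n : ℕ} (R : Str 1 (Fin n)) : Function.Injective (incl6 r R) := by
  rintro (u | ⟨p, k⟩) (v | ⟨q, l⟩) h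
  · have h1 : u = v := Sum.inl_injective h
    rw [h1]
  · exact absurd h (by simp [incl6])
  · exact absurd h (by simp [incl6])
  · have h1 := Sum.inr_injective h
    have h3 : k = l := congrArg Prod.snd h1
    have h4 : p.1 = q.1 := congrArg (fun z : EdgeOf (fun _ x y => x ≠ y : Str 1 (Fin n)) × Fin r => z.1.1) h1
    rw [Subtype.ext h4, h3]

private lemma incl_step6 (r : ℕ) {n : ℕ} (R : Str 1 (Fin n)) :
    ∀ x y : Fin n ⊕ EdgeOf R × Fin r, subStep r R x y →
      subStep r (fun _ x y => x ≠ y : Str 1 (Fin n)) (incl6 r R x) (incl6 r R y) := by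
  rintro (u | ⟨p, k⟩) (v | ⟨q, l⟩) h
  · exact ⟨h.1, h.2.1, h.2.1.ne⟩
  · exact ⟨h.1, h.2⟩
  · exact ⟨h.1, h.2⟩
  · obtain ⟨h1, h2⟩ := h
    exact ⟨by rw [h1], h2⟩

theorem hasSub_of_dense {K : ∀ n : ℕ, Str 1 (Fin n) → Prop} (h : Monotone K)
    (h' : SomewhereDense K) : ∃ r, 1 ≤ r ∧ HasSub r K := by
  obtain ⟨r, hr⟩ := h'
  rcases Nat.eq_zero_or_pos r with h0 | h0
  · subst h0
    refine ⟨1, le_rfl, fun n N R G hR hG => ?_⟩
    obtain ⟨N', G', hK, e, he⟩ := hr N
    have hGg := is_graph6 hG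
    refine h N N' G G' hK hGg ⟨fun x => e.symm (Sum.inl x), fun x y hxy => ?_, fun x y hxy => ?_⟩
    · exact Sum.inl_injective (e.symm.injective hxy)
    · have hne : x ≠ y := by
        rintro rfl
        exact hGg.1 x hxy
      rw [he, Equiv.apply_symm_apply, Equiv.apply_symm_apply]
      rcases lt_or_gt_of_ne hne with h1 | h1
      · exact Or.inl ⟨rfl, h1, hne⟩
      · exact Or.inr ⟨rfl, h1, hne.symm⟩
  · refine ⟨r, h0, fun n N R G hR hG => ?_⟩
    obtain ⟨N', G', hK, e', he'⟩ := hr n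
    have hGg := is_graph6 hG
    obtain ⟨e, he⟩ := hG
    refine h N N' G G' hK hGg ⟨fun x => e'.symm (incl6 r R (e x)), fun x y hxy => ?_, fun x y hxy => ?_⟩
    · exact e.injective (incl_inj6 r R (e'.symm.injective hxy))
    · rw [he', Equiv.apply_symm_apply, Equiv.apply_symm_apply]
      rcases (he x y).1 hxy with h1 | h1
      · exact Or.inl (incl_step6 r R _ _ h1)
      · exact Or.inr (incl_step6 r R _ _ h1)

end Pool.Agent.Helper20.EX
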