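import Pool.Agent.Helper38.EX.BRc
import Pool.Agent.Helper29.TD.Defs

/-!
# Spectra of sentences of bounded quantifier rank
-/

set_option autoImplicit false

namespace Pool.Agent.Helper20.EX

open FirstOrder FirstOrder.Language Pool.Agent.Helper20.Spectra Pool.Agent.Helper38.EX
  Pool.Agent.Helper29.TD

/-- `A` is the spectrum of a first-order sentence of quantifier rank at most `r` in a vocabulary of
finitely many relation symbols of arity at most `a` -/
def RankSpectrum (r a : ℕ) (A : Set ℕ) : Prop :=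
  ∃ (S : Type) (_ : Finite S) (ar : S → ℕ) (φ : (RelLang S ar).Sentence),
    (∀ s, ar s ≤ a) ∧ qd φ ≤ r ∧
    ∀ n : ℕ, n ∈ A ↔ (1 ≤ n ∧ ∃ I : Interp S ar (Fin n), Sat I φ)

theorem rankSpectrum_of_BR {r a : ℕ} {A : Set ℕ} (h : BR r a A) : RankSpectrum r a A := by
  obtain ⟨S, hS, ar, P, h1, h2, rfl⟩ := h
  obtain ⟨φ, hq, hφ⟩ := h2
  have h3 : FD S ar Empty P := ⟨φ, hφ⟩
  have hsat : ∀ (M : Type) (R : Interp S ar M) (v : Empty → M), Sat R φ ↔ P M R v := by
    intro M R v
    have e : v = (default : Empty → M) := funext (fun a => a.elim)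
    rw [e]
    exact hφ M R default
  refine ⟨S, hS, ar, φ, h1, hq, fun n => ?_⟩
  constructor
  · rintro ⟨hn, M, hM, R, hc, hP⟩
    let e : M ≃ Fin n := Fintype.equivFinOfCardEq hc
    refine ⟨hn, _, (hsat _ _ _).2 ((h3.transport e R Empty.elim).1 hP)⟩
  · rintro ⟨hn, I, hI⟩
    exact ⟨hn, Fin n, inferInstance, I, Fintype.card_fin n, (hsat _ _ _).1 hI⟩

end Pool.Agent.Helper20.EX
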