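import Pool.Agent.Helper20.Spectra.RudTools
import Pool.Agent.Helper20.OP.Defs

/-!
# Rudimentary sets are not all ultimately periodic

Block EX-S3.  The set of the squares of positive integers.
-/

set_option autoImplicit false

namespace Pool.Agent.Helper20.EX

open Pool.Agent.Helper20.Spectra Pool.Agent.Helper20.OP

theorem exists_rud_not_periodic : ∃ A : Set ℕ, IsRudimentary A ∧ 0 ∉ A ∧ ¬ UltPeriodic A := by
  refine ⟨{n : ℕ | 1 ≤ n ∧ ∃ x, x ≤ n ∧ x * x = n}, ?_, ?_, ?_⟩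
  · rw [isRudimentary_iff]
    refine (Rud.inter 1 _ _ (Rud.le (k := 1) 1 (MvPolynomial.X 0)) (Rud.bex 1 (MvPolynomial.X 0) _
      (Rud.atom 2 (MvPolynomial.X 0 * MvPolynomial.X 0) (MvPolynomial.X 1)))).congr ?_
    ext v
    simp only [Set.mem_inter_iff, Set.mem_ofPred_eq, map_mul, map_one, MvPolynomial.eval_X,
      Fin.cons_zero]
    rfl
  · rintro ⟨h, -⟩
    exact absurd h (by norm_num)
  · rintro ⟨p, N, hp, hN⟩
    obtain ⟨m, hm⟩ : ∃ m, m = N + p + 1 := ⟨_, rfl⟩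
    have h1 : m ≤ m * m := Nat.le_mul_of_pos_left _ (by omega)
    have h2 := (hN (m * m) (by omega)).1 ⟨by omega, m, h1, rfl⟩
    obtain ⟨-, x, -, hx⟩ := h2
    have h3 : m < x := by
      by_contra h
      have h4 : x * x ≤ m * m := Nat.mul_le_mul (by omega) (by omega)
      omega
    have h5 : (m + 1) * (m + 1) ≤ x * x := Nat.mul_le_mul h3 h3
    have h6 : (m + 1) * (m + 1) = m * m + 2 * m + 1 := by ring
    omega

theorem ne_rud_of_periodic {C : Set ℕ → Prop} (h : ∀ A, C A → UltPeriodic A) :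
    ¬ ∀ A : Set ℕ, C A ↔ (IsRudimentary A ∧ 0 ∉ A) := by
  obtain ⟨A, h1, h2, h3⟩ := exists_rud_not_periodic
  exact fun H => h3 (h A ((H A).2 ⟨h1, h2⟩))

end Pool.Agent.Helper20.EX
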