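import Pool.Agent.Helper20.EX.Induced
import Pool.Agent.Helper20.EX.Monotone
import Pool.Agent.Helper20.EX.Squares
import Pool.Agent.Helper29.EX.StarBR
import Pool.Agent.Helper29.EX.MonoMain
import Pool.Agent.Helper80.EX.Main
import Pool.Agent.Helper20.EX.Rank
import Pool.Agent.Helper20.FS.Main
import Pool.Agent.Helper20.OP.Main

/-!
# Exact rudimentary spectra over classes of graphs: assembly
-/

set_option autoImplicit false

namespace Pool.Agent.Helper20.EX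

open FirstOrder FirstOrder.Language Pool.Agent.Helper20.Spectra Pool.Agent.Helper20.OP
open Pool.Agent.Helper80.EX (hasSub_rud hasSub_rud_co)

/-- the graphs which contain none of the graphs `P i` -/
abbrev Avoid {m : ℕ} {s : Fin m → ℕ} (P : ∀ i, Str 1 (Fin (s i))) :
    ∀ n : ℕ, Str 1 (Fin n) → Prop :=
  fun _ R => FS.Kind.graph.Is R ∧ ∀ i, ¬ FS.Contains FS.Kind.graph (P i) R

lemma omitting_iff_over {m : ℕ} {s : Fin m → ℕ} (P : ∀ i, Str 1 (Fin (s i))) (A : Set ℕ) :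
    FS.SpectrumOmitting FS.Kind.graph P A ↔ SpectrumOver (Avoid P) A := by
  constructor
  · rintro ⟨φ, h⟩
    refine ⟨φ, fun n => (h n).trans ?_⟩
    exact ⟨fun ⟨h1, R, h2, h3, h4⟩ => ⟨h1, R, ⟨h2, h3⟩, h4⟩,
      fun ⟨h1, R, ⟨h2, h3⟩, h4⟩ => ⟨h1, R, h2, h3, h4⟩⟩
  · rintro ⟨φ, h⟩
    refine ⟨φ, fun n => (h n).trans ?_⟩
    exact ⟨fun ⟨h1, R, ⟨h2, h3⟩, h4⟩ => ⟨h1, R, h2, h3, h4⟩,
      fun ⟨h1, R, h2, h3, h4⟩ => ⟨h1, R, ⟨h2, h3⟩, h4⟩⟩

lemma omitting_isSpectrum {m : ℕ} {s : Fin m → ℕ} (P : ∀ i, Str 1 (Fin (s i))) {A : Set ℕ}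
    (h : FS.SpectrumOmitting FS.Kind.graph P A) : IsSpectrum A :=
  OP.SpecOver.isSpectrum (FS.def_omit FS.Kind.graph P)
    ((FS.spectrumOmitting_iff FS.Kind.graph P A).1 h)

/-- all `0`-subdivisions of graphs are graphs, which have `1`-subdivisions -/
lemma HasSub.one {K : ∀ n : ℕ, Str 1 (Fin n) → Prop} (h : HasSub 0 K) : HasSub 1 K := by
  intro n N R G hR hG
  have hGg : FS.Kind.graph.Is G := by
    obtain ⟨e, he⟩ := hG
    refine ⟨fun x hx => ?_, fun x y hxy => ?_⟩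
    · have h1 : ¬ subStep 1 R (e x) (e x) := by
        rcases e x with u | ⟨p, k⟩
        · rintro ⟨-, h, -⟩
          exact lt_irrefl _ h
        · rintro ⟨-, h⟩
          omega
      rcases (he x x).1 hx with h2 | h2
      · exact h1 h2
      · exact h1 h2
    · exact (he y x).2 ((he x y).1 hxy).symm
  refine h N N G G hGg ⟨⟨Sum.inl, Sum.elim id (fun q => q.2.elim0), fun x => rfl, ?_⟩, ?_⟩
  · rintro (u | ⟨p, k⟩)
    · rfl
    · exact k.elim0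
  · intro x y
    constructor
    · intro hxy
      have hne : x ≠ y := by
        rintro rfl
        exact hGg.1 x hxy
      rcases lt_or_gt_of_ne hne with h1 | h1
      · exact Or.inl ⟨rfl, h1, hxy⟩
      · exact Or.inr ⟨rfl, h1, hGg.2 _ _ hxy⟩
    · rintro (h1 | h1)
      · exact h1.2.2
      · exact hGg.2 _ _ h1.2.2

/-- **Rudimentary sets are spectra over every class with all `r`-subdivisions.** -/
theorem rud_over {K : ∀ n : ℕ, Str 1 (Fin n) → Prop} {r : ℕ} (h : HasSub r K)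
    {A : Set ℕ} (hA : IsRudimentary A) (h0 : 0 ∉ A) : SpectrumOver K A := by
  rcases Nat.eq_zero_or_pos r with hr | hr
  · subst hr
    exact hasSub_rud le_rfl h.one hA h0
  · exact hasSub_rud hr h hA h0

/-- finitely many forbidden subgraphs -/
theorem exact_sub (m : ℕ) (s : Fin m → ℕ) (P : ∀ i, Str 1 (Fin (s i))) :
    ((∃ i, FS.Contains FS.Kind.graph (P i) FS.claws) →
      ∀ A : Set ℕ, FS.SpectrumOmitting FS.Kind.graph P A → UltPeriodic A) ∧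
    ((∀ i, ¬ FS.Contains FS.Kind.graph (P i) FS.claws) →
      (∃ U : Set ℕ, FS.SpectrumOmitting FS.Kind.graph P U ∧ ∀ A : Set ℕ, IsSpectrum A ↔
        ∃ h : Polynomial ℕ, A = {n : ℕ | 1 ≤ n ∧ h.eval n ∈ U}) ∧
      ((∀ A : Set ℕ, FS.SpectrumOmitting FS.Kind.graph P A → IsRudimentary A) ↔
        ∀ A : Set ℕ, IsSpectrum A ↔ (IsRudimentary A ∧ 0 ∉ A))) ∧
    ((∃ i, FS.Contains FS.Kind.graph (P i) stars) →
      (∀ A : Set ℕ, FS.SpectrumOmitting FS.Kind.graph P A → RankSpectrum 3 2 A) ∧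
      ¬ ∀ A : Set ℕ, FS.SpectrumOmitting FS.Kind.graph P A ↔ (IsRudimentary A ∧ 0 ∉ A)) ∧
    ((∀ i, ¬ FS.Contains FS.Kind.graph (P i) stars) →
      (∀ A : Set ℕ, IsRudimentary A → 0 ∉ A → FS.SpectrumOmitting FS.Kind.graph P A) ∧
      ((∀ A : Set ℕ, FS.SpectrumOmitting FS.Kind.graph P A ↔ (IsRudimentary A ∧ 0 ∉ A)) ↔
        ∀ A : Set ℕ, IsSpectrum A ↔ (IsRudimentary A ∧ 0 ∉ A))) := by
  have hF := FS.sets_final FS.Kind.graph m s P
  refine ⟨hF.1, fun h => hF.2 (fun ⟨i, hi⟩ => h i hi), fun h => ?_, fun h => ?_⟩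
  · have hB := fun A (hA : FS.SpectrumOmitting FS.Kind.graph P A) => Pool.Agent.Helper29.EX.starBR P h hA
    refine ⟨fun A hA => rankSpectrum_of_BR (hB A hA), fun H => ?_⟩
    have hM : ¬ FS.Meets FS.Kind.graph P := fun hM => ne_rud_of_periodic (hF.1 hM) H
    exact Pool.Agent.Helper38.EX.ne_rud_of_universal (fun A hA => (hB A hA).powSq) (hF.2 hM).1 H
  · have hR : ∀ A : Set ℕ, IsRudimentary A → 0 ∉ A → FS.SpectrumOmitting FS.Kind.graph P A := by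
      intro A hA h0
      obtain ⟨r, hr⟩ : ∃ r : ℕ, ∀ i, s i < r :=
        ⟨Finset.univ.sup s + 1, fun i => Nat.lt_succ_of_le (Finset.le_sup (Finset.mem_univ i))⟩
      exact (omitting_iff_over P A).2 (rud_over (hasSub_omit P h hr) hA h0)
    refine ⟨hR, fun H => ?_, fun H A => ⟨fun hA => (H A).1 (omitting_isSpectrum P hA),
      fun hA => hR A hA.1 hA.2⟩⟩
    have hM : ¬ FS.Meets FS.Kind.graph P := fun hM => ne_rud_of_periodic (hF.1 hM) H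
    exact (hF.2 hM).2.1 (fun A hA => ((H A).1 hA).1)

lemma induced_iff_over {s : ℕ} (P : Str 1 (Fin s)) (A : Set ℕ) :
    OP.SpectrumOmitting OP.Kind.graph P A ↔
      SpectrumOver (fun _ R => OP.Kind.graph.Is R ∧ ¬ OP.Emb P R) A := by
  constructor
  · rintro ⟨φ, h⟩
    refine ⟨φ, fun n => (h n).trans ?_⟩
    exact ⟨fun ⟨h1, R, h2, h3, h4⟩ => ⟨h1, R, ⟨h2, h3⟩, h4⟩,
      fun ⟨h1, R, ⟨h2, h3⟩, h4⟩ => ⟨h1, R, h2, h3, h4⟩⟩
  · rintro ⟨φ, h⟩
    refine ⟨φ, fun n => (h n).trans ?_⟩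
    exact ⟨fun ⟨h1, R, ⟨h2, h3⟩, h4⟩ => ⟨h1, R, h2, h3, h4⟩,
      fun ⟨h1, R, h2, h3, h4⟩ => ⟨h1, R, ⟨h2, h3⟩, h4⟩⟩

/-- one forbidden induced subgraph -/
theorem exact_ind (s : ℕ) (P : Str 1 (Fin s)) (hP : OP.Kind.graph.Is P) :
    ((∀ Q, OP.Critical OP.Kind.graph Q → OP.Emb P Q) →
      ∀ A : Set ℕ, OP.SpectrumOmitting OP.Kind.graph P A → UltPeriodic A) ∧
    ((∃ Q, OP.Critical OP.Kind.graph Q ∧ ¬ OP.Emb P Q) →
      (∃ U : Set ℕ, OP.SpectrumOmitting OP.Kind.graph P U ∧ ∀ A : Set ℕ, IsSpectrum A ↔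
        ∃ h : Polynomial ℕ, A = {n : ℕ | 1 ≤ n ∧ h.eval n ∈ U}) ∧
      (∀ A : Set ℕ, IsRudimentary A → 0 ∉ A → OP.SpectrumOmitting OP.Kind.graph P A) ∧
      ((∀ A : Set ℕ, OP.SpectrumOmitting OP.Kind.graph P A ↔ (IsRudimentary A ∧ 0 ∉ A)) ↔
        ∀ A : Set ℕ, IsSpectrum A ↔ (IsRudimentary A ∧ 0 ∉ A))) := by
  have hF := OP.pattern_final OP.Kind.graph s P hP
  refine ⟨hF.1, fun hQ => ?_⟩
  have h1 : ¬ ∀ Q, OP.Critical OP.Kind.graph Q → OP.Emb P Q := by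
    obtain ⟨Q, h2, h3⟩ := hQ
    exact fun H => h3 (H Q h2)
  have hR : ∀ A : Set ℕ, IsRudimentary A → 0 ∉ A → OP.SpectrumOmitting OP.Kind.graph P A := by
    intro A hA h0
    rw [induced_iff_over]
    rcases hasSub_induced P hP hQ with h2 | h2
    · exact hasSub_rud (Nat.succ_pos s) h2 hA h0
    · exact hasSub_rud_co (K := fun _ R => OP.Kind.graph.Is R ∧ ¬ OP.Emb P R)
        (Nat.succ_pos s) h2 hA h0
  refine ⟨(hF.2 h1).1, hR, fun H => (hF.2 h1).2.1 (fun A hA => ((H A).1 hA).1), fun H A => ?_⟩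
  refine ⟨fun hA => (H A).1 ?_, fun hA => hR A hA.1 hA.2⟩
  exact OP.SpecOver.isSpectrum (OP.def_omit OP.Kind.graph P)
    ((OP.spectrumOmitting_iff OP.Kind.graph P A).1 hA)

/-- definable classes closed under subgraphs -/
theorem exact_mono (K : ∀ n : ℕ, Str 1 (Fin n) → Prop) (ψ : (binLang 1).Sentence)
    (hK : Pool.Agent.Helper29.EX.DefBy K ψ) (hM : Monotone K) :
    (SomewhereDense K ↔ Pool.Agent.Helper29.EX.HasAll stars K) ∧
    (SomewhereDense K →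
      (∀ A : Set ℕ, IsRudimentary A → 0 ∉ A → SpectrumOver K A) ∧
      ((∀ A : Set ℕ, SpectrumOver K A ↔ (IsRudimentary A ∧ 0 ∉ A)) ↔
        ∀ A : Set ℕ, IsSpectrum A ↔ (IsRudimentary A ∧ 0 ∉ A))) ∧
    (¬ SomewhereDense K →
      (∀ A : Set ℕ, SpectrumOver K A → RankSpectrum 3 2 A) ∧
      ¬ ∀ A : Set ℕ, SpectrumOver K A ↔ (IsRudimentary A ∧ 0 ∉ A)) ∧
    (¬ Pool.Agent.Helper29.EX.HasAll FS.claws K →
      ∀ A : Set ℕ, SpectrumOver K A → UltPeriodic A) ∧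
    (Pool.Agent.Helper29.EX.HasAll FS.claws K →
      (∃ U : Set ℕ, SpectrumOver K U ∧ ∀ A : Set ℕ, IsSpectrum A ↔
        ∃ h : Polynomial ℕ, A = {n : ℕ | 1 ≤ n ∧ h.eval n ∈ U}) ∧
      ((∀ A : Set ℕ, SpectrumOver K A → IsRudimentary A) ↔
        ∀ A : Set ℕ, IsSpectrum A ↔ (IsRudimentary A ∧ 0 ∉ A))) := by
  have hD := Pool.Agent.Helper29.EX.mono_dense hK hM
  have hE := Pool.Agent.Helper29.EX.mono_exact hK hM
  refine ⟨hD.symm, fun h => ⟨fun A hA h0 => ?_, ⟨fun H => (hE.1 H).2, fun H => hE.2 ⟨h, H⟩⟩⟩,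
    fun h => ⟨fun A hA => ?_, fun H => h (hE.1 H).1⟩,
    fun h A hA => Pool.Agent.Helper29.EX.mono_tame hK hM h hA,
    fun h => Pool.Agent.Helper29.EX.mono_universal hK hM h⟩
  · obtain ⟨r, hr, h1⟩ := hasSub_of_dense hM h
    exact rud_over h1 hA h0
  · exact rankSpectrum_of_BR (Pool.Agent.Helper29.EX.mono_BR hK hM (fun h1 => h (hD.1 h1)) hA)

end Pool.Agent.Helper20.EX
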