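import Pool.Agent.Helper20.EX.Graphs

/-!
# Small subgraphs of subdivisions are forests of subdivided stars

Block EX-S1.  Let `f` be an injective homomorphism from a graph `P` on `Fin s`, `s < r`, to `subdiv r R`.
For every edge `p` of `R` there is a position `κ p : Fin r` such that `(p, κ p)` is not a value of `f`
(`s < r`).  Map a value `inl u` to `(u, none)`, a value `(p, k)` with `k < κ p` to `(p.1, some (c p, k))`,
a value `(p, k)` with `k > κ p` to `(p.2, some (c p, r - 1 - k))`, where `c` is an injection of the finite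
set of edges into `ℕ`.  Adjacent values of `f` are on the same side of `κ p`; as `r ≥ 1`, two values `inl u`,
`inl v` are not adjacent.
-/

set_option autoImplicit false

namespace Pool.Agent.Helper20.EX

open FirstOrder FirstOrder.Language Pool.Agent.Helper20.Spectra Pool.Agent.Helper20.OP
  Pool.Agent.Helper20.FS

/-- the map to the stars -/
private noncomputable def toStar45 {r n : ℕ} {R : Str 1 (Fin n)} (κ : EdgeOf R → Fin r) :
    Fin n ⊕ EdgeOf R × Fin r → ℕ × Option (ℕ × ℕ) := fun a => match a with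
  | .inl u => ((u : ℕ), none)
  | .inr (p, k) => if (k : ℕ) < κ p then ((p.1.1 : ℕ), some (Nat.pair p.1.1 p.1.2, (k : ℕ)))
      else ((p.1.2 : ℕ), some (Nat.pair p.1.1 p.1.2, r - 1 - k))

private theorem toStar_lt45 {r n : ℕ} {R : Str 1 (Fin n)} (κ : EdgeOf R → Fin r) (p : EdgeOf R) (k : Fin r)
    (h : (k : ℕ) < κ p) : toStar45 κ (.inr (p, k)) = ((p.1.1 : ℕ), some (Nat.pair p.1.1 p.1.2, (k : ℕ))) := by
  show (if (k : ℕ) < κ p then ((p.1.1 : ℕ), some (Nat.pair p.1.1 p.1.2, (k : ℕ)))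
      else ((p.1.2 : ℕ), some (Nat.pair p.1.1 p.1.2, r - 1 - k))) = _
  rw [if_pos h]

private theorem toStar_ge45 {r n : ℕ} {R : Str 1 (Fin n)} (κ : EdgeOf R → Fin r) (p : EdgeOf R) (k : Fin r)
    (h : ¬ (k : ℕ) < κ p) : toStar45 κ (.inr (p, k)) =
      ((p.1.2 : ℕ), some (Nat.pair p.1.1 p.1.2, r - 1 - k)) := by
  show (if (k : ℕ) < κ p then ((p.1.1 : ℕ), some (Nat.pair p.1.1 p.1.2, (k : ℕ)))
      else ((p.1.2 : ℕ), some (Nat.pair p.1.1 p.1.2, r - 1 - k))) = _
  rw [if_neg h]

private theorem edge_ext45 {n : ℕ} {R : Str 1 (Fin n)} {p q : EdgeOf R}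
    (h : Nat.pair p.1.1 p.1.2 = Nat.pair q.1.1 q.1.2) : p = q := by
  obtain ⟨h1, h2⟩ := Nat.pair_eq_pair.1 h
  exact Subtype.ext (Prod.ext (Fin.ext h1) (Fin.ext h2))

private theorem toStar_inj45 {r n : ℕ} {R : Str 1 (Fin n)} (κ : EdgeOf R → Fin r)
    {a b : Fin n ⊕ EdgeOf R × Fin r} (ha : ∀ p, a ≠ .inr (p, κ p)) (hb : ∀ p, b ≠ .inr (p, κ p))
    (h : toStar45 κ a = toStar45 κ b) : a = b := by
  rcases a with u | ⟨p, k⟩
  · rcases b with v | ⟨q, l⟩
    · have h1 : ((u : ℕ), (none : Option (ℕ × ℕ))) = ((v : ℕ), none) := h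
      rw [Fin.ext (congrArg Prod.fst h1)]
    · by_cases hl : (l : ℕ) < κ q
      · rw [toStar_lt45 κ q l hl] at h
        have h1 : (none : Option (ℕ × ℕ)) = some _ := congrArg Prod.snd h
        exact absurd h1 (by simp)
      · rw [toStar_ge45 κ q l hl] at h
        have h1 : (none : Option (ℕ × ℕ)) = some _ := congrArg Prod.snd h
        exact absurd h1 (by simp)
  · rcases b with v | ⟨q, l⟩
    · by_cases hk : (k : ℕ) < κ p
      · rw [toStar_lt45 κ p k hk] at h
        have h1 : some _ = (none : Option (ℕ × ℕ)) := congrArg Prod.snd h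
        exact absurd h1 (by simp)
      · rw [toStar_ge45 κ p k hk] at h
        have h1 : some _ = (none : Option (ℕ × ℕ)) := congrArg Prod.snd h
        exact absurd h1 (by simp)
    · have hpq : p = q := by
        by_cases hk : (k : ℕ) < κ p <;> by_cases hl : (l : ℕ) < κ q
        · rw [toStar_lt45 κ p k hk, toStar_lt45 κ q l hl] at h
          exact edge_ext45 (congrArg Prod.fst (Option.some.inj (congrArg Prod.snd h)))
        · rw [toStar_lt45 κ p k hk, toStar_ge45 κ q l hl] at h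
          exact edge_ext45 (congrArg Prod.fst (Option.some.inj (congrArg Prod.snd h)))
        · rw [toStar_ge45 κ p k hk, toStar_lt45 κ q l hl] at h
          exact edge_ext45 (congrArg Prod.fst (Option.some.inj (congrArg Prod.snd h)))
        · rw [toStar_ge45 κ p k hk, toStar_ge45 κ q l hl] at h
          exact edge_ext45 (congrArg Prod.fst (Option.some.inj (congrArg Prod.snd h)))
      subst hpq
      have hlt : (p.1.1 : ℕ) < p.1.2 := p.2.1
      by_cases hk : (k : ℕ) < κ p <;> by_cases hl : (l : ℕ) < κ p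
      · rw [toStar_lt45 κ p k hk, toStar_lt45 κ p l hl] at h
        have h1 : (k : ℕ) = l := congrArg Prod.snd (Option.some.inj (congrArg Prod.snd h))
        rw [Fin.ext h1]
      · rw [toStar_lt45 κ p k hk, toStar_ge45 κ p l hl] at h
        have h1 : (p.1.1 : ℕ) = p.1.2 := congrArg Prod.fst h
        omega
      · rw [toStar_ge45 κ p k hk, toStar_lt45 κ p l hl] at h
        have h1 : (p.1.2 : ℕ) = p.1.1 := congrArg Prod.fst h
        omega
      · rw [toStar_ge45 κ p k hk, toStar_ge45 κ p l hl] at h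
        have h1 : r - 1 - (k : ℕ) = r - 1 - l := congrArg Prod.snd (Option.some.inj (congrArg Prod.snd h))
        have h2 := k.is_lt
        have h3 := l.is_lt
        rw [Fin.ext (show (k : ℕ) = l by omega)]

private theorem toStar_step45 {r n : ℕ} (hr : 1 ≤ r) {R : Str 1 (Fin n)} (κ : EdgeOf R → Fin r)
    {a b : Fin n ⊕ EdgeOf R × Fin r} (ha : ∀ p, a ≠ .inr (p, κ p)) (hb : ∀ p, b ≠ .inr (p, κ p))
    (h : subStep r R a b) : stars 0 (toStar45 κ a) (toStar45 κ b) := by
  rcases a with u | ⟨p, k⟩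
  · rcases b with v | ⟨q, l⟩
    · have h1 : r = 0 ∧ u < v ∧ R 0 u v := h
      omega
    · have h1 : u = q.1.1 ∧ (l : ℕ) = 0 := h
      obtain ⟨h1, h2⟩ := h1
      have h3 : (l : ℕ) ≠ κ q := fun h4 => hb q (by rw [Fin.ext h4])
      have h4 : (l : ℕ) < κ q := by omega
      rw [toStar_lt45 κ q l h4]
      refine ⟨?_, Or.inl ?_⟩
      · show (u : ℕ) = q.1.1
        rw [h1]
      · exact h2
  · rcases b with v | ⟨q, l⟩
    · have h1 : v = p.1.2 ∧ (k : ℕ) + 1 = r := h
      obtain ⟨h1, h2⟩ := h1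
      have h3 : (k : ℕ) ≠ κ p := fun h4 => ha p (by rw [Fin.ext h4])
      have h5 := (κ p).is_lt
      have h4 : ¬ (k : ℕ) < κ p := by omega
      rw [toStar_ge45 κ p k h4]
      refine ⟨?_, Or.inr ?_⟩
      · show (p.1.2 : ℕ) = v
        rw [h1]
      · show r - 1 - (k : ℕ) = 0
        omega
    · have h1 : p = q ∧ (l : ℕ) = k + 1 := h
      obtain ⟨h1, h2⟩ := h1
      subst h1
      have h3 : (k : ℕ) ≠ κ p := fun h4 => ha p (by rw [Fin.ext h4])
      have h4 : (l : ℕ) ≠ κ p := fun h5 => hb p (by rw [Fin.ext h5])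
      have h6 := l.is_lt
      by_cases hk : (k : ℕ) < κ p
      · rw [toStar_lt45 κ p k hk, toStar_lt45 κ p l (by omega)]
        exact ⟨rfl, Or.inl ⟨rfl, h2⟩⟩
      · rw [toStar_ge45 κ p k hk, toStar_ge45 κ p l (by omega)]
        refine ⟨rfl, Or.inr ⟨rfl, ?_⟩⟩
        show r - 1 - (k : ℕ) = r - 1 - l + 1
        omega

private theorem stars_symm45 {x y : ℕ × Option (ℕ × ℕ)} (h : stars 0 x y) : stars 0 y x :=
  ⟨h.1.symm, h.2.symm⟩

theorem contains_stars {s r n : ℕ} (hr : s < r) (P : Str 1 (Fin s)) (R : Str 1 (Fin n))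
    (h : ∃ f : Fin s → Fin n ⊕ EdgeOf R × Fin r, Function.Injective f ∧
      ∀ x y, P 0 x y → subdiv r R 0 (f x) (f y)) :
    Contains FS.Kind.graph P stars := by
  classical
  obtain ⟨f, hf, hfP⟩ := h
  have hκ : ∀ p : EdgeOf R, ∃ k : Fin r, ∀ x, f x ≠ .inr (p, k) := by
    intro p
    by_contra hcon
    push Not at hcon
    choose g hg using hcon
    have hinj : Function.Injective g := by
      intro k l hkl
      have h1 := hg k
      rw [hkl, hg l] at h1
      exact (Prod.mk.inj (Sum.inr.inj h1)).2.symm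
    have h2 := Fintype.card_le_of_injective g hinj
    rw [Fintype.card_fin, Fintype.card_fin] at h2
    omega
  choose κ hκ using hκ
  refine ⟨fun x => toStar45 κ (f x), ?_, ?_⟩
  · intro x y hxy
    exact hf (toStar_inj45 κ (fun p => hκ p x) (fun p => hκ p y) hxy)
  · intro x y hxy
    rcases hfP x y hxy with h1 | h1
    · exact toStar_step45 (by omega) κ (fun p => hκ p x) (fun p => hκ p y) h1
    · exact stars_symm45 (toStar_step45 (by omega) κ (fun p => hκ p y) (fun p => hκ p x) h1)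

theorem hasSub_omit {m : ℕ} {s : Fin m → ℕ} (P : ∀ i, Str 1 (Fin (s i)))
    (h : ∀ i, ¬ Contains FS.Kind.graph (P i) stars) {r : ℕ} (hr : ∀ i, s i < r) :
    HasSub r (fun _ R => FS.Kind.graph.Is R ∧ ∀ i, ¬ Contains FS.Kind.graph (P i) R) := by
  intro n N R G hR hG
  obtain ⟨e, he⟩ := hG
  have hir : ∀ a, ¬ subStep r R a a := by
    rintro (u | ⟨p, k⟩) ha
    · have h1 : r = 0 ∧ u < u ∧ R 0 u u := ha
      exact lt_irrefl _ h1.2.1
    · have h1 : p = p ∧ (k : ℕ) = k + 1 := ha
      omega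
  refine ⟨⟨fun x hx => ?_, fun x y hxy => ?_⟩, fun i hi => ?_⟩
  · rcases (he x x).1 hx with h1 | h1
    · exact hir _ h1
    · exact hir _ h1
  · exact (he y x).2 ((he x y).1 hxy).symm
  · obtain ⟨f, hf, hfP⟩ := hi
    exact h i (contains_stars (hr i) (P i) R ⟨fun x => e (f x), fun x y hxy => hf (e.injective hxy),
      fun x y hxy => (he _ _).1 (hfP x y hxy)⟩)

end Pool.Agent.Helper20.EX
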