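import Pool.Agent.Helper20.Spectra.RudTools
import Pool.Agent.Helper20.OP.Def

/-!
# Substitution of definable relations; relativisation

Block EX-A.  `fd_subst`: induction on the formula (as in `Pool/Agent/Helper20/FS/Relat.lean`, where
all symbols are binary; there are no function symbols, so all terms are variables).
`def_relat'`: the same with relativisation to a definable set `Z`, into the framework `Def b` of
`Pool/Agent/Helper20/OP/Def.lean` (copy the proof of `relat_formula26` in `FS/Relat.lean`; only the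
case of relation symbols changes: `r : {s // ar s = l}`, the terms are variables `i : Fin l → Fin m`,
use `Def.ren (hρ s) i`).
-/

set_option autoImplicit false

namespace Pool.Agent.Helper20.EX

open FirstOrder FirstOrder.Language Pool.Agent.Helper20.Spectra Pool.Agent.Helper20.OP

private lemma term_var_h12 {S : Type} {ar : S → ℕ} {β : Type} (t : (RelLang S ar).Term β) :
    ∃ x : β, t = Term.var x := by
  cases t with
  | var x => exact ⟨x, rfl⟩
  | func f _ => exact Empty.elim f

private theorem subst_formula_h12 {S S' : Type} {ar : S → ℕ} {ar' : S' → ℕ} {α : Type}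
    {ρ : ∀ (s : S) (M : Type), Interp S' ar' M → (Fin (ar s) → M) → Prop}
    (hρ : ∀ s, FD S' ar' (Fin (ar s)) (ρ s)) {m : ℕ}
    (φ : (RelLang S ar).BoundedFormula α m) :
    FD S' ar' (α ⊕ Fin m) (fun M I w =>
      @BoundedFormula.Realize _ M (mkS (fun s => ρ s M I)) _ _ φ
        (w ∘ Sum.inl) (w ∘ Sum.inr)) := by
  induction φ with
  | @falsum m => exact (FD.const False).congr fun M I w => Iff.rfl
  | @equal m t₁ t₂ =>
    obtain ⟨i, rfl⟩ := term_var_h12 t₁
    obtain ⟨j, rfl⟩ := term_var_h12 t₂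
    refine (FD.eq (El.var i) (El.var j)).congr fun M I w => ?_
    show Sum.elim (w ∘ Sum.inl) (w ∘ Sum.inr) i = Sum.elim (w ∘ Sum.inl) (w ∘ Sum.inr) j ↔ _
    rw [Sum.elim_comp_inl_inr]
  | @rel m l r ts =>
    obtain ⟨s, hs⟩ := r
    subst hs
    choose g hg using fun i => term_var_h12 (ts i)
    refine (FD.sub (f := fun M v => v ∘ g) ⟨g, fun _ _ => rfl⟩ (hρ s)).congr fun M I w => ?_
    let _ := mkS (fun s => ρ s M I)
    show ρ s M I (fun i => (ts i).realize (Sum.elim (w ∘ Sum.inl) (w ∘ Sum.inr))) ↔ _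
    rw [Sum.elim_comp_inl_inr]
    have h1 : (fun i => (ts i).realize w) = w ∘ g := by
      funext i
      rw [hg i]
      rfl
    rw [h1]
  | @imp m φ ψ ih₁ ih₂ => exact (ih₁.imp ih₂).congr fun M I w => Iff.rfl
  | @all m φ ih =>
    let g : α ⊕ Fin (m + 1) → (α ⊕ Fin m) ⊕ Unit :=
      Sum.elim (fun a => Sum.inl (Sum.inl a))
        (Fin.snoc (α := fun _ => (α ⊕ Fin m) ⊕ Unit) (fun i => Sum.inl (Sum.inr i)) (Sum.inr ()))
    have h1 : FD S' ar' (α ⊕ Fin m) (fun M I w => ∀ x : M,
        @BoundedFormula.Realize _ M (mkS (fun s => ρ s M I)) _ _ φ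
          (w ∘ Sum.inl) (Fin.snoc (w ∘ Sum.inr) x)) := by
      apply FD.all1
      refine (FD.sub (f := fun M v => v ∘ g) ⟨g, fun _ _ => rfl⟩ ih).congr fun M I w => ?_
      have h2 : (Fin.snoc ((w ∘ Sum.inl) ∘ Sum.inr) (w (Sum.inr ())) : Fin (m + 1) → M) =
          (w ∘ g) ∘ Sum.inr := by
        funext i
        refine Fin.lastCases ?_ (fun j => ?_) i
        · simp [g]
        · simp [g]
      rw [h2]
      exact Iff.rfl
    exact h1.congr fun M I w => Iff.rfl

theorem fd_subst {S S' : Type} {ar : S → ℕ} {ar' : S' → ℕ} {α : Type}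
    {P : ∀ (M : Type), Interp S ar M → (α → M) → Prop} (hP : FD S ar α P)
    {ρ : ∀ (s : S) (M : Type), Interp S' ar' M → (Fin (ar s) → M) → Prop}
    (hρ : ∀ s, FD S' ar' (Fin (ar s)) (ρ s)) :
    FD S' ar' α (fun M I v => P M (fun s => ρ s M I) v) := by
  obtain ⟨φ, hφ⟩ := hP
  have h1 := subst_formula_h12 hρ φ
  have h2 : FD S' ar' α (fun M I v => @BoundedFormula.Realize _ M (mkS (fun s => ρ s M I)) _ _ φ
      v default) := by
    refine (FD.sub (f := fun M v => v ∘ (Sum.elim id (fun i : Fin 0 => i.elim0) : α ⊕ Fin 0 → α))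
      ⟨_, fun _ _ => rfl⟩ h1).congr fun M I v => ?_
    have e1 : (v ∘ (Sum.elim id (fun i : Fin 0 => i.elim0) : α ⊕ Fin 0 → α)) ∘ Sum.inr =
        (default : Fin 0 → M) := by
      funext i
      exact i.elim0
    have e2 : (v ∘ (Sum.elim id (fun i : Fin 0 => i.elim0) : α ⊕ Fin 0 → α)) ∘ Sum.inl = v := rfl
    rw [e1, e2]
  exact h2.congr fun M I v => (hφ M (fun s => ρ s M I) v).symm

private theorem relat_formula_h12 {S : Type} {ar : S → ℕ} {b : ℕ}
    {Z : ∀ V : Type, Str b V → V → Prop} (hZ : Def1 b Z)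
    {ρ : ∀ (s : S) (V : Type), Str b V → (Fin (ar s) → V) → Prop}
    (hρ : ∀ s, Def b (ar s) (ρ s)) {m : ℕ}
    (φ : (RelLang S ar).BoundedFormula Empty m) :
    Def b m (fun V R v => ∀ h : ∀ i, Z V R (v i),
      @BoundedFormula.Realize _ {x // Z V R x}
        (mkS (fun s (w : Fin (ar s) → {x // Z V R x}) => ρ s V R (fun i => (w i).1))) _ _ φ
        default (fun i => ⟨v i, h i⟩)) := by
  have hdom : ∀ k : ℕ, Def b k (fun V R v => ∀ i : Fin k, Z V R (v i)) := fun k =>
    Def.all_fin (fun i => hZ.app i)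
  have hvar : ∀ {k : ℕ} (t : (RelLang S ar).Term (Empty ⊕ Fin k)),
      ∃ i : Fin k, t = Term.var (Sum.inr i) := by
    intro k t
    obtain ⟨x, rfl⟩ := term_var_h12 t
    rcases x with x | i
    · exact x.elim
    · exact ⟨i, rfl⟩
  induction φ with
  | @falsum m => exact ((hdom m).imp (Def.const False)).congr fun V R v => Iff.rfl
  | @equal m t₁ t₂ =>
    obtain ⟨i, rfl⟩ := hvar t₁
    obtain ⟨j, rfl⟩ := hvar t₂
    refine ((hdom m).imp (Def.eq i j)).congr fun V R v => ?_
    refine forall_congr' fun h => ?_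
    exact Subtype.ext_iff
  | @rel m l r ts =>
    obtain ⟨s, hs⟩ := r
    subst hs
    choose g hg using fun i => hvar (ts i)
    refine ((hdom m).imp ((hρ s).ren g)).congr fun V R v => ?_
    refine forall_congr' fun h => ?_
    let _ := mkS (fun s (w : Fin (ar s) → {x // Z V R x}) => ρ s V R (fun i => (w i).1))
    show ρ s V R (fun i => ((ts i).realize
      (Sum.elim default fun i => (⟨v i, h i⟩ : {x // Z V R x}))).1) ↔ _
    have h1 : (fun i => ((ts i).realize
        (Sum.elim default fun i => (⟨v i, h i⟩ : {x // Z V R x}))).1) = fun i => v (g i) := by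
      funext i
      rw [hg i]
      rfl
    rw [h1]
  | @imp m φ ψ ih₁ ih₂ =>
    refine ((hdom m).imp (ih₁.imp ih₂)).congr fun V R v => ?_
    constructor
    · intro H h H1 h'
      exact H h (H1 h)
    · intro H h H1
      exact H h (fun _ => H1) h
  | @all m φ ih =>
    have h1 : Def b m (fun V R v => ∀ x : V, ∀ h : ∀ i, Z V R ((Fin.snoc v x : Fin (m + 1) → V) i),
        @BoundedFormula.Realize _ {x // Z V R x}
          (mkS (fun s (w : Fin (ar s) → {x // Z V R x}) => ρ s V R (fun i => (w i).1))) _ _ φ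
          default (fun i => ⟨(Fin.snoc v x : Fin (m + 1) → V) i, h i⟩)) := by
      apply Def.all
      refine ih.congr fun V R v => ?_
      have h2 : (Fin.snoc (fun i : Fin m => v i.castSucc) (v (Fin.last m)) : Fin (m + 1) → V) = v :=
        Fin.snoc_init_self v
      rw [h2]
    refine h1.congr fun V R v => ?_
    have key : ∀ (h : ∀ i, Z V R (v i)) (x : V) (hx : Z V R x)
        (h' : ∀ i, Z V R ((Fin.snoc v x : Fin (m + 1) → V) i)),
        (Fin.snoc (fun i => (⟨v i, h i⟩ : {x // Z V R x})) ⟨x, hx⟩ : Fin (m + 1) → {x // Z V R x}) =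
          fun i => ⟨(Fin.snoc v x : Fin (m + 1) → V) i, h' i⟩ := by
      intro h x hx h'
      funext i
      apply Subtype.ext
      refine Fin.lastCases ?_ (fun j => ?_) i
      · simp only [Fin.snoc_last]
      · simp only [Fin.snoc_castSucc]
    constructor
    · intro H x h'
      have h : ∀ i, Z V R (v i) := fun i => by
        have := h' i.castSucc
        rwa [Fin.snoc_castSucc] at this
      have hx : Z V R x := by
        have := h' (Fin.last m)
        rwa [Fin.snoc_last] at this
      have := H h ⟨x, hx⟩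
      rw [key h x hx h'] at this
      exact this
    · intro H h x
      obtain ⟨x, hx⟩ := x
      have h' : ∀ i, Z V R ((Fin.snoc v x : Fin (m + 1) → V) i) := by
        intro i
        refine Fin.lastCases ?_ (fun j => ?_) i
        · rw [Fin.snoc_last]; exact hx
        · rw [Fin.snoc_castSucc]; exact h j
      rw [key h x hx h']
      exact H x h'

theorem def_relat' {S : Type} {ar : S → ℕ} {b : ℕ}
    {P : ∀ (M : Type), Interp S ar M → (Empty → M) → Prop} (hP : FD S ar Empty P)
    {Z : ∀ V : Type, Str b V → V → Prop} (hZ : Def1 b Z)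
    {ρ : ∀ (s : S) (V : Type), Str b V → (Fin (ar s) → V) → Prop}
    (hρ : ∀ s, Def b (ar s) (ρ s)) :
    Def0 b (fun V R => P {x // Z V R x} (fun s v => ρ s V R (fun i => (v i).1))
      (fun e => e.elim)) := by
  obtain ⟨φ, hφ⟩ := hP
  refine (relat_formula_h12 hZ hρ φ).congr fun V R v => ?_
  have e0 : (fun e : Empty => (e.elim : {x // Z V R x})) = default := Subsingleton.elim _ _
  refine (hφ {x // Z V R x} (fun s v => ρ s V R (fun i => (v i).1)) (fun e => e.elim)).symm.trans ?_
  rw [e0]
  constructor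
  · intro H h
    have : (fun i => (⟨v i, h i⟩ : {x // Z V R x})) = default := Subsingleton.elim _ _
    rw [this]
    exact H
  · intro H
    have h : ∀ i : Fin 0, Z V R (v i) := fun i => i.elim0
    have H1 := H h
    have : (fun i => (⟨v i, h i⟩ : {x // Z V R x})) = default := Subsingleton.elim _ _
    rw [this] at H1
    exact H1

end Pool.Agent.Helper20.EX
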