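import Pool.Agent.Helper20.EX.Dig

/-!
# Sums of tuples

Block EX-C1.  `col x = ∑ i, x i * m ^ i` (`finFunctionFinEquiv`, `Pool/Agent/Helper20/Spectra/TupGrid.lean`).
The schoolbook algorithm for a digitwise given number `∑ s i * m ^ i` (`carry_iff45`): from the carries
`s i + c i = z i + m c (i + 1)` the sums are equal by telescoping; conversely the carries are defined by
recursion and bounded by some `D < m`, and the last one is `0` as `col z < m ^ (K + 1)`.
-/

set_option autoImplicit false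

namespace Pool.Agent.Helper20.EX

open FirstOrder FirstOrder.Language Pool.Agent.Helper20.Spectra TupSys

variable {w K m : ℕ} {I : Interp DSym (dar w) (Fin m)}

theorem col_eq_sum (x : Fin (K + 1) → Fin m) : col x = ∑ i : Fin (K + 1), (x i : ℕ) * m ^ (i : ℕ) :=
  finFunctionFinEquiv_apply x

private theorem telescope45 (c : Fin (K + 2) → ℕ) (s z : Fin (K + 1) → ℕ)
    (h : ∀ i : Fin (K + 1), s i + c i.castSucc = z i + m * c i.succ) :
    ∑ i : Fin (K + 1), s i * m ^ (i : ℕ) + c 0 =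
      ∑ i : Fin (K + 1), z i * m ^ (i : ℕ) + c (Fin.last (K + 1)) * m ^ (K + 1) := by
  have h1 : ∑ j : Fin (K + 2), c j * m ^ (j : ℕ) =
      ∑ i : Fin (K + 1), c i.castSucc * m ^ (i : ℕ) + c (Fin.last (K + 1)) * m ^ (K + 1) := by
    rw [Fin.sum_univ_castSucc]
    rfl
  have h2 : ∑ j : Fin (K + 2), c j * m ^ (j : ℕ) =
      c 0 + ∑ i : Fin (K + 1), m * c i.succ * m ^ (i : ℕ) := by
    rw [Fin.sum_univ_succ]
    congr 1
    · simp
    · refine Finset.sum_congr rfl fun i _ => ?_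
      rw [Fin.val_succ, pow_succ]
      ring
  have h3 : ∑ i : Fin (K + 1), s i * m ^ (i : ℕ) + ∑ i : Fin (K + 1), c i.castSucc * m ^ (i : ℕ) =
      ∑ i : Fin (K + 1), z i * m ^ (i : ℕ) + ∑ i : Fin (K + 1), m * c i.succ * m ^ (i : ℕ) := by
    rw [← Finset.sum_add_distrib, ← Finset.sum_add_distrib]
    refine Finset.sum_congr rfl fun i _ => ?_
    rw [← add_mul, ← add_mul, h]
  omega

/-- the schoolbook algorithm -/
private theorem carry_iff45 {s : Fin (K + 1) → ℕ} {D : ℕ} (hD : D < m)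
    (hs : ∀ i, s i + D < m * (D + 1)) (z : Fin (K + 1) → Fin m) :
    (∃ c : Fin (K + 2) → Fin m, ∃ u a b : Fin (K + 1) → Fin m, (c 0 : ℕ) = 0 ∧
      (c (Fin.last (K + 1)) : ℕ) = 0 ∧ ∀ i : Fin (K + 1), s i = (u i : ℕ) + m * a i ∧
        (u i : ℕ) + c i.castSucc = z i + m * b i ∧ (a i : ℕ) + b i = c i.succ) ↔
      ∑ i : Fin (K + 1), s i * m ^ (i : ℕ) = col z := by
  have hm : 0 < m := by omega
  constructor
  · rintro ⟨c, u, a, b, h0, hl, h⟩
    have h1 := telescope45 (m := m) (fun j => (c j : ℕ)) s (fun i => (z i : ℕ)) (by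
      intro i
      obtain ⟨h2, h3, h4⟩ := h i
      show s i + (c i.castSucc : ℕ) = (z i : ℕ) + m * (c i.succ : ℕ)
      rw [h2, ← h4, mul_add]
      omega)
    rw [col_eq_sum]
    rw [hl, h0, add_zero, zero_mul, add_zero] at h1
    exact h1
  · intro hsum
    obtain ⟨s', hs'⟩ : ∃ s' : ℕ → ℕ, s' = fun j => if h : j < K + 1 then s ⟨j, h⟩ else 0 := ⟨_, rfl⟩
    have hs'i : ∀ i : Fin (K + 1), s' i = s i := by
      intro i
      rw [hs']
      simp only [i.is_lt, dif_pos]
    obtain ⟨C, hC0, hC1⟩ : ∃ C : ℕ → ℕ, C 0 = 0 ∧ ∀ j, C (j + 1) = (s' j + C j) / m :=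
      ⟨fun j => Nat.rec 0 (fun j cj => (s' j + cj) / m) j, rfl, fun j => rfl⟩
    have hCD : ∀ j, j ≤ K + 1 → C j ≤ D := by
      intro j
      induction j with
      | zero => intro _; rw [hC0]; exact Nat.zero_le _
      | succ j ih =>
        intro hj
        rw [hC1]
        have h1 := ih (by omega)
        have h2 := hs ⟨j, by omega⟩
        have h3 := hs'i ⟨j, by omega⟩
        have h4 : s' j = s ⟨j, by omega⟩ := h3
        have h5 : (s' j + C j) / m < D + 1 := Nat.div_lt_of_lt_mul (by omega)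
        omega
    have htel := telescope45 (m := m) (K := K) (fun j => C (j : ℕ)) s (fun i => (s' i + C i) % m) (by
      intro i
      show s i + C (i.castSucc : Fin (K + 2)) = (s' i + C i) % m + m * C ((i.succ : Fin (K + 2)) : ℕ)
      rw [Fin.val_succ, hC1, ← hs'i, Fin.val_castSucc]
      exact (Nat.mod_add_div _ _).symm)
    simp only [Fin.val_zero, hC0, add_zero, Fin.val_last] at htel
    obtain ⟨z', hz'⟩ : ∃ z' : Fin (K + 1) → Fin m, z' = fun i => ⟨(s' i + C i) % m, Nat.mod_lt _ hm⟩ := ⟨_, rfl⟩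
    have hcz' : ∑ i : Fin (K + 1), (s' i + C i) % m * m ^ (i : ℕ) = col z' := by
      rw [col_eq_sum, hz']
    rw [hsum, hcz'] at htel
    have hlast : C (K + 1) = 0 := by
      by_contra hne
      have h1 : m ^ (K + 1) ≤ C (K + 1) * m ^ (K + 1) := Nat.le_mul_of_pos_left _ (Nat.pos_of_ne_zero hne)
      have h2 := col_lt z
      omega
    rw [hlast, zero_mul, add_zero] at htel
    have hzz : z' = z := by
      have h1 : (finFunctionFinEquiv z' : Fin (m ^ (K + 1))) = finFunctionFinEquiv z := Fin.ext htel.symm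
      exact finFunctionFinEquiv.injective h1
    have key : ∀ i : Fin (K + 1), (z i : ℕ) = (s i + C i) % m := by
      intro i
      rw [← hzz, hz', ← hs'i]
    have key2 : ∀ i : Fin (K + 1), s i / m + (s i % m + C i) / m = C (i + 1) := by
      intro i
      rw [hC1, hs'i]
      have h1 := Nat.div_add_mod (s i) m
      have h2 : s i + C i = (s i % m + C i) + m * (s i / m) := by omega
      rw [h2, Nat.add_mul_div_left _ _ hm, add_comm]
    refine ⟨fun j => ⟨C j, lt_of_le_of_lt (hCD j (by have := j.is_lt; omega)) hD⟩,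
      fun i => ⟨s i % m, Nat.mod_lt _ hm⟩,
      fun i => ⟨s i / m, lt_of_le_of_lt (le_of_le_of_eq (Nat.le_add_right _ _) (key2 i))
        (lt_of_le_of_lt (hCD (i + 1) (by have := i.is_lt; omega)) hD)⟩,
      fun i => ⟨(s i % m + C i) / m, lt_of_le_of_lt (le_of_le_of_eq (Nat.le_add_left _ _) (key2 i))
        (lt_of_le_of_lt (hCD (i + 1) (by have := i.is_lt; omega)) hD)⟩, hC0, ?_, fun i => ⟨?_, ?_, ?_⟩⟩
    · exact hlast
    · exact (Nat.mod_add_div _ _).symm
    · show s i % m + C (i : ℕ) = (z i : ℕ) + m * ((s i % m + C i) / m)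
      rw [key i]
      have h1 : (s i % m + C i) % m = (s i + C i) % m := by
        rw [Nat.add_mod (s i % m), Nat.mod_mod, ← Nat.add_mod]
      rw [← h1]
      exact (Nat.mod_add_div _ _).symm
    · exact key2 i

theorem dzero_iff (h : DStd I) (x : Fin m) : dzero I x ↔ (x : ℕ) = 0 := by
  constructor
  · intro hx
    by_contra hne
    have hpos : 0 < m := lt_of_le_of_lt (Nat.zero_le _) x.is_lt
    refine hx ⟨0, hpos⟩ ((h.lt _ _).2 ?_)
    rw [Fin.lt_def]
    exact Nat.pos_of_ne_zero hne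
  · intro hx y hy
    have h1 := (h.lt _ _).1 hy
    rw [Fin.lt_def, hx] at h1
    exact Nat.not_lt_zero _ h1

theorem tadd_iff (h : DStd I) (x y z : Fin (K + 1) → Fin m) :
    tadd I x y z ↔ col x + col y = col z := by
  have hm : 0 < m := lt_of_le_of_lt (Nat.zero_le _) (x 0).is_lt
  have hsum : col x + col y = ∑ i : Fin (K + 1), ((x i : ℕ) + y i) * m ^ (i : ℕ) := by
    rw [col_eq_sum, col_eq_sum, ← Finset.sum_add_distrib]
    exact Finset.sum_congr rfl fun i _ => (add_mul _ _ _).symm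
  have hc := carry_iff45 (K := K) (m := m) (s := fun i => (x i : ℕ) + y i) (D := min 1 (m - 1))
    (by omega) (by
      intro i
      have h1 := (x i).is_lt
      have h2 := (y i).is_lt
      rcases Nat.lt_or_ge 1 m with h3 | h3
      · have h4 : min 1 (m - 1) = 1 := by omega
        rw [h4]
        omega
      · have h4 : min 1 (m - 1) = 0 := by omega
        rw [h4]
        omega) z
  rw [hsum, ← hc]
  unfold tadd
  constructor
  · rintro ⟨c, u, a, b, o, ho, h0, hl, hi⟩
    have ho' := (dzero_iff h o).1 ho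
    refine ⟨c, u, a, b, by rw [h0, ho'], by rw [hl, ho'], fun i => ?_⟩
    obtain ⟨h1, h2, h3⟩ := hi i
    have h4 := (h.add _ _ _ _).1 h3
    rw [ho', mul_zero, add_zero] at h4
    exact ⟨(h.add _ _ _ _).1 h1, (h.add _ _ _ _).1 h2, h4⟩
  · rintro ⟨c, u, a, b, h0, hl, hi⟩
    refine ⟨c, u, a, b, c 0, (dzero_iff h _).2 h0, rfl, Fin.ext (by rw [hl, h0]), fun i => ?_⟩
    obtain ⟨h1, h2, h3⟩ := hi i
    refine ⟨(h.add _ _ _ _).2 h1, (h.add _ _ _ _).2 h2, (h.add _ _ _ _).2 ?_⟩
    rw [h0, mul_zero, add_zero]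
    exact h3

theorem tsmul_iff (h : DStd I) (d : Fin m) (x z : Fin (K + 1) → Fin m) :
    tsmul I d x z ↔ (d : ℕ) * col x = col z := by
  have hm : 0 < m := lt_of_le_of_lt (Nat.zero_le _) d.is_lt
  have hsum : (d : ℕ) * col x = ∑ i : Fin (K + 1), ((d : ℕ) * x i) * m ^ (i : ℕ) := by
    rw [col_eq_sum, Finset.mul_sum]
    exact Finset.sum_congr rfl fun i _ => (mul_assoc _ _ _).symm
  have hc := carry_iff45 (K := K) (m := m) (s := fun i => (d : ℕ) * x i) (D := m - 1)
    (by omega) (by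
      intro i
      have h1 := (x i).is_lt
      have h2 := d.is_lt
      obtain ⟨r, hr⟩ : ∃ r, m = r + 1 := ⟨m - 1, by omega⟩
      have h3 : (d : ℕ) * x i ≤ r * r := Nat.mul_le_mul (by omega) (by omega)
      have h4 : m - 1 = r := by omega
      show (d : ℕ) * (x i : ℕ) + (m - 1) < m * (m - 1 + 1)
      rw [h4]
      have h5 : r * r + r < (r + 1) * (r + 1) := by ring_nf; omega
      have h6 : m * (r + 1) = (r + 1) * (r + 1) := congrArg (fun t => t * (r + 1)) hr
      omega) z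
  rw [hsum, ← hc]
  unfold tsmul
  constructor
  · rintro ⟨c, u, a, b, o, ho, h0, hl, hi⟩
    have ho' := (dzero_iff h o).1 ho
    refine ⟨c, u, a, b, by rw [h0, ho'], by rw [hl, ho'], fun i => ?_⟩
    obtain ⟨h1, h2, h3⟩ := hi i
    have h4 := (h.add _ _ _ _).1 h3
    rw [ho', mul_zero, add_zero] at h4
    exact ⟨(h.mul _ _ _ _).1 h1, (h.add _ _ _ _).1 h2, h4⟩
  · rintro ⟨c, u, a, b, h0, hl, hi⟩
    refine ⟨c, u, a, b, c 0, (dzero_iff h _).2 h0, rfl, Fin.ext (by rw [hl, h0]), fun i => ?_⟩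
    obtain ⟨h1, h2, h3⟩ := hi i
    refine ⟨(h.mul _ _ _ _).2 h1, (h.add _ _ _ _).2 h2, (h.add _ _ _ _).2 ?_⟩
    rw [h0, mul_zero, add_zero]
    exact h3

end Pool.Agent.Helper20.EX
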