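import Pool.Agent.Helper20.EX.Dig
import Pool.Agent.Helper20.OP.Def

/-!
# Structures with 11 unary functions: definitions

Functions `0, …, 6`: coordinates; `7`: kind; `8`, `9`, `10`: truth of `<`, sum, product.  Digits are
the fixed points of the function `0`.
-/

set_option autoImplicit false

namespace Pool.Agent.Helper20.EX

open FirstOrder FirstOrder.Language Pool.Agent.Helper20.Spectra Pool.Agent.Helper20.OP

/-- the structure with the unary functions `f`, as binary relations -/
def funStr {b : ℕ} {V : Type} (f : Fin b → V → V) : Str b V := fun r x y => f r x = y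

/-- digits -/
def isX (V : Type) (R : Str 11 V) (x : V) : Prop := R 0 x x
/-- tuple objects -/
def isT (V : Type) (R : Str 11 V) (o : V) : Prop := ¬ R 0 o o ∧ R 7 o o
/-- names -/
def isU (V : Type) (R : Str 11 V) (o : V) : Prop := ¬ R 0 o o ∧ ¬ R 7 o o

/-- the coordinates `0, 1, 2, 3` of `o` are `v` -/
def Co4 (V : Type) (R : Str 11 V) (o : V) (v : Fin 4 → V) : Prop :=
  ∀ i : Fin 4, R (Fin.castLE (by omega) i) o (v i)

/-- the digit arithmetic, as relations on the whole structure -/
def dgI (s : DSym) (V : Type) (R : Str 11 V) : (Fin (dar 7 s) → V) → Prop := match s with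
  | .lt => fun v => ∃ o, isT V R o ∧ Co4 V R o ![v (0 : Fin 2), v (1 : Fin 2), v (0 : Fin 2),
      v (0 : Fin 2)] ∧ R 8 o o
  | .add => fun v => ∃ o, isT V R o ∧ Co4 V R o v ∧ R 9 o o
  | .mul => fun v => ∃ o, isT V R o ∧ Co4 V R o v ∧ R 10 o o
  | .nm => fun v => ∃ o, isU V R o ∧ ∀ i : Fin 7, R (Fin.castLE (by omega) i) o (v i)

/-- the digit arithmetic on the set of digits -/
def dgX (V : Type) (R : Str 11 V) : Interp DSym (dar 7) {x // isX V R x} :=
  fun s v => dgI s V R (fun i => (v i).1)

/-- the axioms without arithmetic -/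
structure UnAx (V : Type) (R : Str 11 V) : Prop where
  co : ∀ (i : Fin 7) (o x : V), R (Fin.castLE (by omega) i) o x → isX V R x
  tup : ∀ v : Fin 4 → V, (∀ i, isX V R (v i)) → ∃ o, (isT V R o ∧ Co4 V R o v) ∧
    ∀ o', isT V R o' ∧ Co4 V R o' v → o' = o
  name : ∀ o o' : V, isU V R o → isU V R o' →
    (∀ i : Fin 7, ∀ x, R (Fin.castLE (by omega) i) o x → R (Fin.castLE (by omega) i) o' x) → o = o'
  two : ∃ x y : V, isX V R x ∧ isX V R y ∧ x ≠ y

/-- all conditions, `P` being the condition of `exists_sizeOk` -/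
def UnOk (P : ∀ (M : Type), Interp DSym (dar 7) M → (Empty → M) → Prop) (V : Type) (R : Str 11 V) :
    Prop :=
  UnAx V R ∧ DAx (dgX V R) ∧ P {x // isX V R x} (dgX V R) (fun e => e.elim)

end Pool.Agent.Helper20.EX
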