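import Pool.Agent.Helper20.EX.Un
import Pool.Agent.Helper20.EX.Subst
import Pool.Agent.Helper20.EX.TupFD

/-!
# The conditions are definable

Block EX-F.  `def_relat'` for the last two conditions (`dax_FD`), the API of
`Pool/Agent/Helper20/OP/Def.lean` (`Def.rel`, `Def.exTuple`, `Def.all`, `Def.ren`, …) for the others.
-/

set_option autoImplicit false

namespace Pool.Agent.Helper20.EX

open FirstOrder FirstOrder.Language Pool.Agent.Helper20.Spectra Pool.Agent.Helper20.OP

private lemma allTuple6 (k : ℕ) {b r : ℕ} {P : ∀ (V : Type), Str b V → (Fin r → V) → (Fin k → V) → Prop}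
    (h : Def b (r + k) (fun V R v => P V R (fun i => v (Fin.castAdd k i)) (fun j => v (Fin.natAdd r j)))) :
    Def b r (fun V R v => ∀ x : Fin k → V, P V R v x) := by
  refine (Def.exTuple k (P := fun V R v x => ¬ P V R v x) h.not).not.congr fun V R v => ?_
  push Not
  exact Iff.rfl

private lemma isX_def6 {r : ℕ} (i : Fin r) : Def 11 r (fun V R v => isX V R (v i)) := Def.rel 0 i i

private lemma isT_def6 {r : ℕ} (i : Fin r) : Def 11 r (fun V R v => isT V R (v i)) :=
  (Def.rel 0 i i).not.and (Def.rel 7 i i)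

private lemma isU_def6 {r : ℕ} (i : Fin r) : Def 11 r (fun V R v => isU V R (v i)) :=
  (Def.rel 0 i i).not.and (Def.rel 7 i i).not

private lemma co4_def6 {r : ℕ} (o : Fin r) (e : Fin 4 → Fin r) :
    Def 11 r (fun V R v => Co4 V R (v o) (fun i => v (e i))) :=
  Def.all_fin (fun i : Fin 4 => Def.rel _ o (e i))

theorem dgI_def (s : DSym) : Def 11 (dar 7 s) (fun V R v => dgI s V R v) := by
  cases s with
  | lt =>
    show Def 11 2 (fun V R v => ∃ o, isT V R o ∧ Co4 V R o ![v (0 : Fin 2), v (1 : Fin 2), v (0 : Fin 2),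
      v (0 : Fin 2)] ∧ R 8 o o)
    refine Def.ex ((isT_def6 (Fin.last 2)).and (Def.and ?_ (Def.rel 8 (Fin.last 2) (Fin.last 2))))
    refine (co4_def6 (Fin.last 2) ![(0 : Fin 3), 1, 0, 0]).congr fun V R v => ?_
    have e : (fun i => v (![(0 : Fin 3), 1, 0, 0] i)) =
        ![v (Fin.castSucc (0 : Fin 2)), v (Fin.castSucc (1 : Fin 2)), v (Fin.castSucc (0 : Fin 2)),
          v (Fin.castSucc (0 : Fin 2))] := by
      funext i
      fin_cases i <;> rfl
    rw [e]
  | add =>
    show Def 11 4 (fun V R v => ∃ o, isT V R o ∧ Co4 V R o v ∧ R 9 o o)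
    exact Def.ex ((isT_def6 (Fin.last 4)).and ((co4_def6 (Fin.last 4) (fun i => i.castSucc)).and
      (Def.rel 9 (Fin.last 4) (Fin.last 4))))
  | mul =>
    show Def 11 4 (fun V R v => ∃ o, isT V R o ∧ Co4 V R o v ∧ R 10 o o)
    exact Def.ex ((isT_def6 (Fin.last 4)).and ((co4_def6 (Fin.last 4) (fun i => i.castSucc)).and
      (Def.rel 10 (Fin.last 4) (Fin.last 4))))
  | nm =>
    show Def 11 7 (fun V R v => ∃ o, isU V R o ∧ ∀ i : Fin 7, R (Fin.castLE (by omega) i) o (v i))
    exact Def.ex ((isU_def6 (Fin.last 7)).and (Def.all_fin (fun i : Fin 7 => Def.rel _ (Fin.last 7) i.castSucc)))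

theorem unAx_def : Def0 11 UnAx := by
  have h1 : Def 11 0 (fun V R _ => ∀ (i : Fin 7) (o x : V), R (Fin.castLE (by omega) i) o x → isX V R x) :=
    Def.all_fin (fun i : Fin 7 => Def.all (P := fun V R _ o => ∀ x : V, R (Fin.castLE (by omega) i) o x → isX V R x)
      (Def.all (P := fun V R v x => R (Fin.castLE (by omega) i) (v (Fin.last 0)) x → isX V R x)
        ((Def.rel _ (Fin.castSucc (Fin.last 0)) (Fin.last 1)).imp (isX_def6 (Fin.last 1)))))
  have h2 : Def 11 0 (fun V R _ => ∀ v : Fin 4 → V, (∀ i, isX V R (v i)) → ∃ o, (isT V R o ∧ Co4 V R o v) ∧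
      ∀ o', isT V R o' ∧ Co4 V R o' v → o' = o) := by
    refine allTuple6 4 (r := 0) (P := fun V R _ v => (∀ i, isX V R (v i)) → ∃ o, (isT V R o ∧ Co4 V R o v) ∧
      ∀ o', isT V R o' ∧ Co4 V R o' v → o' = o) ?_
    refine Def.imp (Def.all_fin (fun i : Fin 4 => isX_def6 _)) ?_
    refine Def.ex (P := fun V R v o => (isT V R o ∧ Co4 V R o (fun j => v (Fin.natAdd 0 j))) ∧
      ∀ o', isT V R o' ∧ Co4 V R o' (fun j => v (Fin.natAdd 0 j)) → o' = o) ?_
    refine Def.and ((isT_def6 (Fin.last (0 + 4))).and (co4_def6 (Fin.last (0 + 4)) (fun j => (Fin.natAdd 0 j).castSucc))) ?_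
    refine Def.all (P := fun V R v o' => isT V R o' ∧ Co4 V R o' (fun j => v ((Fin.natAdd 0 j).castSucc)) →
      o' = v (Fin.last (0 + 4))) ?_
    exact Def.imp ((isT_def6 (Fin.last (0 + 4 + 1))).and (co4_def6 (Fin.last (0 + 4 + 1))
      (fun j => ((Fin.natAdd 0 j).castSucc).castSucc))) (Def.eq (Fin.last (0 + 4 + 1)) (Fin.last (0 + 4)).castSucc)
  have h3 : Def 11 0 (fun V R _ => ∀ o o' : V, isU V R o → isU V R o' →
      (∀ i : Fin 7, ∀ x, R (Fin.castLE (by omega) i) o x → R (Fin.castLE (by omega) i) o' x) → o = o') := by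
    refine Def.all (P := fun V R _ o => ∀ o' : V, isU V R o → isU V R o' →
      (∀ i : Fin 7, ∀ x, R (Fin.castLE (by omega) i) o x → R (Fin.castLE (by omega) i) o' x) → o = o') ?_
    refine Def.all (P := fun V R v o' => isU V R (v (Fin.last 0)) → isU V R o' →
      (∀ i : Fin 7, ∀ x, R (Fin.castLE (by omega) i) (v (Fin.last 0)) x → R (Fin.castLE (by omega) i) o' x) →
        v (Fin.last 0) = o') ?_
    refine (isU_def6 (Fin.last 0).castSucc).imp ((isU_def6 (Fin.last 1)).imp (Def.imp ?_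
      (Def.eq (Fin.last 0).castSucc (Fin.last 1))))
    refine Def.all_fin (fun i : Fin 7 => ?_)
    refine Def.all (P := fun V R v x => R (Fin.castLE (by omega) i) (v (Fin.last 0).castSucc) x →
      R (Fin.castLE (by omega) i) (v (Fin.last 1)) x) ?_
    exact (Def.rel _ (Fin.last 0).castSucc.castSucc (Fin.last 2)).imp (Def.rel _ (Fin.last 1).castSucc (Fin.last 2))
  have h4 : Def 11 0 (fun V R _ => ∃ x y : V, isX V R x ∧ isX V R y ∧ x ≠ y) := by
    refine Def.ex (P := fun V R _ x => ∃ y : V, isX V R x ∧ isX V R y ∧ x ≠ y) ?_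
    refine Def.ex (P := fun V R v y => isX V R (v (Fin.last 0)) ∧ isX V R y ∧ v (Fin.last 0) ≠ y) ?_
    exact (isX_def6 (Fin.last 0).castSucc).and ((isX_def6 (Fin.last 1)).and (Def.eq (Fin.last 0).castSucc (Fin.last 1)).not)
  exact (h1.and (h2.and (h3.and h4))).congr fun V R _ =>
    ⟨fun h => ⟨h.co, h.tup, h.name, h.two⟩, fun h => ⟨h.1, h.2.1, h.2.2.1, h.2.2.2⟩⟩

theorem unOk_def {P : ∀ (M : Type), Interp DSym (dar 7) M → (Empty → M) → Prop}
    (hP : FD DSym (dar 7) Empty P) : Def0 11 (UnOk P) := by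
  have hZ : Def1 11 isX := isX_def6 0
  have h1 := def_relat' (dax_FD (w := 7)) hZ (ρ := fun s V R v => dgI s V R v) dgI_def
  have h2 := def_relat' hP hZ (ρ := fun s V R v => dgI s V R v) dgI_def
  exact unAx_def.and (h1.and h2)

end Pool.Agent.Helper20.EX
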