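import Pool.Agent.Helper20.EX.Unary

/-!
# Spectra of sentences with unary function symbols

`UnarySpectrum.affine`.  With `Λ = Fin c ⊕ Fin j` let `W = (Fin c × V) ⊕ Fin j` for a set `V`; an element of `W` is
given by a label `l : Λ` and an element `x` of `V` (which does not matter if `l = inr e`).  Functions `f i : W → W` are
coded by functions `g (i, l, none) : V → V` (the element of the value) and `g (i, l, some l') : V → V` (the label of the
value is `l'` if and only if `g (i, l, some l') x = x`; this needs two elements in `V`); for `l = inr e` the label and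
(if it is some `inl a`) the element of the value do not depend on `x`.  A formula over `W` with labels for its
variables is translated by induction (`Def`); a quantifier over `W` is a finite conjunction over the labels of
quantifiers over `V`.
-/

set_option autoImplicit false

namespace Pool.Agent.Helper20.EX

open FirstOrder FirstOrder.Language Pool.Agent.Helper20.Spectra Pool.Agent.Helper20.OP

/-- `A` is the spectrum of a first-order sentence whose symbols are `b` unary function symbols, which are
represented by their graphs -/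
def UnarySpectrum (A : Set ℕ) : Prop :=
  ∃ (b : ℕ) (φ : (binLang b).Sentence), ∀ n : ℕ, n ∈ A ↔
    (1 ≤ n ∧ ∃ f : Fin b → Fin n → Fin n, Models (funStr f) φ)

theorem rud_unarySpectrum {A : Set ℕ} (hA : IsRudimentary A) (h0 : 0 ∉ A) : UnarySpectrum A := by
  obtain ⟨P, hP, h⟩ := rud_unary hA h0
  obtain ⟨φ, hφ⟩ := hP.exists_sentence
  refine ⟨11, φ, fun n => ?_⟩
  constructor
  · intro hn
    have h1 : 1 ≤ n := Nat.one_le_iff_ne_zero.2 (fun h => h0 (h ▸ hn))
    obtain ⟨f, hf⟩ := (h n h1).1 hn
    exact ⟨h1, f, (hφ _ _).2 hf⟩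
  · rintro ⟨h1, f, hf⟩
    exact (h n h1).2 ⟨f, (hφ _ _).1 hf⟩

/-- the labels -/
private abbrev La74 (c j : ℕ) : Type := Fin c ⊕ Fin j

/-- the large universe -/
private abbrev W74 (c j : ℕ) (V : Type) : Type := (Fin c × V) ⊕ Fin j

private def elt74 {c j : ℕ} {V : Type} : La74 c j → V → W74 c j V
  | Sum.inl a, x => Sum.inl (a, x)
  | Sum.inr e, _ => Sum.inr e

private def lab74 {c j : ℕ} {V : Type} : W74 c j V → La74 c j
  | Sum.inl p => Sum.inl p.1
  | Sum.inr e => Sum.inr e

private def elm74 {c j : ℕ} {V : Type} (x : V) : W74 c j V → V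
  | Sum.inl p => p.2
  | Sum.inr _ => x

private lemma lab_elt74 {c j : ℕ} {V : Type} (l : La74 c j) (x : V) : lab74 (elt74 l x) = l := by
  rcases l with a | e <;> rfl

private lemma elt_lab74 {c j : ℕ} {V : Type} (x : V) (w : W74 c j V) : elt74 (lab74 w) (elm74 x w) = w := by
  rcases w with ⟨a, y⟩ | e <;> rfl

/-- the structure on the large universe -/
private def dcd74 {b c j b' : ℕ} (e : Fin b × La74 c j × Option (La74 c j) → Fin b') {V : Type} (G : Str b' V) :
    Str b (W74 c j V) := fun i w w' =>
  ∃ x y, elt74 (lab74 w) x = w ∧ elt74 (lab74 w') y = w' ∧ G (e (i, lab74 w, some (lab74 w'))) x x ∧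
    G (e (i, lab74 w, none)) x y

private lemma def_elt74 {c j b' N : ℕ} (l l' : La74 c j) (k k' : Fin N) :
    Def b' N (fun _ _ v => elt74 l (v k) = elt74 l' (v k')) := by
  rcases l with a | e
  · rcases l' with a' | e'
    · refine ((Def.const (a = a')).and (Def.eq k k')).congr (fun V R v => ?_)
      show (Sum.inl (a, v k) : W74 c j V) = Sum.inl (a', v k') ↔ _
      rw [Sum.inl.injEq, Prod.mk.injEq]
    · refine (Def.const False).congr (fun V R v => ?_)
      show (Sum.inl (a, v k) : W74 c j V) = Sum.inr e' ↔ _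
      simp
  · rcases l' with a' | e'
    · refine (Def.const False).congr (fun V R v => ?_)
      show (Sum.inr e : W74 c j V) = Sum.inl (a', v k') ↔ _
      simp
    · refine (Def.const (e = e')).congr (fun V R v => ?_)
      show (Sum.inr e : W74 c j V) = Sum.inr e' ↔ _
      rw [Sum.inr.injEq]

private lemma def_dcd74 {b c j b' N : ℕ} (e : Fin b × La74 c j × Option (La74 c j) → Fin b') (i : Fin b)
    (l l' : La74 c j) (k k' : Fin N) :
    Def b' N (fun _ G v => dcd74 e G i (elt74 l (v k)) (elt74 l' (v k'))) := by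
  have h1 : Def b' N (fun V G v => ∃ x : V, ∃ y : V, (elt74 l x = elt74 l (v k) ∧ elt74 l' y = elt74 l' (v k')) ∧
      G (e (i, l, some l')) x x ∧ G (e (i, l, none)) x y) := by
    refine Def.ex (P := fun V G v x => ∃ y : V, (elt74 l x = elt74 l (v k) ∧ elt74 l' y = elt74 l' (v k')) ∧
      G (e (i, l, some l')) x x ∧ G (e (i, l, none)) x y) ?_
    refine Def.ex (P := fun V G v y => (elt74 l (v (Fin.last N)) = elt74 l (v k.castSucc) ∧
      elt74 l' y = elt74 l' (v k'.castSucc)) ∧
      G (e (i, l, some l')) (v (Fin.last N)) (v (Fin.last N)) ∧ G (e (i, l, none)) (v (Fin.last N)) y) ?_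
    exact ((def_elt74 _ _ _ _).and (def_elt74 _ _ _ _)).and ((Def.rel _ _ _).and (Def.rel _ _ _))
  refine h1.congr (fun V G v => ?_)
  unfold dcd74
  rw [lab_elt74, lab_elt74]
  simp only [and_assoc]

private lemma term74 {b m : ℕ} (t : (binLang b).Term (Empty ⊕ Fin m)) :
    ∃ i : Fin m, t = Term.var (Sum.inr i) := by
  cases t with
  | var v =>
    rcases v with v | v
    · exact v.elim
    · exact ⟨v, rfl⟩
  | func f _ => exact f.elim

private lemma ne74 {b' N : ℕ} : Def b' N (fun V _ _ => Nonempty V) := by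
  have h1 : Def b' N (fun V _ _ => ∃ _ : V, True) := Def.ex (Def.const True)
  exact h1.congr (fun V _ _ => ⟨fun ⟨x⟩ => ⟨x, trivial⟩, fun ⟨x, _⟩ => ⟨x⟩⟩)

private theorem tr74 {b c j b' : ℕ} (e : Fin b × La74 c j × Option (La74 c j) → Fin b') {m : ℕ}
    (φ : (binLang b).BoundedFormula Empty m) : ∀ lb : Fin m → La74 c j,
    Def b' m (fun V G v => Nonempty V →
      @BoundedFormula.Realize _ (W74 c j V) (toStr (dcd74 e G)) _ _ φ default (fun k => elt74 (lb k) (v k))) := by
  induction φ with
  | falsum =>
    intro lb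
    refine (ne74.not).congr (fun V G v => ?_)
    exact Iff.rfl
  | equal t t' =>
    intro lb
    obtain ⟨k, rfl⟩ := term74 t
    obtain ⟨k', rfl⟩ := term74 t'
    exact ne74.imp (def_elt74 (lb k) (lb k') k k')
  | rel r ts =>
    intro lb
    obtain ⟨s, hs⟩ := r
    subst hs
    obtain ⟨k, hk⟩ := term74 (ts 0)
    obtain ⟨k', hk'⟩ := term74 (ts 1)
    refine (ne74.imp (def_dcd74 e s (lb k) (lb k') k k')).congr (fun V G v => ?_)
    let _ := toStr (dcd74 e G)
    refine imp_congr_right (fun _ => ?_)
    show dcd74 e G s ((ts 0).realize _) ((ts 1).realize _) ↔ _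
    rw [hk, hk']
    rfl
  | imp f g ihf ihg =>
    intro lb
    refine ((ihf lb).imp (ihg lb)).congr (fun V G v => ?_)
    let _ := toStr (dcd74 e G)
    rw [BoundedFormula.realize_imp]
    tauto
  | @all m f ih =>
    intro lb
    have h1 : Def b' m (fun V G v => ∀ l : La74 c j, ∀ x : V, Nonempty V →
        @BoundedFormula.Realize _ (W74 c j V) (toStr (dcd74 e G)) _ _ f default
          (Fin.snoc (fun k => elt74 (lb k) (v k)) (elt74 l x))) := by
      refine Def.all_fin (fun l => Def.all ?_)
      refine (ih (Fin.snoc lb l)).congr (fun V G v => ?_)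
      have h2 : (Fin.snoc (fun k => elt74 (lb k) (v k.castSucc)) (elt74 l (v (Fin.last m))) :
          Fin (m + 1) → W74 c j V) = fun k => elt74 ((Fin.snoc lb l : Fin (m + 1) → La74 c j) k) (v k) := by
        funext k
        refine Fin.lastCases ?_ (fun k => ?_) k
        · rw [Fin.snoc_last, Fin.snoc_last]
        · rw [Fin.snoc_castSucc, Fin.snoc_castSucc]
      rw [h2]
    refine h1.congr (fun V G v => ?_)
    let _ := toStr (dcd74 e G)
    rw [BoundedFormula.realize_all]
    constructor
    · intro h l x hV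
      exact h hV _
    · rintro h ⟨x⟩ w
      have h3 := h (lab74 w) (elm74 x w) ⟨x⟩
      rw [elt_lab74] at h3
      exact h3

theorem UnarySpectrum.affine {A : Set ℕ} (h : UnarySpectrum A) {c : ℕ} (hc : 1 ≤ c) (j : ℕ) :
    UnarySpectrum {n | 2 ≤ n ∧ c * n + j ∈ A} := by
  classical
  obtain ⟨b, φ, hφ⟩ := h
  let I : Type := Fin b × La74 c j × Option (La74 c j)
  let b' : ℕ := Fintype.card I
  let e : I ≃ Fin b' := Fintype.equivFin I
  -- the condition on the large universe
  let P : ∀ W : Type, Str b W → Prop := fun W R =>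
    (∀ i, ∀ w : W, ∃ w', R i w w' ∧ ∀ w'', R i w w'' → w'' = w') ∧ Models R φ
  have hP : Def0 b P := by
    have h1 : Def b 0 (fun W R _ => ∀ i, ∀ w : W, ∃ w', R i w w' ∧ ∀ w'', R i w w'' → w'' = w') :=
      Def.all_fin (fun i => Def.all (Def.ex ((Def.rel i _ _).and (Def.all ((Def.rel i _ _).imp (Def.eq _ _))))))
    exact Def.and h1 (Def0.models φ)
  obtain ⟨ψ, hψ⟩ := hP
  have hQ : Def0 b' (fun V G => (∃ x y : V, ¬ x = y) ∧ (Nonempty V → P (W74 c j V) (dcd74 e G))) := by
    have h1 : Def b' 0 (fun V _ _ => ∃ x y : V, ¬ x = y) := Def.ex (Def.ex (Def.eq _ _).not)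
    refine Def.and h1 ((tr74 e ψ Fin.elim0).congr (fun V G v => ?_))
    exact imp_congr_right (fun _ => (hψ _ _ _).symm)
  obtain ⟨χ, hχ⟩ := hQ.exists_sentence
  have hcard : ∀ n : ℕ, Fintype.card (W74 c j (Fin n)) = c * n + j := by
    intro n
    simp
  refine ⟨b', χ, fun n => ?_⟩
  constructor
  · rintro ⟨hn, hA⟩
    obtain ⟨hpos, f, hf⟩ := (hφ _).1 hA
    refine ⟨by omega, ?_⟩
    -- transport the functions to the large universe
    let t : Fin (c * n + j) ≃ W74 c j (Fin n) := (Fintype.equivFinOfCardEq (hcard n)).symm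
    let F : Fin b → W74 c j (Fin n) → W74 c j (Fin n) := fun i w => t (f i (t.symm w))
    have hF : P (W74 c j (Fin n)) (funStr F) := by
      refine ⟨fun i w => ⟨F i w, rfl, fun w'' h => (h : F i w = w'').symm⟩, ?_⟩
      have h1 := (Def0.iso (Def0.models φ) t (funStr f)).1 hf
      have h2 : (fun r x y => funStr f r (t.symm x) (t.symm y)) = funStr F := by
        funext r x y
        refine propext ?_
        show f r (t.symm x) = t.symm y ↔ t (f r (t.symm x)) = y
        constructor
        · intro h; rw [h, t.apply_symm_apply]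
        · intro h; rw [← h, t.symm_apply_apply]
      rw [h2] at h1
      exact h1
    -- two elements
    obtain ⟨σ, hσ⟩ : ∃ σ : Fin n → Fin n, ∀ x, σ x ≠ x := by
      refine ⟨fun x => if (x : ℕ) = 0 then ⟨1, by omega⟩ else ⟨0, by omega⟩, fun x => ?_⟩
      dsimp only
      split_ifs with hx
      · intro h
        have := congrArg Fin.val h
        simp only at this
        omega
      · intro h
        have := congrArg Fin.val h
        simp only at this
        omega
    let g' : I → Fin n → Fin n := fun q x => match q.2.2 with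
      | none => elm74 x (F q.1 (elt74 q.2.1 x))
      | some l' => if lab74 (F q.1 (elt74 q.2.1 x)) = l' then x else σ x
    let g : Fin b' → Fin n → Fin n := fun r => g' (e.symm r)
    refine ⟨g, (hχ _ _).2 ⟨⟨⟨0, by omega⟩, ⟨1, by omega⟩, fun h => by simpa using congrArg Fin.val h⟩, fun _ => ?_⟩⟩
    have h3 : dcd74 e (funStr g) = funStr F := by
      funext i w w'
      refine propext ?_
      have hnone : ∀ l x y, funStr g (e (i, l, none)) x y ↔ elm74 x (F i (elt74 l x)) = y := by
        intro l x y
        show g' (e.symm (e (i, l, none))) x = y ↔ _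
        rw [e.symm_apply_apply]
      have hsome : ∀ l l' x, funStr g (e (i, l, some l')) x x ↔ lab74 (F i (elt74 l x)) = l' := by
        intro l l' x
        show g' (e.symm (e (i, l, some l'))) x = x ↔ _
        rw [e.symm_apply_apply]
        show (if lab74 (F i (elt74 l x)) = l' then x else σ x) = x ↔ _
        split_ifs with h
        · exact iff_of_true rfl h
        · exact iff_of_false (hσ x) h
      show (∃ x y, elt74 (lab74 w) x = w ∧ elt74 (lab74 w') y = w' ∧
        funStr g (e (i, lab74 w, some (lab74 w'))) x x ∧ funStr g (e (i, lab74 w, none)) x y) ↔ F i w = w'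
      constructor
      · rintro ⟨x, y, h1, h2, h4, h5⟩
        rw [hsome, h1] at h4
        rw [hnone, h1] at h5
        rw [← h2, ← h4, ← h5, elt_lab74]
      · intro h1
        let x0 : Fin n := ⟨0, by omega⟩
        have hx : elt74 (lab74 w) (elm74 x0 w) = w := elt_lab74 x0 w
        refine ⟨elm74 x0 w, elm74 (elm74 x0 w) w', hx, elt_lab74 _ w', ?_, ?_⟩
        · rw [hsome, hx, h1]
        · rw [hnone, hx, h1]
    rw [h3]
    exact hF
  · rintro ⟨hn, g, hg⟩
    obtain ⟨⟨x, y, hxy⟩, hP'⟩ := (hχ _ _).1 hg
    have hn2 : 2 ≤ n := by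
      by_contra hlt
      apply hxy
      apply Fin.ext
      have := x.2
      have := y.2
      omega
    obtain ⟨hfn, hM⟩ := hP' ⟨x⟩
    refine ⟨hn2, (hφ _).2 ⟨?_, ?_⟩⟩
    · have : 1 * n ≤ c * n := Nat.mul_le_mul_right n hc
      omega
    choose F hF1 hF2 using hfn
    have h3 : dcd74 e (funStr g) = funStr F := by
      funext i w w'
      refine propext ⟨fun h => (hF2 i w w' h).symm, fun h => ?_⟩
      have h : F i w = w' := h
      rw [← h]
      exact hF1 i w
    rw [h3] at hM
    let t : W74 c j (Fin n) ≃ Fin (c * n + j) := Fintype.equivFinOfCardEq (hcard n)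
    refine ⟨fun i u => t (F i (t.symm u)), ?_⟩
    have h1 := (Def0.iso (Def0.models φ) t (funStr F)).1 hM
    have h2 : (fun r x y => funStr F r (t.symm x) (t.symm y)) = funStr (fun i u => t (F i (t.symm u))) := by
      funext r x y
      refine propext ?_
      show F r (t.symm x) = t.symm y ↔ t (F r (t.symm x)) = y
      constructor
      · intro h; rw [h, t.apply_symm_apply]
      · intro h; rw [← h, t.symm_apply_apply]
    rw [h2] at h1
    exact h1

end Pool.Agent.Helper20.EX
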